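import Pool.Agent.Lib.MP_3248c9_gt.Lag.Poly

/-!
# The case `w = conj w`
-/

set_option autoImplicit false

namespace Pool.Agent.Lib.MP_3248c9_gt.Lag

open Set Filter Topology Complex
open scoped ContDiff ComplexConjugate

variable {v₁ v₂ : E2 → E2} {h w x : E2 → ℂ} {p : E2} {V : Set E2}

theorem Sys.caseB (S : Sys V v₁ v₂ h w x) (hV : V.Nonempty) (hh : ∀ p ∈ V, h p ≠ 0)
    (hr : ∀ p ∈ V, cj w p = w p) : False := by
  have hw : ∀ y ∈ V, w y ≠ 0 := fun y hy => S.w_ne hy (hh y hy)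
  have hx : ∀ y ∈ V, h y = -(4/3) * w y * (1 + x y) := by
    intro y hy
    have := S.f0 hy
    rw [hr y hy] at this
    linear_combination (4/3) * this
  -- the first polynomial
  have P1 : ∀ y ∈ V, w y * w y * (12 * (x y * x y) + 28 * x y + 13) +
      (12 * (x y * x y) + 12 * x y + 9) = 0 := by
    intro y hy
    have f1 := S.f1 hy
    have f1' := S.f1' hy
    have f3 := S.f3 hy
    have e : DD v₁ v₂ (cj w) y = DD v₁ v₂ w y :=
      ((HD.of (v₁ := v₁) (v₂ := v₂) (S.db hy)).congr S.op hy hr).2.symm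
    rw [e, hr y hy] at f1'
    rw [hr y hy] at f3
    have h1 : (3/4 * h y + w y) * pB (h y) (w y) (w y) = pG (h y) (w y) (w y) := by
      linear_combination f3 - (3/4 * h y + w y) * f1'
    rw [hx y hy] at h1
    unfold pB pG at h1
    refine (mul_eq_zero.1 ?_).resolve_left (pow_ne_zero 2 (hw y hy))
    linear_combination (-6) * h1
  have Bx : ∀ y ∈ V, DB v₁ v₂ x y = w y * (8 * x y ^ 2 + 14 * x y + 3) / 6 := by
    intro y hy
    rw [S.e3 y hy, hx y hy]
    ring
  have Bw : ∀ y ∈ V, DB v₁ v₂ w y = 3/4 + x y / 2 + 4/3 * w y ^ 2 * (1 + x y) := by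
    intro y hy
    rw [S.e1 y hy, hx y hy]
    ring
  -- the second polynomial
  have P2 : ∀ y ∈ V, 480 * (x y * x y * (x y * x y) * x y) + 1040 * (x y * x y * (x y * x y)) +
      400 * (x y * x y * x y) + 248 * (x y * x y) + 630 * x y + 213 = 0 := by
    intro y hy
    have dw := HB.of (v₁ := v₁) (v₂ := v₂) (S.dw hy)
    have dx := HB.of (v₁ := v₁) (v₂ := v₂) (S.dx hy)
    have k := HB.unique S.op hy P1 (((dw.mul dw).mul ((((dx.mul dx).cmul 12).add
      (dx.cmul 28)).add (HB.const 13))).add ((((dx.mul dx).cmul 12).add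
      (dx.cmul 12)).add (HB.const 9))) (HB.const 0)
    rw [Bx y hy, Bw y hy] at k
    have h1 := P1 y hy
    refine (mul_eq_zero.1 ?_).resolve_left (hw y hy)
    linear_combination (-2) * (12 * x y ^ 2 + 28 * x y + 13) * k +
      2 * w y * (8/3 * (12 * x y ^ 2 + 28 * x y + 13) * (1 + x y) +
        (24 * x y + 28) * (8 * x y ^ 2 + 14 * x y + 3) / 6) * h1
  obtain ⟨p, hp⟩ := hV
  have dx := HB.of (v₁ := v₁) (v₂ := v₂) (S.dx hp)
  have k := HB.unique S.op hp P2 ((((((((dx.mul dx).mul (dx.mul dx)).mul dx).cmul 480).add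
    (((dx.mul dx).mul (dx.mul dx)).cmul 1040)).add (((dx.mul dx).mul dx).cmul 400)).add
    ((dx.mul dx).cmul 248)).add (dx.cmul 630) |>.add (HB.const 213)) (HB.const 0)
  rw [Bx p hp] at k
  have h2 := P2 p hp
  have h3 : (2400 * x p ^ 4 + 4160 * x p ^ 3 + 1200 * x p ^ 2 + 496 * x p + 630) *
      (8 * x p ^ 2 + 14 * x p + 3) = 0 := by
    refine (mul_eq_zero.1 ?_).resolve_left (hw p hp)
    linear_combination 6 * k
  have h4 : (157511370210048 : ℂ) = 0 := by
    linear_combination (16955143872000*x p^5 + 50800989233600*x p^4 + 41311767862320*x p^3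
      + 9789327536440*x p^2 + 9233107289052*x p + 4464749734506) * h2 +
      (-423878596800*x p^4 - 711917911720*x p^3 - 1240369060*x p^2 - 239062271010*x p
      - 419830858857) * h3
  norm_num at h4

end Pool.Agent.Lib.MP_3248c9_gt.Lag
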