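import Pool.Agent.Lib.MP_3248c9_gt.Lag.CaseA
import Pool.Agent.Lib.MP_3248c9_gt.Lag.CaseB

/-!
# The system has no solution
-/

set_option autoImplicit false

namespace Pool.Agent.Lib.MP_3248c9_gt.Lag

open Set Filter Topology Complex
open scoped ContDiff ComplexConjugate

variable {v₁ v₂ : E2 → E2} {h w x : E2 → ℂ} {V : Set E2}

/-- The first-order system `Sys` has no solution on a nonempty open set. -/
theorem Sys.false (S : Sys V v₁ v₂ h w x) (hV : V.Nonempty) : False := by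
  -- shrink to `h ≠ 0`
  have o1 : IsOpen (V ∩ {p | h p ≠ 0}) :=
    S.sh.continuousOn.isOpen_inter_preimage S.op isOpen_compl_singleton
  obtain ⟨p1, hp1, hh1⟩ := S.exists_h hV
  have S1 := S.mono o1 inter_subset_left
  have n1 : (V ∩ {p | h p ≠ 0}).Nonempty := ⟨p1, hp1, hh1⟩
  obtain ⟨V1, hV1⟩ : ∃ V1, V1 = V ∩ {p | h p ≠ 0} := ⟨_, rfl⟩
  have H1 : ∀ p ∈ V1, h p ≠ 0 := by rw [hV1]; exact fun p hp => hp.2
  rw [← hV1] at o1 S1 n1
  -- shrink to `3/4 h + w ≠ 0`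
  have c2 : ContinuousOn (fun p => 3/4 * h p + w p) V1 :=
    (continuousOn_const.mul S1.sh.continuousOn).add S1.sw.continuousOn
  have o2 : IsOpen (V1 ∩ {p | 3/4 * h p + w p ≠ 0}) :=
    c2.isOpen_inter_preimage o1 isOpen_compl_singleton
  obtain ⟨p2, hp2, hh2⟩ := S1.exists_a n1 H1
  have S2 := S1.mono o2 inter_subset_left
  have n2 : (V1 ∩ {p | 3/4 * h p + w p ≠ 0}).Nonempty := ⟨p2, hp2, hh2⟩
  obtain ⟨V2, hV2⟩ : ∃ V2, V2 = V1 ∩ {p | 3/4 * h p + w p ≠ 0} := ⟨_, rfl⟩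
  have H2 : ∀ p ∈ V2, h p ≠ 0 ∧ 3/4 * h p + w p ≠ 0 := by
    rw [hV2]; exact fun p hp => ⟨H1 p hp.1, hp.2⟩
  rw [← hV2] at o2 S2 n2
  by_cases hB : ∀ p ∈ V2, cj w p = w p
  · exact S2.caseB n2 (fun p hp => (H2 p hp).1) hB
  · push Not at hB
    obtain ⟨p, hp, hne⟩ := hB
    have c3 : ContinuousOn (fun p => w p - cj w p) V2 :=
      S2.sw.continuousOn.sub S2.sb.continuousOn
    have o3 : IsOpen (V2 ∩ {p | w p - cj w p ≠ 0}) :=
      c3.isOpen_inter_preimage o2 isOpen_compl_singleton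
    have S3 := S2.mono o3 inter_subset_left
    refine S3.caseA (p := p) ⟨hp, sub_ne_zero.2 hne.symm⟩ (H2 p hp).1 hne.symm ?_
    intro y hy
    exact (mul_eq_zero.1 (S2.commH hy.1 (S2.w_ne hy.1 (H2 y hy.1).1) (H2 y hy.1).2)).resolve_left
      hy.2

end Pool.Agent.Lib.MP_3248c9_gt.Lag
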