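import Pool.Agent.Lib.MP_3248c9_gt.Lag.Rho
import Pool.Agent.Lib.MP_3248c9_gt.Lag.Elim

/-!
# The first-order system from the biharmonic equation
-/

set_option autoImplicit false

namespace Pool.Agent.Lib.MP_3248c9_gt.Lag

open Set Filter Topology Complex
open scoped ContDiff ComplexConjugate

variable {V : Set E2} {v₁ v₂ : E2 → E2} {J : C4 →ₗ[ℂ] C4} {q ρ : E2 → ℂ} {Z : E2 → C4} {p : E2}

/-- The vector `M`. -/
noncomputable def vM (v₁ v₂ : E2 → E2) (J : C4 →ₗ[ℂ] C4) (q ρ : E2 → ℂ) (Z : E2 → C4) (p : E2) :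
    C4 :=
  conj (fw v₁ v₂ q Z p) • Z p + (-ρ p) • cv (Z p) + (1/2 + conj (fx v₁ v₂ J q Z p)) • J (Z p) +
    J (cv (Z p))

theorem Fr.DB_X (S : Fr V v₁ v₂ J q ρ Z) (hp : p ∈ V) :
    DBv v₁ v₂ (fun y => q y • (Z y + cv (Z y))) p = q p • vM v₁ v₂ J q ρ Z p := by
  have h := (HBv.smul (S.bq hp) ((S.bZ hp).add (S.bc hp))).val
  rw [h]
  unfold vM
  rw [map_add]
  module

theorem Fr.DD_M (S : Fr V v₁ v₂ J q ρ Z) (hp : p ∈ V) :
    HDv v₁ v₂ (vM v₁ v₂ J q ρ Z) p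
      (conj (DB v₁ v₂ (fw v₁ v₂ q Z) p) • Z p + conj (fw v₁ v₂ q Z p) • DDv v₁ v₂ Z p +
        (-(DD v₁ v₂ ρ p) • cv (Z p) +
          (-ρ p) • (conj (ρ p) • cv (Z p) + (1/2 : ℂ) • J (Z p + cv (Z p)))) +
        ((0 + conj (DB v₁ v₂ (fx v₁ v₂ J q Z) p)) • J (Z p) +
          (1/2 + conj (fx v₁ v₂ J q Z p)) • J (DDv v₁ v₂ Z p)) +
        J (conj (ρ p) • cv (Z p) + (1/2 : ℂ) • J (Z p + cv (Z p)))) := by
  have dρ := HD.of (v₁ := v₁) (v₂ := v₂) (diffAt S.op S.sρ hp)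
  have bw := HB.of (v₁ := v₁) (v₂ := v₂) (diffAt S.op S.sfw hp)
  have bx := HB.of (v₁ := v₁) (v₂ := v₂) (diffAt S.op S.sfx hp)
  exact (((HDv.smul bw.conj (S.dZ hp)).add (HDv.smul dρ.neg (S.dc hp))).add
    (HDv.smul ((HD.const (1/2)).add bx.conj) ((S.dZ hp).lin J))).add ((S.dc hp).lin J)

theorem Fr.vec_eq (S : Fr V v₁ v₂ J q ρ Z) (hp : p ∈ V) :
    (fw v₁ v₂ q Z p - 2 * ρ p) • vM v₁ v₂ J q ρ Z p +
      (conj (DB v₁ v₂ (fw v₁ v₂ q Z) p) • Z p + conj (fw v₁ v₂ q Z p) • DDv v₁ v₂ Z p +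
        (-(DD v₁ v₂ ρ p) • cv (Z p) +
          (-ρ p) • (ρ p • cv (Z p) + (1/2 : ℂ) • J (Z p + cv (Z p)))) +
        (conj (DB v₁ v₂ (fx v₁ v₂ J q Z) p) • J (Z p) +
          (1/2 + conj (fx v₁ v₂ J q Z p)) • J (DDv v₁ v₂ Z p)) +
        J (ρ p • cv (Z p) + (1/2 : ℂ) • J (Z p + cv (Z p)))) = 0 := by
  have h := S.bih p hp
  have h1 := ((HDv.smul (S.dq hp) (S.DD_M hp)).congr S.op hp (fun y hy => (S.DB_X hy).symm)).val
  rw [S.rho_real hp] at h h1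
  rw [h1, S.DB_X hp] at h
  have hq := S.q0 p hp
  refine (smul_eq_zero.1 ?_).resolve_left hq
  rw [← h, zero_add]
  module

/-- Coefficients with respect to the frame. -/
theorem Fr.coef (S : Fr V v₁ v₂ J q ρ Z) (hp : p ∈ V) {c1 c2 c3 c4 : ℂ}
    (h : c1 • Z p + c2 • cv (Z p) + c3 • J (Z p) + c4 • J (cv (Z p)) = 0) :
    c1 = 0 ∧ c2 = 0 ∧ c3 = 0 ∧ c4 = 0 := by
  have hq : (2 / q p) ≠ 0 := div_ne_zero two_ne_zero (S.q0 p hp)
  have h1 := congrArg (fun a => dot a (cv (Z p))) h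
  have h2 := congrArg (fun a => dot a (Z p)) h
  have h3 := congrArg (fun a => dot a (J (cv (Z p)))) h
  have h4 := congrArg (fun a => dot a (J (Z p))) h
  simp only [dot_add_left, dot_smul_left, dot_zero_left, S.Jiso] at h1 h2 h3 h4
  rw [S.zc' hp, S.cc hp, dot_comm (J (Z p)), S.cJz hp, S.J_self] at h1
  rw [S.zz p hp, S.cz' hp, S.J_self, dot_comm (J (cv (Z p))), S.zJc hp] at h2
  rw [S.zJc hp, S.J_self', S.zc' hp, S.cc hp] at h3
  rw [S.J_self', S.cJz hp, S.zz p hp, S.cz' hp] at h4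
  refine ⟨?_, ?_, ?_, ?_⟩
  · refine (mul_eq_zero.1 ?_).resolve_right hq
    linear_combination h1
  · refine (mul_eq_zero.1 ?_).resolve_right hq
    linear_combination h2
  · refine (mul_eq_zero.1 ?_).resolve_right hq
    linear_combination h3
  · refine (mul_eq_zero.1 ?_).resolve_right hq
    linear_combination h4

theorem Fr.coefs (S : Fr V v₁ v₂ J q ρ Z) (hp : p ∈ V) :
    -2 * ρ p * conj (fw v₁ v₂ q Z p) + conj (DB v₁ v₂ (fw v₁ v₂ q Z) p)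
        - 1/2 * (1/2 + conj (fx v₁ v₂ J q Z p)) - 1/2 = 0 ∧
    -(fw v₁ v₂ q Z p - 2 * ρ p) * ρ p - DD v₁ v₂ ρ p - ρ p ^ 2
        - (1/2 + conj (fx v₁ v₂ J q Z p)) * fx v₁ v₂ J q Z p - 1/2 = 0 ∧
    -2 * ρ p * (1/2 + conj (fx v₁ v₂ J q Z p)) + conj (fw v₁ v₂ q Z p) / 2 - ρ p / 2
        + conj (DB v₁ v₂ (fx v₁ v₂ J q Z) p) = 0 ∧
    fw v₁ v₂ q Z p + conj (fw v₁ v₂ q Z p) * fx v₁ v₂ J q Z p - 3/2 * ρ p = 0 := by
  refine S.coef hp ?_
  have h := S.vec_eq hp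
  rw [S.dZ_eq hp] at h
  unfold vM at h
  simp only [map_add, map_smul, S.Jsq] at h
  rw [← h]
  module

theorem Fr.sys (S : Fr V v₁ v₂ J q ρ Z) :
    Sys V v₁ v₂ (fun y => -2 * ρ y) (fw v₁ v₂ q Z) (fx v₁ v₂ J q Z) where
  op := S.op
  sv₁ := S.sv₁
  sv₂ := S.sv₂
  sh := contDiffOn_const.mul S.sρ
  sw := S.sfw
  sx := S.sfx
  hre p hp := by rw [map_mul, S.rho_real hp]; simp [map_ofNat]
  e0 p hp := by
    obtain ⟨-, -, -, h4⟩ := S.coefs hp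
    linear_combination h4
  e1 p hp := by
    obtain ⟨h1, -, -, -⟩ := S.coefs hp
    have h := congrArg conj h1
    simp only [map_add, map_sub, map_mul, map_neg, map_div₀, map_one, map_ofNat, conj_conj,
      S.rho_real hp, map_zero] at h
    linear_combination h
  e2 p hp := by
    obtain ⟨-, h2, -, -⟩ := S.coefs hp
    have hd := ((HD.of (v₁ := v₁) (v₂ := v₂) (diffAt S.op S.sρ hp)).cmul (-2)).2
    rw [hd]
    linear_combination 2 * h2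
  e3 p hp := by
    obtain ⟨-, -, h3, -⟩ := S.coefs hp
    have h := congrArg conj h3
    simp only [map_add, map_sub, map_mul, map_neg, map_div₀, map_one, map_ofNat, conj_conj,
      S.rho_real hp, map_zero] at h
    linear_combination h
  e4 p hp u hu := by
    rw [S.comm p hp u hu, S.rho_real hp]
    ring

/-- There is no such frame. -/
theorem Fr.false (S : Fr V v₁ v₂ J q ρ Z) (hV : V.Nonempty) : False := S.sys.false hV

end Pool.Agent.Lib.MP_3248c9_gt.Lag
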