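import Pool.Agent.Lib.MP_3248c9_gt.Lag.Normal

/-!
# Lagrangian surfaces
-/

set_option autoImplicit false

namespace Pool.Agent.Lib.MP_3248c9_gt.Lag

open Set Filter Topology
open scoped ContDiff
open Pool.Agent.Helix (pd inducedMetric laplaceBeltrami gE gF gG gW)

/-- Euclidean four-space. -/
abbrev E4 := EuclideanSpace ℝ (Fin 4)

/-- An orthogonal complex structure. -/
structure Cx (J : E4 →L[ℝ] E4) : Prop where
  iso : ∀ y z, inner ℝ (J y) (J z) = inner ℝ y z
  sq : ∀ y, J (J y) = -y

variable {J : E4 →L[ℝ] E4}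

theorem Cx.skew (h : Cx J) (y z : E4) : inner ℝ (J y) z = -inner ℝ y (J z) := by
  rw [← h.iso (J y) z, h.sq, inner_neg_left]

theorem Cx.self (h : Cx J) (y : E4) : inner ℝ (J y) y = 0 := by
  have h1 := h.skew y y
  rw [real_inner_comm y (J y)] at h1 ⊢
  linarith

theorem Cx.self' (h : Cx J) (y : E4) : inner ℝ y (J y) = 0 := by
  rw [real_inner_comm]; exact h.self y

/-- A vector orthogonal to `p1`, `p2`, `J p1`, `J p2` vanishes, if `p1`, `p2` span a Lagrangian
plane. -/
theorem Cx.perp (h : Cx J) {p1 p2 Y : E4}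
    (hdet : 0 < inner ℝ p1 p1 * inner ℝ p2 p2 - (inner ℝ p1 p2 : ℝ) ^ 2)
    (hlag : inner ℝ (J p1) p2 = 0) (h1 : inner ℝ Y p1 = 0) (h2 : inner ℝ Y p2 = 0)
    (h3 : inner ℝ Y (J p1) = 0) (h4 : inner ℝ Y (J p2) = 0) : Y = 0 := by
  have c12 : inner ℝ p2 p1 = (inner ℝ p1 p2 : ℝ) := real_inner_comm _ _
  have l12 : inner ℝ p1 (J p2) = 0 := by
    have := h.skew p1 p2; rw [hlag] at this; linarith
  have l21 : inner ℝ (J p2) p1 = 0 := by rw [real_inner_comm]; exact l12
  have l12' : inner ℝ p2 (J p1) = 0 := by rw [real_inner_comm]; exact hlag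
  obtain ⟨v, hv⟩ : ∃ v : Fin 4 → E4, v = ![p1, p2, J p1, J p2] := ⟨_, rfl⟩
  have li : LinearIndependent ℝ v := by
    rw [Fintype.linearIndependent_iff]
    intro g hg
    rw [hv, Fin.sum_univ_four] at hg
    simp only [Matrix.cons_val_zero, Matrix.cons_val_one, Matrix.cons_val] at hg
    have k1 := congrArg (fun z => inner ℝ z p1) hg
    have k2 := congrArg (fun z => inner ℝ z p2) hg
    have k3 := congrArg (fun z => inner ℝ z (J p1)) hg
    have k4 := congrArg (fun z => inner ℝ z (J p2)) hg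
    simp only [inner_add_left, inner_smul_left, conj_trivial, inner_zero_left, h.iso, h.self,
      h.self', hlag, l12, l21, l12', c12, mul_zero, add_zero, zero_add] at k1 k2 k3 k4
    have e : ∀ s t : ℝ, s * inner ℝ p1 p1 + t * inner ℝ p1 p2 = 0 →
        s * inner ℝ p1 p2 + t * inner ℝ p2 p2 = 0 → s = 0 ∧ t = 0 := by
      intro s t e1 e2
      constructor
      · have : (inner ℝ p1 p1 * inner ℝ p2 p2 - (inner ℝ p1 p2 : ℝ) ^ 2) * s = 0 := by
          linear_combination (inner ℝ p2 p2 : ℝ) * e1 - (inner ℝ p1 p2 : ℝ) * e2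
        exact (mul_eq_zero.1 this).resolve_left hdet.ne'
      · have : (inner ℝ p1 p1 * inner ℝ p2 p2 - (inner ℝ p1 p2 : ℝ) ^ 2) * t = 0 := by
          linear_combination (inner ℝ p1 p1 : ℝ) * e2 - (inner ℝ p1 p2 : ℝ) * e1
        exact (mul_eq_zero.1 this).resolve_left hdet.ne'
    have a1 := e _ _ k1 k2
    have a2 := e _ _ k3 k4
    intro i
    fin_cases i
    · exact a1.1
    · exact a1.2
    · exact a2.1
    · exact a2.2
  have hs : Submodule.span ℝ (Set.range v) = ⊤ :=
    li.span_eq_top_of_card_eq_finrank' (by simp)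
  have hY : Y ∈ Submodule.span ℝ (Set.range v) := by rw [hs]; exact Submodule.mem_top
  have hz : ∀ z ∈ Submodule.span ℝ (Set.range v), inner ℝ Y z = 0 := by
    intro z hz
    induction hz using Submodule.span_induction with
    | mem z hz =>
      obtain ⟨i, rfl⟩ := hz
      rw [hv]
      fin_cases i
      · exact h1
      · exact h2
      · exact h3
      · exact h4
    | zero => exact inner_zero_right _
    | add z z' _ _ e e' => rw [inner_add_right, e, e', add_zero]
    | smul c z _ e => rw [inner_smul_right, e, mul_zero]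
  exact inner_self_eq_zero.1 (hz Y hY)

end Pool.Agent.Lib.MP_3248c9_gt.Lag
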