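import Pool.Agent.Lib.MP_3248c9_gt.Lag.Vec
import Pool.Agent.Lib.MP_3248c9_gt.Lag.Tangent

/-!
# Complexification
-/

set_option autoImplicit false

namespace Pool.Agent.Lib.MP_3248c9_gt.Lag

open Set Filter Topology Complex
open scoped ContDiff ComplexConjugate

/-- A real vector as a complex vector. -/
noncomputable def cx (y : E4) : C4 := fun j => ((y j : ℝ) : ℂ)

theorem cx_add (y z : E4) : cx (y + z) = cx y + cx z := by ext j; simp [cx]
theorem cx_neg (y : E4) : cx (-y) = -cx y := by ext j; simp [cx]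
theorem cx_smul (c : ℝ) (y : E4) : cx (c • y) = (c : ℂ) • cx y := by ext j; simp [cx]
theorem cv_cx (y : E4) : cv (cx y) = cx y := by ext j; simp [cv, cx]

theorem dot_cx (y z : E4) : dot (cx y) (cx z) = ((inner ℝ y z : ℝ) : ℂ) := by
  rw [PiLp.inner_apply]
  simp [dot, cx, mul_comm]

/-- Real and imaginary parts. -/
theorem cx_decomp (a : C4) : ∃ y z : E4, a = cx y + I • cx z := by
  refine ⟨WithLp.toLp 2 (fun j => (a j).re), WithLp.toLp 2 (fun j => (a j).im), ?_⟩
  ext j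
  simp only [cx, Pi.add_apply, Pi.smul_apply, smul_eq_mul]
  rw [mul_comm]
  exact (re_add_im (a j)).symm

/-- The complex linear extension of `J`. -/
noncomputable def Jc (J : E4 →L[ℝ] E4) : C4 →ₗ[ℂ] C4 :=
  Matrix.mulVecLin (Matrix.of fun i j => ((J (EuclideanSpace.single j (1 : ℝ)) i : ℝ) : ℂ))

theorem Jc_cx (J : E4 →L[ℝ] E4) (y : E4) : Jc J (cx y) = cx (J y) := by
  ext i
  have hy : y = ∑ j, y j • EuclideanSpace.single j (1 : ℝ) := by
    ext k
    simp [Pi.single_apply]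
  have h1 : J y i = ∑ j, y j * J (EuclideanSpace.single j (1 : ℝ)) i := by
    conv_lhs => rw [hy]
    rw [map_sum]
    simp
  simp only [Jc, cx, Matrix.mulVecLin_apply, Matrix.mulVec, dotProduct, Matrix.of_apply]
  rw [h1]
  push_cast
  exact Finset.sum_congr rfl fun j _ => mul_comm _ _

variable {J : E4 →L[ℝ] E4}

theorem Jc_cv (a : C4) : Jc J (cv a) = cv (Jc J a) := by
  obtain ⟨y, z, rfl⟩ := cx_decomp a
  simp only [cv_add, cv_smul, cv_cx, map_add, map_smul, Jc_cx]

theorem Cx.Jc_sq (h : Cx J) (a : C4) : Jc J (Jc J a) = -a := by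
  obtain ⟨y, z, rfl⟩ := cx_decomp a
  simp only [map_add, map_smul, Jc_cx, h.sq, cx_neg]
  module

theorem Cx.Jc_iso (h : Cx J) (a b : C4) : dot (Jc J a) (Jc J b) = dot a b := by
  obtain ⟨y, z, rfl⟩ := cx_decomp a
  obtain ⟨y', z', rfl⟩ := cx_decomp b
  simp only [map_add, map_smul, Jc_cx, dot_add_left, dot_add_right, dot_smul_left, dot_smul_right,
    dot_cx, h.iso]

/-- The vectors orthogonal to the complex frame. -/
theorem Cx.Jc_ind (h : Cx J) {y1 y2 : E4}
    (hdet : 0 < inner ℝ y1 y1 * inner ℝ y2 y2 - (inner ℝ y1 y2 : ℝ) ^ 2)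
    (hlag : inner ℝ (J y1) y2 = 0) {Z : C4} (hZ : Z = cx y1 + (-I) • cx y2) (a : C4)
    (h1 : dot a Z = 0) (h2 : dot a (cv Z) = 0) (h3 : dot a (Jc J Z) = 0)
    (h4 : dot a (Jc J (cv Z)) = 0) : a = 0 := by
  have hI : I ≠ 0 := I_ne_zero
  have e1 : cx y1 = (1/2 : ℂ) • (Z + cv Z) := by
    rw [hZ, cv_add, cv_smul, cv_cx, cv_cx, map_neg, conj_I]
    module
  have e2 : cx y2 = (I/2) • (Z - cv Z) := by
    rw [hZ, cv_add, cv_smul, cv_cx, cv_cx, map_neg, conj_I]
    have : (I/2 : ℂ) * (-I) = 1/2 := by linear_combination (-1/2) * I_mul_I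
    calc cx y2 = ((I/2) * (-I) + (I/2) * (-I)) • cx y2 := by rw [this]; norm_num
      _ = _ := by module
  have k1 : dot a (cx y1) = 0 := by
    rw [e1, dot_smul_right, dot_add_right, h1, h2]; ring
  have k2 : dot a (cx y2) = 0 := by
    rw [e2, dot_smul_right, dot_sub_right, h1, h2]; ring
  have k3 : dot a (cx (J y1)) = 0 := by
    rw [← Jc_cx, e1, map_smul, map_add, dot_smul_right, dot_add_right, h3, h4]; ring
  have k4 : dot a (cx (J y2)) = 0 := by
    rw [← Jc_cx, e2, map_smul, map_sub, dot_smul_right, dot_sub_right, h3, h4]; ring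
  obtain ⟨y, z, rfl⟩ := cx_decomp a
  have key : ∀ v : E4, dot (cx y + I • cx z) (cx v) = 0 → inner ℝ y v = 0 ∧ inner ℝ z v = 0 := by
    intro v hv
    rw [dot_add_left, dot_smul_left, dot_cx, dot_cx] at hv
    have r1 := congrArg Complex.re hv
    have r2 := congrArg Complex.im hv
    simp at r1 r2
    exact ⟨r1, r2⟩
  have hy : y = 0 := h.perp hdet hlag (key _ k1).1 (key _ k2).1 (key _ k3).1 (key _ k4).1
  have hz : z = 0 := h.perp hdet hlag (key _ k1).2 (key _ k2).2 (key _ k3).2 (key _ k4).2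
  rw [hy, hz]
  ext j
  simp [cx]

end Pool.Agent.Lib.MP_3248c9_gt.Lag
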