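import Pool.Agent.Lib.MP_3248c9_gt.Lag.Surf
import Pool.Agent.Lib.MP_3248c9_gt.Lag.Cplx
import Pool.Agent.Lib.MP_3248c9_gt.Lag.Bih

/-!
# Biharmonic Lagrangian surfaces are minimal
-/

set_option autoImplicit false

namespace Pool.Agent.Lib.MP_3248c9_gt.Lag

open Set Filter Topology Complex
open scoped ContDiff ComplexConjugate
open Pool.Agent.Helix (pd inducedMetric laplaceBeltrami gE gF gG gW)

/-- Components as complex numbers. -/
noncomputable def pr (j : Fin 4) : E4 →L[ℝ] ℂ := ofRealCLM.comp (EuclideanSpace.proj j)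

theorem pr_apply (j : Fin 4) (y : E4) : pr j y = ((y j : ℝ) : ℂ) := rfl

theorem dv_pr (v : E2 → E2) {u : E2 → E4} {p : E2} (hu : DifferentiableAt ℝ u p) (j : Fin 4) :
    dv v (fun y => pr j (u y)) p = pr j (dv v u p) := by
  have h : HasFDerivAt (fun y => pr j (u y)) _ p := (pr j).hasFDerivAt.comp p hu.hasFDerivAt
  unfold dv
  rw [h.fderiv]
  rfl

variable {J : E4 →L[ℝ] E4} {U : Set E2} {f : E2 → E4} {x : E2}

/-- The first vector field. -/
noncomputable def w1 (J : E4 →L[ℝ] E4) (f : E2 → E4) : E2 → E2 := vf (va J f) (vb J f)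
/-- The second vector field. -/
noncomputable def w2 (J : E4 →L[ℝ] E4) (f : E2 → E4) : E2 → E2 := vf (vc J f) (vd J f)

/-- The coefficient `ρ`. -/
noncomputable def rh (J : E4 →L[ℝ] E4) (f : E2 → E4) (p : E2) : ℂ :=
  -((bet (vK f) (va J f) (vb J f) p : ℝ) : ℂ) - I * ((bet (vK f) (vc J f) (vd J f) p : ℝ) : ℂ)

theorem bet_at {K c d : E2 → ℝ} {p : E2} (hK : ContDiffAt ℝ ∞ K p) (hK0 : K p ≠ 0)
    (hc : ContDiffAt ℝ ∞ c p) (hd : ContDiffAt ℝ ∞ d p) : ContDiffAt ℝ ∞ (bet K c d) p := by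
  unfold bet
  exact (((hK.inv hK0).mul ((hc.mul (pe_contDiffAt hK 0)).add (hd.mul (pe_contDiffAt hK 1)))).add
    (pe_contDiffAt hc 0)).add (pe_contDiffAt hd 1)

section smooth

variable (h : LagS J U f) (hx : x ∈ U) (hη : eta f x ≠ 0)

include h hx

theorem LagS.fX_at : ContDiffAt ℝ ∞ (fX J f) x :=
  (J.contDiff.contDiffAt.comp x (h.im.eta_at hx)).neg

theorem LagS.fq_at : ContDiffAt ℝ ∞ (fq f) x := (h.im.eta_at hx).inner ℝ (h.im.eta_at hx)

theorem LagS.fc_at (i : Fin 2) : ContDiffAt ℝ ∞ (fc J f i) x :=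
  (h.fX_at hx).inner ℝ (h.im.pe_at hx i)

theorem LagS.vK_at : ContDiffAt ℝ ∞ (vK f) x := (h.fq_at hx).mul (h.im.W_at hx)

include hη

theorem LagS.va_at : ContDiffAt ℝ ∞ (va J f) x :=
  (((h.im.G_at hx).mul (h.fc_at hx 0)).sub ((h.im.F_at hx).mul (h.fc_at hx 1))).div
    ((h.fq_at hx).mul ((h.im.W_at hx).pow 2))
    (mul_ne_zero (fq_pos hη).ne' (pow_ne_zero 2 (h.im.W_pos hx).ne'))

theorem LagS.vb_at : ContDiffAt ℝ ∞ (vb J f) x :=
  (((h.im.E_at hx).mul (h.fc_at hx 1)).sub ((h.im.F_at hx).mul (h.fc_at hx 0))).div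
    ((h.fq_at hx).mul ((h.im.W_at hx).pow 2))
    (mul_ne_zero (fq_pos hη).ne' (pow_ne_zero 2 (h.im.W_pos hx).ne'))

theorem LagS.vc_at : ContDiffAt ℝ ∞ (vc J f) x :=
  (h.fc_at hx 1).neg.div ((h.fq_at hx).mul (h.im.W_at hx))
    (mul_ne_zero (fq_pos hη).ne' (h.im.W_pos hx).ne')

theorem LagS.vd_at : ContDiffAt ℝ ∞ (vd J f) x :=
  (h.fc_at hx 0).div ((h.fq_at hx).mul (h.im.W_at hx))
    (mul_ne_zero (fq_pos hη).ne' (h.im.W_pos hx).ne')

theorem LagS.w1_at : ContDiffAt ℝ ∞ (w1 J f) x :=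
  ((h.va_at hx hη).smul contDiffAt_const).add ((h.vb_at hx hη).smul contDiffAt_const)

theorem LagS.w2_at : ContDiffAt ℝ ∞ (w2 J f) x :=
  ((h.vc_at hx hη).smul contDiffAt_const).add ((h.vd_at hx hη).smul contDiffAt_const)

theorem LagS.x1_at : ContDiffAt ℝ ∞ (x1 J f) x :=
  dv_contDiffAt (h.va_at hx hη) (h.vb_at hx hη) (h.im.at hx)

theorem LagS.x2_at : ContDiffAt ℝ ∞ (x2 J f) x :=
  dv_contDiffAt (h.vc_at hx hη) (h.vd_at hx hη) (h.im.at hx)

theorem LagS.rh_at : ContDiffAt ℝ ∞ (rh J f) x := by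
  have hK := h.vK_at hx
  have hK0 := (h.K_pos hx hη).ne'
  have b1 := bet_at hK hK0 (h.va_at hx hη) (h.vb_at hx hη)
  have b2 := bet_at hK hK0 (h.vc_at hx hη) (h.vd_at hx hη)
  exact (ofRealCLM.contDiff.contDiffAt.comp x b1).neg.sub
    (contDiffAt_const.mul (ofRealCLM.contDiff.contDiffAt.comp x b2))

end smooth

/-- The set where the mean curvature does not vanish. -/
def vV (U : Set E2) (f : E2 → E4) : Set E2 := U ∩ {x | eta f x ≠ 0}

theorem LagS.vV_open (h : LagS J U f) : IsOpen (vV U f) := by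
  have : ContinuousOn (eta f) U := fun x hx => (h.im.eta_at hx).continuousAt.continuousWithinAt
  exact this.isOpen_inter_preimage h.im.isOpen isOpen_compl_singleton

theorem vV_ev (h : LagS J U f) (hx : x ∈ vV U f) : ∀ᶠ y in 𝓝 x, y ∈ U ∧ eta f y ≠ 0 := by
  filter_upwards [h.vV_open.mem_nhds hx] with y hy
  exact hy

/-- The bracket of the vector fields. -/
theorem LagS.bracket {F : Type*} [NormedAddCommGroup F] [NormedSpace ℝ F] (h : LagS J U f)
    (hx : x ∈ vV U f) {u : E2 → F} (hu : ContDiffAt ℝ ∞ u x) :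
    dv (w1 J f) (dv (w2 J f) u) x - dv (w2 J f) (dv (w1 J f) u) x =
      bet (vK f) (vc J f) (vd J f) x • dv (w1 J f) u x -
      bet (vK f) (va J f) (vb J f) x • dv (w2 J f) u x := by
  refine comm_vf' (h.va_at hx.1 hx.2) (h.vb_at hx.1 hx.2) (h.vc_at hx.1 hx.2)
    (h.vd_at hx.1 hx.2) (h.vK_at hx.1) ?_ hu
  filter_upwards [vV_ev h hx] with y hy
  exact h.K_det hy.1 hy.2

/-- Second-order expressions. -/
theorem DD_DB {v₁ v₂ : E2 → E2} {u : E2 → ℂ} {p : E2} (h1 : DifferentiableAt ℝ (dv v₁ u) p)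
    (h2 : DifferentiableAt ℝ (dv v₂ u) p) :
    DD v₁ v₂ (DB v₁ v₂ u) p = dv v₁ (dv v₁ u) p - I * dv v₂ (dv v₁ u) p +
      I * (dv v₁ (dv v₂ u) p - I * dv v₂ (dv v₂ u) p) :=
  ((HD.of (v₁ := v₁) (v₂ := v₂) h1).add ((HD.of h2).cmul I)).2

theorem DB_DD {v₁ v₂ : E2 → E2} {u : E2 → ℂ} {p : E2} (h1 : DifferentiableAt ℝ (dv v₁ u) p)
    (h2 : DifferentiableAt ℝ (dv v₂ u) p) :
    DB v₁ v₂ (DD v₁ v₂ u) p = dv v₁ (dv v₁ u) p + I * dv v₂ (dv v₁ u) p -
      I * (dv v₁ (dv v₂ u) p + I * dv v₂ (dv v₂ u) p) :=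
  ((HB.of (v₁ := v₁) (v₂ := v₂) h1).sub ((HB.of h2).cmul I)).2

theorem LagS.d1 {F : Type*} [NormedAddCommGroup F] [NormedSpace ℝ F] (h : LagS J U f)
    (hx : x ∈ vV U f) {u : E2 → F} (hu : ContDiffAt ℝ ∞ u x) :
    DifferentiableAt ℝ (dv (w1 J f) u) x :=
  (dv_contDiffAt (h.va_at hx.1 hx.2) (h.vb_at hx.1 hx.2) hu).differentiableAt (by simp)

theorem LagS.d2 {F : Type*} [NormedAddCommGroup F] [NormedSpace ℝ F] (h : LagS J U f)
    (hx : x ∈ vV U f) {u : E2 → F} (hu : ContDiffAt ℝ ∞ u x) :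
    DifferentiableAt ℝ (dv (w2 J f) u) x :=
  (dv_contDiffAt (h.vc_at hx.1 hx.2) (h.vd_at hx.1 hx.2) hu).differentiableAt (by simp)

theorem conj_rh (J : E4 →L[ℝ] E4) (f : E2 → E4) (p : E2) : conj (rh J f p) =
    -((bet (vK f) (va J f) (vb J f) p : ℝ) : ℂ) + I * ((bet (vK f) (vc J f) (vd J f) p : ℝ) : ℂ) := by
  unfold rh
  simp only [map_sub, map_neg, map_mul, conj_ofReal, conj_I]
  ring

/-- The commutator of the two operators. -/
theorem LagS.comm (h : LagS J U f) (hx : x ∈ vV U f) {u : E2 → ℂ} (hu : ContDiffAt ℝ ∞ u x) :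
    DD (w1 J f) (w2 J f) (DB (w1 J f) (w2 J f) u) x -
      DB (w1 J f) (w2 J f) (DD (w1 J f) (w2 J f) u) x =
      -rh J f x * DD (w1 J f) (w2 J f) u x + conj (rh J f x) * DB (w1 J f) (w2 J f) u x := by
  rw [DD_DB (h.d1 hx hu) (h.d2 hx hu), DB_DD (h.d1 hx hu) (h.d2 hx hu), conj_rh]
  have hb := h.bracket hx hu
  rw [real_smul, real_smul] at hb
  unfold rh DD DB
  linear_combination 2 * I * hb

/-- The Laplacian in the frame. -/
theorem LagS.lap_frame (h : LagS J U f) (hx : x ∈ vV U f) {u : E2 → E4}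
    (hu : ContDiffAt ℝ ∞ u x) (j : Fin 4) :
    pr j (laplaceBeltrami (inducedMetric f) u x) =
      (fq f x : ℂ) * (DD (w1 J f) (w2 J f) (DB (w1 J f) (w2 J f) (fun y => pr j (u y))) x -
        conj (rh J f x) * DB (w1 J f) (w2 J f) (fun y => pr j (u y)) x) := by
  have hW := (h.im.W_pos hx.1).ne'
  have hj : ContDiffAt ℝ ∞ (fun y => pr j (u y)) x := (pr j).contDiff.contDiffAt.comp x hu
  have hA : ∀ᶠ y in 𝓝 x, cA f y = vK f y * (va J f y * va J f y + vc J f y * vc J f y) := by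
    filter_upwards [vV_ev h hx] with y hy
    exact h.K_A hy.1 hy.2
  have hB : ∀ᶠ y in 𝓝 x, cB f y = vK f y * (va J f y * vb J f y + vc J f y * vd J f y) := by
    filter_upwards [vV_ev h hx] with y hy
    exact h.K_B hy.1 hy.2
  have hC : ∀ᶠ y in 𝓝 x, cC f y = vK f y * (vb J f y * vb J f y + vd J f y * vd J f y) := by
    filter_upwards [vV_ev h hx] with y hy
    exact h.K_C hy.1 hy.2
  have hL := lap_vf (h.va_at hx.1 hx.2) (h.vb_at hx.1 hx.2) (h.vc_at hx.1 hx.2)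
    (h.vd_at hx.1 hx.2) (h.vK_at hx.1) (h.K_pos hx.1 hx.2).ne' hA hB hC hu
  rw [h.im.lap_coord u hx.1, hL, smul_smul]
  have hK : (gW f x)⁻¹ * vK f x = fq f x := by unfold vK; field_simp
  rw [hK, DD_DB (h.d1 hx hj) (h.d2 hx hj), conj_rh]
  -- components
  have du : DifferentiableAt ℝ u x := hu.differentiableAt (by simp)
  have e1 : ∀ v : E2 → E2, ContDiffAt ℝ ∞ u x → dv v (fun y => pr j (u y)) =ᶠ[𝓝 x]
      fun y => pr j (dv v u y) := by
    intro v hu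
    have h1 : ContDiffAt ℝ 1 u x := hu.of_le (by exact_mod_cast le_top)
    filter_upwards [h1.eventually (by simp)] with y hy
    exact dv_pr v (hy.differentiableAt (by simp)) j
  have e2 : ∀ v v' : E2 → E2, DifferentiableAt ℝ (dv v u) x →
      dv v' (dv v (fun y => pr j (u y))) x = pr j (dv v' (dv v u) x) := by
    intro v v' hd
    rw [← dv_pr v' hd j]
    show fderiv ℝ (dv v (fun y => pr j (u y))) x (v' x) =
      fderiv ℝ (fun y => pr j (dv v u y)) x (v' x)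
    rw [(e1 v hu).fderiv_eq]
  have e3 : ∀ v : E2 → E2, dv v (fun y => pr j (u y)) x = pr j (dv v u x) :=
    fun v => dv_pr v du j
  have hb := h.bracket hx hj
  rw [real_smul, real_smul] at hb
  rw [e2 _ _ (h.d1 hx hu), e2 _ _ (h.d2 hx hu), e3, e3] at hb
  unfold DB
  rw [e2 _ _ (h.d1 hx hu), e2 _ _ (h.d1 hx hu), e2 _ _ (h.d2 hx hu), e2 _ _ (h.d2 hx hu), e3, e3]
  rw [map_smul, map_add, map_add, map_add, map_smul, map_smul, real_smul, real_smul, real_smul]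
  change (fq f x : ℂ) * (pr j (dv (w1 J f) (dv (w1 J f) u) x) +
    pr j (dv (w2 J f) (dv (w2 J f) u) x) +
    ((bet (vK f) (va J f) (vb J f) x : ℝ) : ℂ) * pr j (dv (w1 J f) u x) +
    ((bet (vK f) (vc J f) (vd J f) x : ℝ) : ℂ) * pr j (dv (w2 J f) u x)) = _
  linear_combination (-(fq f x : ℂ)) * I * hb + ((fq f x : ℂ) * pr j (dv (w2 J f)
    (dv (w2 J f) u) x) + (fq f x : ℂ) * ((bet (vK f) (vc J f) (vd J f) x : ℝ) : ℂ) *
    pr j (dv (w2 J f) u x)) * I_mul_I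

end Pool.Agent.Lib.MP_3248c9_gt.Lag
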