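import Pool.Agent.Lib.MP_3248c9_gt.Lag.CommW

/-!
# The algebraic contradiction in the case `w ≠ conj w`
-/

set_option autoImplicit false

namespace Pool.Agent.Lib.MP_3248c9_gt.Lag

/-- `16 w b (3/4 h + b) (v₁ - i v₂) Q`. -/
noncomputable def pF (h w b : ℂ) : ℂ :=
    -126*h^4*w^2*b^2 + 324*h^4*w*b - 162*h^4 - 336*h^3*w^3*b^2 - 224*h^3*w^2*b^3 +
    396*h^3*w^2*b + 798*h^3*w*b^2 - 405*h^3*w - 531*h^3*b - 424*h^2*w^3*b^3 + 96*h^2*w^3*b +
    1768*h^2*w^2*b^2 - 162*h^2*w^2 + 584*h^2*w*b^3 - 1374*h^2*w*b - 516*h^2*b^2 - 576*h*w^4*b^3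
    + 192*h*w^4*b - 384*h*w^3*b^4 + 664*h*w^3*b^2 + 192*h*w^3 + 976*h*w^2*b^3 - 972*h*w^2*b +
    128*h*w*b^4 - 1484*h*w*b^2 - 80*h*b^3 - 192*w^4*b^4 - 224*w^4*b^2 + 96*w^4 + 1504*w^3*b^3 -
    112*w^3*b - 384*w^2*b^4 - 768*w^2*b^2 - 496*w*b^3 + 64*b^4

private theorem bezout_r (r : ℂ)
    (h3 : 7091200*r^3 + 35005984*r^2 + 59264404*r + 16457907 = 0)
    (h5 : 1095680*r^5 + 8607488*r^4 + 21917352*r^3 + 14441645*r^2 - 22082946*r - 8375814 = 0) :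
    False := by
  have h : (2222950065368319753843215503308664637622225 : ℂ) = 0 := by
    linear_combination (-622419026813850730640001239014891520*r^4
      - 4691542779946562493319541649662753792*r^3
      - 10955366048725723648079053015948792224*r^2
      - 4630338177865173690682464332384308052*r
      + 14248572913201019581958333918741373963) * h3 +
      (4028272673538239541758886523530956800*r^2
      + 18603743754462962918903888210398619776*r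
      + 27732079272869852748784287951748024144) * h5
  norm_num at h

private theorem alg_rm (r m : ℂ) (hr : 4*r + 3 ≠ 0) (hr2 : r + 2 ≠ 0)
    (S1 : 128*r^2*m - 304*r^2 + 344*r*m - 696*r + 480*m^2 + 156*m - 351 = 0)
    (T2 : -768*r^2*m^2 - 832*r^2*m - 112*r^2 - 3504*r*m^2 + 308*r*m + 1680*r + 1440*m^3
      - 960*m^2 + 930*m + 1323 = 0)
    (T3 : 384*r^2*m + 672*r^2 + 7680*r*m^2 + 11008*r*m + 5040*r + 18816*m^3 + 17600*m^2
      + 8544*m + 3402 = 0) : False := by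
  obtain ⟨A2, hA2⟩ : ∃ A2, A2 = (1536/5)*r^4 + (10176/5)*r^3 + 4086*r^2 + (24468/5)*r
    + (24471/10) := ⟨_, rfl⟩
  obtain ⟨B2, hB2⟩ : ∃ B2, B2 = -(3648/5)*r^4 - (22716/5)*r^3 - 8436*r^2 - (74151/20)*r
    + (11151/40) := ⟨_, rfl⟩
  obtain ⟨A3, hA3⟩ : ∃ A3, A3 = (100352/75)*r^4 + (385792/75)*r^3 + (1127176/75)*r^2
    + (2396024/75)*r + (464266/25) := ⟨_, rfl⟩
  obtain ⟨B3, hB3⟩ : ∃ B3, B3 = -(238336/75)*r^4 - (821392/75)*r^3 - (310528/75)*r^2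
    + (87241/5)*r + (590013/50) := ⟨_, rfl⟩
  have R2 : A2 * m + B2 = 0 := by
    rw [hA2, hB2]
    linear_combination T2 - (-(12/5)*r^2 - (189/20)*r + 3*m - (119/40)) * S1
  have R3 : A3 * m + B3 = 0 := by
    rw [hA3, hB3]
    linear_combination T3 - (-(784/75)*r^2 - (907/75)*r + (196/5)*m + (3589/150)) * S1
  have D : A2 * B3 - A3 * B2 = 0 := by
    linear_combination A2 * R3 - A3 * R2
  have N : 480*B2^2 - (128*r^2 + 344*r + 156)*A2*B2 - (304*r^2 + 696*r + 351)*A2^2 = 0 := by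
    linear_combination A2^2 * S1 - (480*(A2*m - B2) + (128*r^2 + 344*r + 156)*A2) * R2
  rw [hA2, hB2, hA3, hB3] at D
  rw [hA2, hB2] at N
  have hne : (4*r + 3)^2 * (r + 2) ≠ 0 := mul_ne_zero (pow_ne_zero 2 hr) hr2
  refine bezout_r r ?_ ?_
  · refine (mul_eq_zero.1 ?_).resolve_left hne
    linear_combination (25/2) * D
  · refine (mul_eq_zero.1 ?_).resolve_left hne
    linear_combination (5/72) * N

/-- The system `Q = 0`, `DQ = 0`, `R = 0` and their conjugates has no solution. -/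
theorem alg_final (h w b : ℂ) (hh : h ≠ 0) (hwb : w * b ≠ 0)
    (hpos : 12 * (w * b) + 7 * h ^ 2 ≠ 0) (hne : w ≠ b) (Q : pQ h w b = 0)
    (F : pF h w b = 0) (F' : pF h b w = 0) (R : pR h w b = 0) (R' : pR h b w = 0) : False := by
  have hd : w - b ≠ 0 := sub_ne_zero.2 hne
  obtain ⟨r, hr⟩ : ∃ r, r = (w + b) / h := ⟨_, rfl⟩
  obtain ⟨m, hm⟩ : ∃ m, m = w * b / h ^ 2 := ⟨_, rfl⟩
  obtain ⟨s, hs⟩ : ∃ s, s = w + b := ⟨_, rfl⟩
  obtain ⟨T, hT⟩ : ∃ T, T = w * b := ⟨_, rfl⟩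
  have hs' : s = r * h := by rw [hr, hs]; field_simp
  have hT' : T = m * h ^ 2 := by rw [hm, hT]; field_simp
  -- symmetric and antisymmetric parts
  have eV3 : -56*h^3*T^2 - 201*h^3*T + 63*h^3 - 244*h^2*s*T + 177*h^2*s + 32*h*s^2*T
      + 136*h*s^2 - 96*h*T^3 - 188*h*T^2 + 120*h*T + 16*s^3 + 80*s*T^2 + 160*s*T = 0 := by
    refine (mul_eq_zero.1 ?_).resolve_left hd
    rw [hs, hT]
    unfold pF at F F'
    linear_combination (1/2) * F - (1/2) * F'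
  have eU3 : -126*h^4*T^2 + 324*h^4*T - 162*h^4 - 280*h^3*s*T^2 + 597*h^3*s*T - 468*h^3*s
      + 340*h^2*s^2*T - 339*h^2*s^2 - 424*h^2*T^3 + 1088*h^2*T^2 - 696*h^2*T + 160*h*s^3*T
      + 56*h*s^3 - 480*h*s*T^3 + 340*h*s*T^2 - 1396*h*s*T + 80*s^4 - 304*s^2*T^2 - 624*s^2*T
      - 192*T^4 + 2112*T^3 = 0 := by
    rw [hs, hT]
    unfold pF at F F'
    linear_combination (1/2) * F + (1/2) * F'
  have eV : -84*h^4*T^2 + 63*h^4*T - 27*h^4 + 192*h^3*s*T - 153*h^3*s + 144*h^2*s^2*T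
      - 264*h^2*s^2 - 336*h^2*T^3 + 476*h^2*T^2 + 312*h^2*T - 144*h*s^3 + 1456*h*s*T^2
      + 392*h*s*T - 32*s^2*T + 1664*T^3 = 0 := by
    refine (mul_eq_zero.1 ?_).resolve_left hd
    rw [hs, hT]
    unfold pR at R R'
    linear_combination (1/2) * R - (1/2) * R'
  have eQ : (7 * T - 6) * h^2 - 11 * h * s + 12 * T^2 - 4 * s^2 = 0 := by
    rw [hs, hT]
    unfold pQ at Q
    linear_combination Q
  -- in the variables `r`, `m`, `T`
  have h3 : h ^ 3 ≠ 0 := pow_ne_zero 3 hh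
  have h4 : h ^ 4 ≠ 0 := pow_ne_zero 4 hh
  have h2 : h ^ 2 ≠ 0 := pow_ne_zero 2 hh
  have q0 : (12 * m + 7) * T - (4 * r + 3) * (r + 2) = 0 := by
    refine (mul_eq_zero.1 ?_).resolve_left h2
    rw [hs'] at eQ
    linear_combination eQ - 12 * T * hT'
  have v3 : 16*r^3 + 32*r^2*T + 136*r^2 + 80*r*m*T + 160*r*m - 244*r*T + 177*r - 96*m*T^2
      - 188*m*T + 120*m - 56*T^2 - 201*T + 63 = 0 := by
    refine (mul_eq_zero.1 ?_).resolve_left h3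
    rw [hs'] at eV3
    linear_combination eV3 + (96*h*T^2 + 188*h*T - 120*h - 80*r*h*T - 160*r*h) * hT'
  have u3 : 80*r^4 + 160*r^3*T + 56*r^3 - 304*r^2*m*T - 624*r^2*m + 340*r^2*T - 339*r^2
      - 480*r*m*T^2 + 340*r*m*T - 1396*r*m - 280*r*T^2 + 597*r*T - 468*r - 192*m^2*T^2
      + 2112*m^2*T - 424*m*T^2 + 1088*m*T - 696*m - 126*T^2 + 324*T - 162 = 0 := by
    refine (mul_eq_zero.1 ?_).resolve_left h4
    rw [hs'] at eU3
    linear_combination eU3 + (1396*h^2*r - 340*h^2*r*T + 480*h^2*r*T^2 + 624*h^2*r^2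
      + 304*h^2*r^2*T + 696*h^2 - 1088*h^2*T + 424*h^2*T^2 - 2112*T*(T + m*h^2)
      + 192*T^2*(T + m*h^2)) * hT'
  have v : -144*r^3 - 32*r^2*m + 144*r^2*T - 264*r^2 + 1456*r*m*T + 392*r*m + 192*r*T - 153*r
      + 1664*m^2*T - 336*m*T^2 + 476*m*T + 312*m - 84*T^2 + 63*T - 27 = 0 := by
    refine (mul_eq_zero.1 ?_).resolve_left h4
    rw [hs'] at eV
    linear_combination eV + (336*h^2*T^2 - 476*h^2*T - 312*h^2 - 1456*r*h^2*T - 392*r*h^2
      + 32*r^2*h^2 - 1664*T*(T + m*h^2)) * hT'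
  -- nonvanishing
  have hT0 : T ≠ 0 := by rw [hT]; exact hwb
  have hl7 : 12 * m + 7 ≠ 0 := by
    intro h0
    apply hpos
    rw [← hT]
    linear_combination h^2 * h0 + 12 * hT'
  have hk : (4 * r + 3) * (r + 2) ≠ 0 := by
    intro h0
    rw [h0, sub_zero] at q0
    exact (mul_ne_zero hl7 hT0) q0
  have hr3 : 4 * r + 3 ≠ 0 := left_ne_zero_of_mul hk
  have hr2 : r + 2 ≠ 0 := right_ne_zero_of_mul hk
  have S1 : 128*r^2*m - 304*r^2 + 344*r*m - 696*r + 480*m^2 + 156*m - 351 = 0 := by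
    refine (mul_eq_zero.1 ?_).resolve_left (mul_ne_zero hr3 hl7)
    linear_combination (12*m + 7)^2 * v3 - (960*r*m^2 - 3424*r*m - 2324*r - 1152*m^2*T - 2256*m^2
      - 1344*m*T - 4304*m - 392*T - 1743) * q0
  have T2 : -768*r^2*m^2 - 832*r^2*m - 112*r^2 - 3504*r*m^2 + 308*r*m + 1680*r + 1440*m^3
      - 960*m^2 + 930*m + 1323 = 0 := by
    refine (mul_eq_zero.1 ?_).resolve_left (mul_ne_zero hr3 hr2)
    linear_combination (1/2) * (12*m + 7)^2 * u3 - (1/2) * (-4416*r^2*m^2 - 5024*r^2*m - 1204*r^2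
      - 5760*r*m^2*T + 1968*r*m^2 - 6720*r*m*T + 2000*r*m - 1960*r*T + 1113*r - 2304*m^3*T
      + 25344*m^3 - 6432*m^2*T + 26688*m^2 - 4480*m*T + 8960*m - 882*T + 1512) * q0
      - (4 * r + 3) * (12*m + 7) * S1
  have T3 : 384*r^2*m + 672*r^2 + 7680*r*m^2 + 11008*r*m + 5040*r + 18816*m^3 + 17600*m^2
      + 8544*m + 3402 = 0 := by
    refine (mul_eq_zero.1 ?_).resolve_left (mul_ne_zero hr3 hr2)
    linear_combination (12*m + 7)^2 * v - (384*r^2*m + 672*r^2 + 17472*r*m^2 + 8800*r*m + 420*r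
      + 19968*m^3 - 4032*m^2*T + 17360*m^2 - 3360*m*T + 2072*m - 588*T - 63) * q0
      - 3 * (4 * r + 3) * (12*m + 7) * S1
  exact alg_rm r m hr3 hr2 S1 T2 T3

end Pool.Agent.Lib.MP_3248c9_gt.Lag
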