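import Pool.Agent.Lib.MP_3248c9_gt.Lag.CommH
import Pool.Agent.Lib.MP_3248c9_gt.Lag.FinalA

/-!
# The case `w ≠ conj w`
-/

set_option autoImplicit false

namespace Pool.Agent.Lib.MP_3248c9_gt.Lag

open Set Filter Topology Complex
open scoped ContDiff ComplexConjugate

variable {v₁ v₂ : E2 → E2} {h w x : E2 → ℂ} {p : E2} {V : Set E2}

private theorem alg_DQ (h w b Dh Dw Db : ℂ)
    (f2 : w * b * Dh = pC h w b)
    (f3 : b * (3/4 * h + b) * Dw = pG h w b)
    (f1' : w * Db = pB h b w)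
    (K : pQh h w b * Dh + pQw h w b * Dw + pQw h b w * Db = 0) : pF h w b = 0 := by
  obtain ⟨a', ha'⟩ : ∃ a', a' = 3/4 * h + b := ⟨_, rfl⟩
  rw [← ha'] at f3
  have R1 : pQh h w b * a' * pC h w b + pQw h w b * w * pG h w b +
      pQw h b w * (a' * b) * pB h b w = 0 := by
    linear_combination (w * b * a') * K - (pQh h w b * a') * f2 - (pQw h w b * w) * f3
      - (pQw h b w * (a' * b)) * f1'
  have R2 : pQh h w b * a' * pC h w b + pQw h w b * w * pG h w b +
      pQw h b w * (a' * b) * pB h b w = 1/16 * pF h w b := by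
    rw [ha']
    unfold pQh pQw pC pG pB pF
    ring
  rw [R1] at R2
  linear_combination (-16) * R2

theorem conj_pF (h w b : ℂ) : conj (pF h w b) = pF (conj h) (conj w) (conj b) := by
  simp only [pF, map_add, map_sub, map_mul, map_pow, map_neg, map_ofNat]

theorem conj_pR (h w b : ℂ) : conj (pR h w b) = pR (conj h) (conj w) (conj b) := by
  simp only [pR, map_add, map_sub, map_mul, map_pow, map_neg, map_ofNat]

theorem Sys.caseA (S : Sys V v₁ v₂ h w x) (hp : p ∈ V) (hh : h p ≠ 0)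
    (hne : w p ≠ cj w p) (hQ : ∀ y ∈ V, pQ (h y) (w y) (cj w y) = 0) : False := by
  have hH := HD.of (v₁ := v₁) (v₂ := v₂) (S.dh hp)
  have hW := HD.of (v₁ := v₁) (v₂ := v₂) (S.dw hp)
  have hB := HD.of (v₁ := v₁) (v₂ := v₂) (S.db hp)
  have K := HD.unique S.op hp hQ (hH.pQ hW hB) (HD.const 0)
  have hw : w p ≠ 0 := S.w_ne hp hh
  have hF := alg_DQ _ _ _ _ _ _ (S.f2 hp) (S.f3 hp) (S.f1' hp) K
  have hF' : pF (h p) (cj w p) (w p) = 0 := by
    have h1 := congrArg conj hF
    rw [conj_pF, map_zero, S.hre p hp] at h1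
    simpa only [cj, conj_conj] using h1
  have hR := S.commW hp
  have hR' : pR (h p) (cj w p) (w p) = 0 := by
    have h1 := congrArg conj hR
    rw [conj_pR, map_zero, S.hre p hp] at h1
    simpa only [cj, conj_conj] using h1
  refine alg_final (h p) (w p) (cj w p) hh (mul_ne_zero hw (Sys.cj_ne hw)) ?_ hne (hQ p hp)
    hF hF' hR hR'
  have h1 : w p * cj w p = ((normSq (w p) : ℝ) : ℂ) := by unfold cj; rw [mul_conj]
  have h2 : h p = ((h p).re : ℂ) := (conj_eq_iff_re.1 (S.hre p hp)).symm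
  rw [h1, h2]
  have h3 : (h p).re ≠ 0 := by
    intro h0
    apply hh
    rw [h2, h0]; simp
  have h4 : 0 < 12 * normSq (w p) + 7 * (h p).re ^ 2 := by
    have := normSq_nonneg (w p)
    positivity
  exact_mod_cast h4.ne'

end Pool.Agent.Lib.MP_3248c9_gt.Lag
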