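import Pool.Agent.Lib.MP_3248c9_gt.Lag.Poly

/-!
# The commutator relation for `h`
-/

set_option autoImplicit false

namespace Pool.Agent.Lib.MP_3248c9_gt.Lag

open Set Filter Topology Complex
open scoped ContDiff ComplexConjugate

private theorem alg_comm_h (h w b Dh Bh Dw Bw Db Bb X1 X2 : ℂ)
    (f2 : w * b * Dh = pC h w b) (f2' : w * b * Bh = pC h b w)
    (f3 : b * (3/4 * h + b) * Dw = pG h w b) (f3' : w * (3/4 * h + w) * Bb = pG h b w)
    (f1 : b * Bw = pB h w b) (f1' : w * Db = pB h b w)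
    (K1 : (Dw * b + w * Db) * Bh + (w * b) * X1 =
      pCh h b w * Dh + pCw h b w * Db + pCb h b w * Dw)
    (K2 : (Bw * b + w * Bb) * Dh + (w * b) * X2 =
      pCh h w b * Bh + pCw h w b * Bw + pCb h w b * Bb)
    (E4 : X1 - X2 = h / 2 * (Dh - Bh)) :
    w * b * (3/4 * h + w) * (3/4 * h + b) * ((w - b) * pQ h w b) = 0 := by
  obtain ⟨n, hn⟩ : ∃ n, n = w * b := ⟨_, rfl⟩
  obtain ⟨a, ha⟩ : ∃ a, a = 3/4 * h + w := ⟨_, rfl⟩
  obtain ⟨a', ha'⟩ : ∃ a', a' = 3/4 * h + b := ⟨_, rfl⟩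
  have key : (-(n ^ 2 * a * a')) * ((Dw * b + w * Db) * Bh + (w * b) * X1 -
      (pCh h b w * Dh + pCw h b w * Db + pCb h b w * Dw)) +
      n ^ 2 * a * a' * ((Bw * b + w * Bb) * Dh + (w * b) * X2 -
      (pCh h w b * Bh + pCw h w b * Bw + pCb h w b * Bb)) +
      n ^ 3 * a * a' * (X1 - X2 - h / 2 * (Dh - Bh)) = 0 := by
    rw [K1, K2, E4]; ring
  rw [← ha] at f3'
  rw [← ha'] at f3
  have R1 : a * (n * (pCh h b w * a' * pC h w b + pCb h b w * (w * pG h w b) +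
      pCw h b w * (a' * b * pB h b w)) - pC h b w * (b * (w * pG h w b) + w * (a' * b * pB h b w)))
      - a' * (n * (pCh h w b * a * pC h b w + pCb h w b * (b * pG h b w) +
      pCw h w b * (a * w * pB h w b)) - pC h w b * (w * (b * pG h b w) + b * (a * w * pB h w b)))
      - h / 2 * n ^ 2 * a * a' * (pC h w b - pC h b w) = 0 := by
    rw [hn] at *
    linear_combination key -
      (w * b * a * a' * pCh h b w) * f2 - (w * b * a * w * pCb h b w) * f3
      - (w * b * a * a' * b * pCw h b w) * f1'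
      + (a * w * b) * (b * a' * Dw) * f2' + (a * w * b) * pC h b w * f3
      + (w * b * a * a') * (w * Db) * f2' + (w * b * a * a') * pC h b w * f1'
      + (w * b * a * a' * pCh h w b) * f2' + (w * b * a * a' * w * pCw h w b) * f1
      + (w * b * a' * b * pCb h w b) * f3'
      - (w * b * a * a') * (b * Bw) * f2 - (w * b * a * a') * pC h w b * f1
      - (w * b * a') * (w * a * Bb) * f2 - (w * b * a') * pC h w b * f3'
      + ((w * b) ^ 2 * a * a' * h / 2) * f2 - ((w * b) ^ 2 * a * a' * h / 2) * f2'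
  have R2 : a * (n * (pCh h b w * a' * pC h w b + pCb h b w * (w * pG h w b) +
      pCw h b w * (a' * b * pB h b w)) - pC h b w * (b * (w * pG h w b) + w * (a' * b * pB h b w)))
      - a' * (n * (pCh h w b * a * pC h b w + pCb h w b * (b * pG h b w) +
      pCw h w b * (a * w * pB h w b)) - pC h w b * (w * (b * pG h b w) + b * (a * w * pB h w b)))
      - h / 2 * n ^ 2 * a * a' * (pC h w b - pC h b w) =
      3/8 * (w * b * a * a' * ((w - b) * pQ h w b)) := by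
    rw [hn, ha, ha']
    unfold pC pG pB pCh pCw pCb pQ
    ring
  rw [ha, ha'] at *
  rw [R1] at R2
  linear_combination (-8/3) * R2

variable {v₁ v₂ : E2 → E2} {h w x : E2 → ℂ} {p : E2} {V : Set E2}

theorem Sys.commH (S : Sys V v₁ v₂ h w x) (hp : p ∈ V) (hw : w p ≠ 0)
    (ha : 3/4 * h p + w p ≠ 0) : (w p - cj w p) * pQ (h p) (w p) (cj w p) = 0 := by
  have hw' : cj w p ≠ 0 := Sys.cj_ne hw
  have ha' : 3/4 * h p + cj w p ≠ 0 := by
    have h1 : conj (3/4 * h p + w p) ≠ 0 := (map_ne_zero (starRingEnd ℂ)).2 ha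
    simpa only [map_add, map_mul, S.hre p hp, map_div₀, map_ofNat, cj] using h1
  have hH := HD.of (v₁ := v₁) (v₂ := v₂) (S.dh hp)
  have hW := HD.of (v₁ := v₁) (v₂ := v₂) (S.dw hp)
  have hB := HD.of (v₁ := v₁) (v₂ := v₂) (S.db hp)
  have bH := HB.of (v₁ := v₁) (v₂ := v₂) (S.dh hp)
  have bW := HB.of (v₁ := v₁) (v₂ := v₂) (S.dw hp)
  have bB := HB.of (v₁ := v₁) (v₂ := v₂) (S.db hp)
  have s1 : DifferentiableAt ℝ (DB v₁ v₂ h) p := diffAt S.op (DB_smooth S.op S.sv₁ S.sv₂ S.sh) hp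
  have s2 : DifferentiableAt ℝ (DD v₁ v₂ h) p := diffAt S.op (DD_smooth S.op S.sv₁ S.sv₂ S.sh) hp
  have K1 := HD.unique S.op hp (fun y hy => S.f2' hy) ((hW.mul hB).mul (HD.of s1)) (hH.pC hB hW)
  have K2 := HB.unique S.op hp (fun y hy => S.f2 hy) ((bW.mul bB).mul (HB.of s2)) (bH.pC bW bB)
  have hc : ContDiffAt ℝ ∞ h p := S.sh.contDiffAt (S.op.mem_nhds hp)
  have E4 := S.e4 p hp h hc
  have := alg_comm_h (h p) (w p) (cj w p) _ _ _ _ _ _ _ _ (S.f2 hp) (S.f2' hp) (S.f3 hp)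
    (S.f3' hp) (S.f1 hp) (S.f1' hp) K1 K2 E4
  rcases mul_eq_zero.1 this with h1 | h1
  · exfalso
    exact (mul_ne_zero (mul_ne_zero (mul_ne_zero hw hw') ha) ha') h1
  · exact h1

end Pool.Agent.Lib.MP_3248c9_gt.Lag
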