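import Pool.Agent.Lib.MP_3248c9_gt.Lag.Poly

/-!
# The commutator relation for `w`
-/

set_option autoImplicit false

namespace Pool.Agent.Lib.MP_3248c9_gt.Lag

open Set Filter Topology Complex
open scoped ContDiff ComplexConjugate

/-- The integrability condition for `w`. -/
noncomputable def pR (h w b : ℂ) : ℂ :=
  -351*h^5*w*b - 81*h^5 + 168*h^4*w^2*b^3 - 1062*h^4*w^2*b - 1188*h^4*w*b^2 - 378*h^4*w
  - 324*h^4*b + 16*h^3*w^3*b^3 - 792*h^3*w^3*b - 3540*h^3*w^2*b^2 - 738*h^3*w^2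
  - 1176*h^3*w*b^3 - 666*h^3*w*b - 432*h^3*b^2 + 672*h^2*w^3*b^4 - 1768*h^2*w^3*b^2
  - 720*h^2*w^3 - 3008*h^2*w^2*b^3 - 420*h^2*w^2*b - 288*h^2*w*b^4 - 516*h^2*w*b^2
  - 192*h^2*b^3 + 64*h*w^4*b^4 + 1120*h*w^4*b^2 - 288*h*w^4 - 2176*h*w^3*b^3
  - 480*h*w^3*b - 1792*h*w^2*b^4 + 464*h*w^2*b^2 - 688*h*w*b^3 + 1664*w^4*b^3
  - 448*w^4*b - 1664*w^3*b^4 + 512*w^3*b^2 + 576*w^2*b^3 - 384*w*b^4

private theorem alg_comm_w (h w b Dh Bh Dw Bw Db Bb X3 X4 : ℂ)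
    (f2 : w * b * Dh = pC h w b) (f2' : w * b * Bh = pC h b w)
    (f3 : b * (3/4 * h + b) * Dw = pG h w b) (f3' : w * (3/4 * h + w) * Bb = pG h b w)
    (f1 : b * Bw = pB h w b) (f1' : w * Db = pB h b w)
    (K3 : Db * Bw + b * X3 = pBh h w b * Dh + pBw h w b * Dw + pBb h w b * Db)
    (K4 : (Bb * (3/4 * h + b) + b * (3/4 * Bh + Bb)) * Dw + b * (3/4 * h + b) * X4 =
      pGh h w b * Bh + pGw h w b * Bw + pGb h w b * Bb)
    (E4 : X3 - X4 = h / 2 * (Dw - Bw)) :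
    pR h w b = 0 := by
  obtain ⟨a, ha⟩ : ∃ a, a = 3/4 * h + w := ⟨_, rfl⟩
  obtain ⟨a', ha'⟩ : ∃ a', a' = 3/4 * h + b := ⟨_, rfl⟩
  rw [← ha] at f3'
  rw [← ha'] at f3 K4
  have R1 : a * a' * (pBh h w b * a' * pC h w b + pBw h w b * (w * pG h w b) +
      pBb h w b * (a' * b * pB h b w) - a' * pB h w b * pB h b w)
      - (a' * (pGh h w b * a * pC h b w + pGw h w b * a * w * pB h w b + pGb h w b * b * pG h b w)
        - pG h w b * (a' * pG h b w + 3/4 * a * pC h b w + b * pG h b w))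
      - h / 2 * (w * b * a * a') * (pG h w b - a' * pB h w b) = 0 := by
    linear_combination (w * b * a * b * a' ^ 2) * E4 - (w * b * a * a' ^ 2) * K3
      + (w * b * a * a') * K4 - (a * a' ^ 2 * pBh h w b) * f2 - (a * a' * w * pBw h w b) * f3
      - (a * a' ^ 2 * b * pBb h w b) * f1' + a * a' ^ 2 * (b * Bw) * f1'
      + a * a' ^ 2 * pB h b w * f1 + (a * a' * pGh h w b) * f2'
      + (a * a' * w * pGw h w b) * f1 + (a' * b * pGb h w b) * f3'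
      - a' * (b * a' * Dw) * f3' - a' * pG h b w * f3
      - 3/4 * a * (b * a' * Dw) * f2' - 3/4 * a * pC h b w * f3
      - b * (b * a' * Dw) * f3' - b * pG h b w * f3
      + h / 2 * (w * b * a * a') * f3 - h / 2 * (w * b * a * a' ^ 2) * f1
  have R2 : a * a' * (pBh h w b * a' * pC h w b + pBw h w b * (w * pG h w b) +
      pBb h w b * (a' * b * pB h b w) - a' * pB h w b * pB h b w)
      - (a' * (pGh h w b * a * pC h b w + pGw h w b * a * w * pB h w b + pGb h w b * b * pG h b w)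
        - pG h w b * (a' * pG h b w + 3/4 * a * pC h b w + b * pG h b w))
      - h / 2 * (w * b * a * a') * (pG h w b - a' * pB h w b) = 3/1024 * pR h w b := by
    rw [ha, ha']
    unfold pC pG pB pBh pBw pBb pGh pGw pGb pR
    ring
  rw [R1] at R2
  linear_combination (-1024/3) * R2

variable {v₁ v₂ : E2 → E2} {h w x : E2 → ℂ} {p : E2} {V : Set E2}

theorem Sys.commW (S : Sys V v₁ v₂ h w x) (hp : p ∈ V) : pR (h p) (w p) (cj w p) = 0 := by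
  have hH := HD.of (v₁ := v₁) (v₂ := v₂) (S.dh hp)
  have hW := HD.of (v₁ := v₁) (v₂ := v₂) (S.dw hp)
  have hB := HD.of (v₁ := v₁) (v₂ := v₂) (S.db hp)
  have bH := HB.of (v₁ := v₁) (v₂ := v₂) (S.dh hp)
  have bW := HB.of (v₁ := v₁) (v₂ := v₂) (S.dw hp)
  have bB := HB.of (v₁ := v₁) (v₂ := v₂) (S.db hp)
  have s1 : DifferentiableAt ℝ (DB v₁ v₂ w) p := diffAt S.op (DB_smooth S.op S.sv₁ S.sv₂ S.sw) hp
  have s2 : DifferentiableAt ℝ (DD v₁ v₂ w) p := diffAt S.op (DD_smooth S.op S.sv₁ S.sv₂ S.sw) hp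
  have K3 := HD.unique S.op hp (fun y hy => S.f1 hy) (hB.mul (HD.of s1)) (hH.pB hW hB)
  have K4 := HB.unique S.op hp (fun y hy => S.f3 hy)
    ((bB.mul ((bH.cmul (3/4)).add bB)).mul (HB.of s2)) (bH.pG bW bB)
  have hc : ContDiffAt ℝ ∞ w p := S.sw.contDiffAt (S.op.mem_nhds hp)
  have E4 := S.e4 p hp w hc
  exact alg_comm_w (h p) (w p) (cj w p) _ _ _ _ _ _ _ _ (S.f2 hp) (S.f2' hp) (S.f3 hp)
    (S.f3' hp) (S.f1 hp) (S.f1' hp) K3 K4 E4

end Pool.Agent.Lib.MP_3248c9_gt.Lag
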