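import Pool.Agent.Lib.MP_3248c9_gt.Lag.Ops

/-!
# Vector fields in coordinates
-/

set_option autoImplicit false

namespace Pool.Agent.Lib.MP_3248c9_gt.Lag

open Set Filter Topology
open scoped ContDiff

/-- The coordinate vectors. -/
noncomputable def ee (i : Fin 2) : E2 := EuclideanSpace.single i (1 : ℝ)

variable {F : Type*} [NormedAddCommGroup F] [NormedSpace ℝ F]

/-- The partial derivatives. -/
noncomputable def pe (i : Fin 2) (u : E2 → F) (p : E2) : F := fderiv ℝ u p (ee i)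

/-- The vector field with components `a`, `b`. -/
noncomputable def vf (a b : E2 → ℝ) (y : E2) : E2 := a y • ee 0 + b y • ee 1

variable {a b c d : E2 → ℝ} {u w : E2 → F} {p : E2} {V : Set E2}

theorem dv_vf (a b : E2 → ℝ) (u : E2 → F) (y : E2) :
    dv (vf a b) u y = a y • pe 0 u y + b y • pe 1 u y := by
  simp [dv, vf, pe, map_add, map_smul]

theorem pe_add (hu : DifferentiableAt ℝ u p) (hw : DifferentiableAt ℝ w p) (i : Fin 2) :
    pe i (fun y => u y + w y) p = pe i u p + pe i w p := by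
  have h : HasFDerivAt (fun y => u y + w y) _ p := hu.hasFDerivAt.add hw.hasFDerivAt
  unfold pe
  rw [h.fderiv]
  rfl

theorem pe_smul (ha : DifferentiableAt ℝ a p) (hu : DifferentiableAt ℝ u p) (i : Fin 2) :
    pe i (fun y => a y • u y) p = a p • pe i u p + pe i a p • u p := by
  have h : HasFDerivAt (fun y => a y • u y) _ p := ha.hasFDerivAt.smul hu.hasFDerivAt
  unfold pe
  rw [h.fderiv]
  simp

theorem pe_mul (ha : DifferentiableAt ℝ a p) (hb : DifferentiableAt ℝ b p) (i : Fin 2) :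
    pe i (fun y => a y * b y) p = a p * pe i b p + pe i a p * b p := by
  have := pe_smul ha hb i
  simpa only [smul_eq_mul] using this

theorem pe_congr {u' : E2 → F} (h : u =ᶠ[𝓝 p] u') (i : Fin 2) : pe i u p = pe i u' p := by
  unfold pe
  rw [h.fderiv_eq]

theorem pe_clm {F' : Type*} [NormedAddCommGroup F'] [NormedSpace ℝ F'] (L : F →L[ℝ] F')
    (hu : DifferentiableAt ℝ u p) (i : Fin 2) : pe i (fun y => L (u y)) p = L (pe i u p) := by
  have h : HasFDerivAt (fun y => L (u y)) _ p := L.hasFDerivAt.comp p hu.hasFDerivAt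
  unfold pe
  rw [h.fderiv]
  rfl

theorem pe_contDiffAt (hu : ContDiffAt ℝ ∞ u p) (i : Fin 2) : ContDiffAt ℝ ∞ (pe i u) p := by
  have h1 : ContDiffAt ℝ ∞ (fderiv ℝ u) p := hu.fderiv_right (by simp)
  exact h1.clm_apply contDiffAt_const

theorem pe_diff (hu : ContDiffAt ℝ ∞ u p) (i : Fin 2) : DifferentiableAt ℝ (pe i u) p :=
  (pe_contDiffAt hu i).differentiableAt (by simp)

theorem pe_comm (hu : ContDiffAt ℝ ∞ u p) : pe 1 (pe 0 u) p = pe 0 (pe 1 u) p := by
  have h1 : ContDiffAt ℝ ∞ (fderiv ℝ u) p := hu.fderiv_right (by simp)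
  have h2 : DifferentiableAt ℝ (fderiv ℝ u) p := h1.differentiableAt (by simp)
  have h3 : ∀ i j : Fin 2, pe i (pe j u) p = fderiv ℝ (fderiv ℝ u) p (ee i) (ee j) := by
    intro i j
    have h3 := h2.hasFDerivAt.clm_apply (hasFDerivAt_const (ee j) p)
    unfold pe
    rw [h3.fderiv]
    simp
  rw [h3, h3]
  have h4 : minSmoothness ℝ 2 ≤ ∞ := by
    rw [minSmoothness_of_isRCLikeNormedField]
    exact WithTop.coe_le_coe.mpr le_top
  exact (hu.isSymmSndFDerivAt h4).eq _ _

theorem dv_contDiffAt (ha : ContDiffAt ℝ ∞ a p) (hb : ContDiffAt ℝ ∞ b p)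
    (hu : ContDiffAt ℝ ∞ u p) : ContDiffAt ℝ ∞ (dv (vf a b) u) p := by
  have h : dv (vf a b) u = fun y => a y • pe 0 u y + b y • pe 1 u y := by
    funext y; exact dv_vf a b u y
  rw [h]
  exact (ha.smul (pe_contDiffAt hu 0)).add (hb.smul (pe_contDiffAt hu 1))

theorem pe_dv (ha : ContDiffAt ℝ ∞ a p) (hb : ContDiffAt ℝ ∞ b p)
    (hu : ContDiffAt ℝ ∞ u p) (i : Fin 2) : pe i (dv (vf a b) u) p =
      a p • pe i (pe 0 u) p + pe i a p • pe 0 u p + (b p • pe i (pe 1 u) p + pe i b p • pe 1 u p) := by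
  have h : dv (vf a b) u = fun y => a y • pe 0 u y + b y • pe 1 u y := by
    funext y; exact dv_vf a b u y
  have ha' := ha.differentiableAt (n := ∞) (by simp)
  have hb' := hb.differentiableAt (n := ∞) (by simp)
  have e1 : DifferentiableAt ℝ (fun y => a y • pe 0 u y) p := ha'.smul (pe_diff hu 0)
  have e2 : DifferentiableAt ℝ (fun y => b y • pe 1 u y) p := hb'.smul (pe_diff hu 1)
  rw [h, pe_add e1 e2, pe_smul ha' (pe_diff hu 0), pe_smul hb' (pe_diff hu 1)]

/-- The bracket relation, when `K (a d - b c) = 1`. -/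
theorem comm_vf {K : E2 → ℝ} (ha : ContDiffAt ℝ ∞ a p) (hb : ContDiffAt ℝ ∞ b p)
    (hc : ContDiffAt ℝ ∞ c p) (hd : ContDiffAt ℝ ∞ d p) (hK : ContDiffAt ℝ ∞ K p)
    (hD : ∀ᶠ y in 𝓝 p, K y * (a y * d y - b y * c y) = 1) (hu : ContDiffAt ℝ ∞ u p) :
    dv (vf a b) (dv (vf c d) u) p - dv (vf c d) (dv (vf a b) u) p =
      ((K p)⁻¹ * (c p * pe 0 K p + d p * pe 1 K p) + pe 0 c p + pe 1 d p) • dv (vf a b) u p -
      ((K p)⁻¹ * (a p * pe 0 K p + b p * pe 1 K p) + pe 0 a p + pe 1 b p) • dv (vf c d) u p := by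
  have ha' := ha.differentiableAt (n := ∞) (by simp)
  have hb' := hb.differentiableAt (n := ∞) (by simp)
  have hc' := hc.differentiableAt (n := ∞) (by simp)
  have hd' := hd.differentiableAt (n := ∞) (by simp)
  have hK' := hK.differentiableAt (n := ∞) (by simp)
  have h0 := hD.self_of_nhds
  have hK0 : K p ≠ 0 := left_ne_zero_of_mul (by rw [h0]; exact one_ne_zero)
  have hi : ∀ i : Fin 2, pe i K p * (a p * d p - b p * c p) + K p * (a p * pe i d p +
      pe i a p * d p - (b p * pe i c p + pe i b p * c p)) = 0 := by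
    intro i
    have h1 : (fun y => K y * (a y * d y + (-1) * (b y * c y))) =ᶠ[𝓝 p] fun _ => (1 : ℝ) := by
      filter_upwards [hD] with y hy
      linear_combination hy
    have h2 := pe_congr h1 i
    have h3 : pe i (fun _ : E2 => (1 : ℝ)) p = 0 := by simp [pe]
    have e1 : DifferentiableAt ℝ (fun y => a y * d y) p := ha'.mul hd'
    have e2 : DifferentiableAt ℝ (fun y => b y * c y) p := hb'.mul hc'
    have e3 : DifferentiableAt ℝ (fun _ : E2 => (-1 : ℝ)) p := differentiableAt_const _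
    have e4 : DifferentiableAt ℝ (fun y => (-1) * (b y * c y)) p := e3.mul e2
    have e5 : DifferentiableAt ℝ (fun y => a y * d y + (-1) * (b y * c y)) p := e1.add e4
    have h4 : pe i (fun _ : E2 => (-1 : ℝ)) p = 0 := by simp [pe]
    rw [pe_mul hK' e5, pe_add e1 e4, pe_mul e3 e2, pe_mul ha' hd', pe_mul hb' hc', h3, h4] at h2
    linear_combination h2
  have k0 := hi 0
  have k1 := hi 1
  have hDD : a p * d p - b p * c p = (K p)⁻¹ :=
     eq_inv_of_mul_eq_one_left (by linear_combination h0)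
  have m0 : (K p)⁻¹ * pe 0 K p = -K p * (a p * pe 0 d p +
      pe 0 a p * d p - (b p * pe 0 c p + pe 0 b p * c p)) := by
    rw [hDD] at k0; linear_combination k0
  have m1 : (K p)⁻¹ * pe 1 K p = -K p * (a p * pe 1 d p +
      pe 1 a p * d p - (b p * pe 1 c p + pe 1 b p * c p)) := by
    rw [hDD] at k1; linear_combination k1
  rw [dv_vf, dv_vf c d (dv (vf a b) u), pe_dv hc hd hu, pe_dv hc hd hu, pe_dv ha hb hu,
    pe_dv ha hb hu, dv_vf, dv_vf, pe_comm hu]
  have s0 : a p * pe 0 c p + b p * pe 1 c p - (c p * pe 0 a p + d p * pe 1 a p) =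
      ((K p)⁻¹ * (c p * pe 0 K p + d p * pe 1 K p) + pe 0 c p + pe 1 d p) * a p -
      ((K p)⁻¹ * (a p * pe 0 K p + b p * pe 1 K p) + pe 0 a p + pe 1 b p) * c p := by
    linear_combination (-(a p * c p) + a p * c p) * m0 + (-(a p * d p) + b p * c p) * m1 +
      (a p * pe 1 d p + pe 1 a p * d p - (b p * pe 1 c p + pe 1 b p * c p)) * h0
  have s1 : a p * pe 0 d p + b p * pe 1 d p - (c p * pe 0 b p + d p * pe 1 b p) =
      ((K p)⁻¹ * (c p * pe 0 K p + d p * pe 1 K p) + pe 0 c p + pe 1 d p) * b p -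
      ((K p)⁻¹ * (a p * pe 0 K p + b p * pe 1 K p) + pe 0 a p + pe 1 b p) * d p := by
    linear_combination (a p * d p - b p * c p) * m0 -
      (a p * pe 0 d p + pe 0 a p * d p - (b p * pe 0 c p + pe 0 b p * c p)) * h0
  have t : ∀ x y : F, (a p * pe 0 c p + b p * pe 1 c p - (c p * pe 0 a p + d p * pe 1 a p)) • x +
      (a p * pe 0 d p + b p * pe 1 d p - (c p * pe 0 b p + d p * pe 1 b p)) • y =
      (((K p)⁻¹ * (c p * pe 0 K p + d p * pe 1 K p) + pe 0 c p + pe 1 d p) * a p -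
      ((K p)⁻¹ * (a p * pe 0 K p + b p * pe 1 K p) + pe 0 a p + pe 1 b p) * c p) • x +
      (((K p)⁻¹ * (c p * pe 0 K p + d p * pe 1 K p) + pe 0 c p + pe 1 d p) * b p -
      ((K p)⁻¹ * (a p * pe 0 K p + b p * pe 1 K p) + pe 0 a p + pe 1 b p) * d p) • y := by
    intro x y; rw [s0, s1]
  have t' := t (pe 0 u p) (pe 1 u p)
  rw [← sub_eq_zero] at t' ⊢
  rw [← t']
  module

/-- The first coefficient of the bracket. -/
noncomputable def bet (K c d : E2 → ℝ) (p : E2) : ℝ :=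
  (K p)⁻¹ * (c p * pe 0 K p + d p * pe 1 K p) + pe 0 c p + pe 1 d p

theorem comm_vf' {K : E2 → ℝ} (ha : ContDiffAt ℝ ∞ a p) (hb : ContDiffAt ℝ ∞ b p)
    (hc : ContDiffAt ℝ ∞ c p) (hd : ContDiffAt ℝ ∞ d p) (hK : ContDiffAt ℝ ∞ K p)
    (hD : ∀ᶠ y in 𝓝 p, K y * (a y * d y - b y * c y) = 1) (hu : ContDiffAt ℝ ∞ u p) :
    dv (vf a b) (dv (vf c d) u) p - dv (vf c d) (dv (vf a b) u) p =
      bet K c d p • dv (vf a b) u p - bet K a b p • dv (vf c d) u p :=
  comm_vf ha hb hc hd hK hD hu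

/-- The divergence form in the frame. -/
theorem lap_vf {K A B C : E2 → ℝ} (ha : ContDiffAt ℝ ∞ a p) (hb : ContDiffAt ℝ ∞ b p)
    (hc : ContDiffAt ℝ ∞ c p) (hd : ContDiffAt ℝ ∞ d p) (hK : ContDiffAt ℝ ∞ K p)
    (hK0 : K p ≠ 0)
    (hA : ∀ᶠ y in 𝓝 p, A y = K y * (a y * a y + c y * c y))
    (hB : ∀ᶠ y in 𝓝 p, B y = K y * (a y * b y + c y * d y))
    (hC : ∀ᶠ y in 𝓝 p, C y = K y * (b y * b y + d y * d y)) (hu : ContDiffAt ℝ ∞ u p) :
    pe 0 (fun y => A y • pe 0 u y + B y • pe 1 u y) p +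
      pe 1 (fun y => B y • pe 0 u y + C y • pe 1 u y) p =
    K p • (dv (vf a b) (dv (vf a b) u) p + dv (vf c d) (dv (vf c d) u) p +
      bet K a b p • dv (vf a b) u p + bet K c d p • dv (vf c d) u p) := by
  have ha' := ha.differentiableAt (n := ∞) (by simp)
  have hb' := hb.differentiableAt (n := ∞) (by simp)
  have hc' := hc.differentiableAt (n := ∞) (by simp)
  have hd' := hd.differentiableAt (n := ∞) (by simp)
  have hK' := hK.differentiableAt (n := ∞) (by simp)
  have d1 : DifferentiableAt ℝ (dv (vf a b) u) p :=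
    (dv_contDiffAt ha hb hu).differentiableAt (by simp)
  have d2 : DifferentiableAt ℝ (dv (vf c d) u) p :=
    (dv_contDiffAt hc hd hu).differentiableAt (by simp)
  have e0 : (fun y => A y • pe 0 u y + B y • pe 1 u y) =ᶠ[𝓝 p]
      fun y => (K y * a y) • dv (vf a b) u y + (K y * c y) • dv (vf c d) u y := by
    filter_upwards [hA, hB] with y h1 h2
    rw [h1, h2, dv_vf, dv_vf]
    module
  have e1 : (fun y => B y • pe 0 u y + C y • pe 1 u y) =ᶠ[𝓝 p]
      fun y => (K y * b y) • dv (vf a b) u y + (K y * d y) • dv (vf c d) u y := by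
    filter_upwards [hB, hC] with y h1 h2
    rw [h1, h2, dv_vf, dv_vf]
    module
  have f1 : DifferentiableAt ℝ (fun y => K y * a y) p := hK'.mul ha'
  have f2 : DifferentiableAt ℝ (fun y => K y * b y) p := hK'.mul hb'
  have f3 : DifferentiableAt ℝ (fun y => K y * c y) p := hK'.mul hc'
  have f4 : DifferentiableAt ℝ (fun y => K y * d y) p := hK'.mul hd'
  have g1 : DifferentiableAt ℝ (fun y => (K y * a y) • dv (vf a b) u y) p := f1.smul d1
  have g2 : DifferentiableAt ℝ (fun y => (K y * b y) • dv (vf a b) u y) p := f2.smul d1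
  have g3 : DifferentiableAt ℝ (fun y => (K y * c y) • dv (vf c d) u y) p := f3.smul d2
  have g4 : DifferentiableAt ℝ (fun y => (K y * d y) • dv (vf c d) u y) p := f4.smul d2
  rw [pe_congr e0, pe_congr e1, pe_add g1 g3, pe_add g2 g4, pe_smul f1 d1, pe_smul f3 d2,
    pe_smul f2 d1, pe_smul f4 d2, pe_mul hK' ha', pe_mul hK' hb', pe_mul hK' hc', pe_mul hK' hd',
    dv_vf a b (dv (vf a b) u), dv_vf c d (dv (vf c d) u)]
  have hi : K p * (K p)⁻¹ = 1 := mul_inv_cancel₀ hK0
  have s1 : K p * bet K a b p = a p * pe 0 K p + b p * pe 1 K p + K p * (pe 0 a p + pe 1 b p) := by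
    unfold bet
    linear_combination (a p * pe 0 K p + b p * pe 1 K p) * hi
  have s2 : K p * bet K c d p = c p * pe 0 K p + d p * pe 1 K p + K p * (pe 0 c p + pe 1 d p) := by
    unfold bet
    linear_combination (c p * pe 0 K p + d p * pe 1 K p) * hi
  rw [smul_add, smul_add, smul_smul, smul_smul, s1, s2]
  module

end Pool.Agent.Lib.MP_3248c9_gt.Lag
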