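import Pool.Agent.Lib.MP_3248c9_gt.Lag.Ops

/-!
# First-order consequences
-/

set_option autoImplicit false

namespace Pool.Agent.Lib.MP_3248c9_gt.Lag

open Set Filter Topology Complex
open scoped ContDiff ComplexConjugate

/-- `w b (v₁ - i v₂) h`, where `b` is the conjugate of `w`. -/
noncomputable def pC (h w b : ℂ) : ℂ :=
  -1/2 * h ^ 2 * w * b + 9/8 * h ^ 2 - h * w ^ 2 * b + 3/4 * h * w + 3/2 * h * b - w ^ 2 + 3 * w * b

/-- `b (v₁ + i v₂) w`. -/
noncomputable def pB (h w b : ℂ) : ℂ := 3/4 * b - 3/8 * h - w / 2 - h * w * b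

/-- `b (3/4 h + b) (v₁ - i v₂) w`. -/
noncomputable def pG (h w b : ℂ) : ℂ :=
  3/8 * h ^ 2 * w * b + 27/32 * h ^ 2 - 3/2 * h * w ^ 2 * b + 9/16 * h * w + 3/4 * h * b
    - 1/2 * w ^ 2 * b ^ 2 - 3/4 * w ^ 2 + 3 * w * b - 1/2 * b ^ 2

variable {v₁ v₂ : E2 → E2} {h w x : E2 → ℂ} {p : E2} {V : Set E2}

/-- The conjugate of `w`. -/
noncomputable def cj (w : E2 → ℂ) (y : E2) : ℂ := conj (w y)

theorem Sys.dh (S : Sys V v₁ v₂ h w x) (hp : p ∈ V) : DifferentiableAt ℝ h p := diffAt S.op S.sh hp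
theorem Sys.dw (S : Sys V v₁ v₂ h w x) (hp : p ∈ V) : DifferentiableAt ℝ w p := diffAt S.op S.sw hp
theorem Sys.dx (S : Sys V v₁ v₂ h w x) (hp : p ∈ V) : DifferentiableAt ℝ x p := diffAt S.op S.sx hp
theorem Sys.sb (S : Sys V v₁ v₂ h w x) : ContDiffOn ℝ ∞ (cj w) V := conj_smooth S.sw
theorem Sys.db (S : Sys V v₁ v₂ h w x) (hp : p ∈ V) : DifferentiableAt ℝ (cj w) p :=
  diffAt S.op S.sb hp

theorem Sys.DD_b (S : Sys V v₁ v₂ h w x) (hp : p ∈ V) :
    DD v₁ v₂ (cj w) p = conj (DB v₁ v₂ w p) := (HB.of (S.dw hp)).conj.2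

theorem Sys.DB_b (S : Sys V v₁ v₂ h w x) (hp : p ∈ V) :
    DB v₁ v₂ (cj w) p = conj (DD v₁ v₂ w p) := (HD.of (S.dw hp)).conj.2

theorem Sys.DB_h (S : Sys V v₁ v₂ h w x) (hp : p ∈ V) :
    DB v₁ v₂ h p = conj (DD v₁ v₂ h p) := by
  have h1 := (HD.of (v₁ := v₁) (v₂ := v₂) (S.dh hp)).conj
  exact (h1.congr S.op hp S.hre).2

theorem Sys.f0 (S : Sys V v₁ v₂ h w x) (hp : p ∈ V) :
    x p * cj w p + (3/4 * h p + w p) = 0 := by
  have := S.e0 p hp
  unfold cj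
  linear_combination this

theorem Sys.f0' (S : Sys V v₁ v₂ h w x) (hp : p ∈ V) :
    conj (x p) * w p + (3/4 * h p + cj w p) = 0 := by
  have := congrArg conj (S.f0 hp)
  simp only [map_add, map_mul, cj, conj_conj, S.hre p hp, map_zero, map_div₀, map_ofNat] at this
  unfold cj
  linear_combination this

theorem Sys.f1 (S : Sys V v₁ v₂ h w x) (hp : p ∈ V) :
    cj w p * DB v₁ v₂ w p = pB (h p) (w p) (cj w p) := by
  rw [S.e1 p hp]
  unfold pB
  linear_combination (1/2) * S.f0 hp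

theorem Sys.f1' (S : Sys V v₁ v₂ h w x) (hp : p ∈ V) :
    w p * DD v₁ v₂ (cj w) p = pB (h p) (cj w p) (w p) := by
  rw [S.DD_b hp, S.e1 p hp]
  unfold pB
  simp only [map_add, map_mul, map_sub, S.hre p hp, map_div₀, map_ofNat]
  have := S.f0' hp
  unfold cj at *
  linear_combination (1/2) * this

theorem Sys.f2 (S : Sys V v₁ v₂ h w x) (hp : p ∈ V) :
    w p * cj w p * DD v₁ v₂ h p = pC (h p) (w p) (cj w p) := by
  rw [S.e2 p hp]
  unfold pC
  linear_combination (w p + 2 * conj (x p) * w p) * S.f0 hp - 2 * (3/4 * h p + w p) * S.f0' hp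

theorem Sys.f2' (S : Sys V v₁ v₂ h w x) (hp : p ∈ V) :
    w p * cj w p * DB v₁ v₂ h p = pC (h p) (cj w p) (w p) := by
  have h1 := congrArg conj (S.f2 hp)
  rw [S.DB_h hp]
  simp only [pC, cj, map_add, map_mul, map_sub, map_pow, map_neg, conj_conj, S.hre p hp, map_div₀,
    map_ofNat, map_one] at h1 ⊢
  linear_combination h1

/-- The derivative of the first relation. -/
theorem Sys.f3 (S : Sys V v₁ v₂ h w x) (hp : p ∈ V) :
    cj w p * (3/4 * h p + cj w p) * DD v₁ v₂ w p = pG (h p) (w p) (cj w p) := by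
  have hx := (HB.of (v₁ := v₁) (v₂ := v₂) (S.dx hp)).conj
  have hb := HD.of (v₁ := v₁) (v₂ := v₂) (S.db hp)
  have hw := HD.of (v₁ := v₁) (v₂ := v₂) (S.dw hp)
  have hh := HD.of (v₁ := v₁) (v₂ := v₂) (S.dh hp)
  have k := HD.unique S.op hp (fun y hy => S.f0' hy) ((hx.mul hw).add ((hh.cmul (3/4)).add hb))
    (HD.const 0)
  have h2 := S.f2 hp
  have h1 := S.f1' hp
  rw [S.e3 p hp] at k
  simp only [map_mul, map_sub, map_neg, S.hre p hp, map_div₀, map_ofNat] at k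
  have h0 := S.f0' hp
  have hcj : conj (w p) = cj w p := rfl
  rw [hcj] at k
  unfold pC at h2
  unfold pB at h1
  unfold pG
  linear_combination (-(w p * cj w p)) * k +
    (cj w p * DD v₁ v₂ w p - w p * cj w p * h p) * h0 + (3/4) * h2 + cj w p * h1

theorem Sys.f3' (S : Sys V v₁ v₂ h w x) (hp : p ∈ V) :
    w p * (3/4 * h p + w p) * DB v₁ v₂ (cj w) p = pG (h p) (cj w p) (w p) := by
  have h1 := congrArg conj (S.f3 hp)
  rw [S.DB_b hp]
  simp only [pG, cj, map_add, map_mul, map_sub, map_pow, conj_conj, S.hre p hp, map_div₀,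
    map_ofNat, map_one] at h1 ⊢
  linear_combination h1

/-- `h` does not vanish identically. -/
theorem Sys.exists_h (S : Sys V v₁ v₂ h w x) (hV : V.Nonempty) : ∃ p ∈ V, h p ≠ 0 := by
  by_contra hcon
  push Not at hcon
  obtain ⟨p, hp⟩ := hV
  have h1 : DD v₁ v₂ h p = 0 :=
    HD.unique S.op hp (fun y hy => hcon y hy) (HD.of (S.dh hp)) (HD.const 0)
  rw [S.e2 p hp, hcon p hp] at h1
  have h2 : 2 * x p * conj (x p) = ((2 * normSq (x p) : ℝ) : ℂ) := by
    rw [mul_assoc, mul_conj]; push_cast; rfl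
  rw [h2] at h1
  have h3 := congrArg Complex.re h1
  simp at h3
  have h4 : normSq (x p) = (x p).re * (x p).re + (x p).im * (x p).im := normSq_apply _
  rw [h4] at h3
  nlinarith [sq_nonneg ((x p).re + 1/4), sq_nonneg (x p).im]

theorem Sys.w_ne (S : Sys V v₁ v₂ h w x) (hp : p ∈ V) (hh : h p ≠ 0) : w p ≠ 0 := by
  intro hw
  have h0 := S.f0 hp
  have h1 : cj w p = 0 := by unfold cj; rw [hw]; simp
  rw [hw, h1] at h0
  apply hh
  linear_combination (4/3) * h0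

theorem Sys.cj_ne (hw : w p ≠ 0) : cj w p ≠ 0 := by
  unfold cj
  simpa using hw

theorem Sys.exists_a (S : Sys V v₁ v₂ h w x) (hV : V.Nonempty) (hh : ∀ p ∈ V, h p ≠ 0) :
    ∃ p ∈ V, 3/4 * h p + w p ≠ 0 := by
  by_contra hcon
  push Not at hcon
  obtain ⟨p, hp⟩ := hV
  have hx : ∀ y ∈ V, x y = 0 := by
    intro y hy
    have h0 := S.f0 hy
    rw [hcon y hy, add_zero] at h0
    rcases mul_eq_zero.1 h0 with h1 | h1
    · exact h1
    · exact absurd h1 (Sys.cj_ne (S.w_ne hy (hh y hy)))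
  have h1 : DB v₁ v₂ x p = 0 :=
    HB.unique S.op hp (fun y hy => hx y hy) (HB.of (S.dx hp)) (HB.const 0)
  rw [S.e3 p hp, hx p hp] at h1
  have h2 := hcon p hp
  have h3 : w p = 0 := by linear_combination (2 : ℂ) * h1 + 2 * h2
  exact S.w_ne hp (hh p hp) h3

end Pool.Agent.Lib.MP_3248c9_gt.Lag
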