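import Pool.Agent.Lib.MP_3248c9_gt.Lag.Vec

/-!
# The complex frame of a biharmonic Lagrangian surface
-/

set_option autoImplicit false

namespace Pool.Agent.Lib.MP_3248c9_gt.Lag

open Set Filter Topology Complex
open scoped ContDiff ComplexConjugate

/-- The complex frame `Z = ξ₁ - i ξ₂`, where `ξ₁`, `ξ₂` are the derivatives of the immersion along
`v₁`, `v₂`; `q` is the square of the length of the mean curvature vector and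
`ρ = γ - i β` with `[v₁, v₂] = β v₁ + γ v₂`. -/
structure Fr (V : Set E2) (v₁ v₂ : E2 → E2) (J : C4 →ₗ[ℂ] C4) (q ρ : E2 → ℂ) (Z : E2 → C4) :
    Prop where
  op : IsOpen V
  sv₁ : ContDiffOn ℝ ∞ v₁ V
  sv₂ : ContDiffOn ℝ ∞ v₂ V
  sq : ContDiffOn ℝ ∞ q V
  sρ : ContDiffOn ℝ ∞ ρ V
  sZ : ∀ j, ContDiffOn ℝ ∞ (fun y => Z y j) V
  q0 : ∀ p ∈ V, q p ≠ 0
  qre : ∀ p ∈ V, conj (q p) = q p
  comm : ∀ p ∈ V, ∀ u : E2 → ℂ, ContDiffAt ℝ ∞ u p →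
    DD v₁ v₂ (DB v₁ v₂ u) p - DB v₁ v₂ (DD v₁ v₂ u) p =
      -ρ p * DD v₁ v₂ u p + conj (ρ p) * DB v₁ v₂ u p
  zz : ∀ p ∈ V, dot (Z p) (Z p) = 0
  zc : ∀ p ∈ V, q p * dot (Z p) (cv (Z p)) = 2
  lag : ∀ p ∈ V, dot (Z p) (J (cv (Z p))) = 0
  Jcv : ∀ a, J (cv a) = cv (J a)
  Jiso : ∀ a b, dot (J a) (J b) = dot a b
  Jsq : ∀ a, J (J a) = -a
  ind : ∀ p ∈ V, ∀ a, dot a (Z p) = 0 → dot a (cv (Z p)) = 0 → dot a (J (Z p)) = 0 →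
    dot a (J (cv (Z p))) = 0 → a = 0
  st : ∀ p ∈ V, DBv v₁ v₂ Z p = ρ p • Z p + (1/2 : ℂ) • J (Z p + cv (Z p))
  bih : ∀ p ∈ V, DDv v₁ v₂ (DBv v₁ v₂ (fun y => q y • (Z y + cv (Z y)))) p -
    conj (ρ p) • DBv v₁ v₂ (fun y => q y • (Z y + cv (Z y))) p = 0

variable {V : Set E2} {v₁ v₂ : E2 → E2} {J : C4 →ₗ[ℂ] C4} {q ρ : E2 → ℂ} {Z : E2 → C4} {p : E2}

/-- The function `w`. -/
noncomputable def fw (v₁ v₂ : E2 → E2) (q : E2 → ℂ) (Z : E2 → C4) (p : E2) : ℂ :=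
  -(q p / 2) * dot (DDv v₁ v₂ Z p) (cv (Z p))

/-- The function `x`. -/
noncomputable def fx (v₁ v₂ : E2 → E2) (J : C4 →ₗ[ℂ] C4) (q : E2 → ℂ) (Z : E2 → C4) (p : E2) : ℂ :=
  (q p / 2) * dot (DDv v₁ v₂ Z p) (J (Z p))

theorem Fr.J_skew (S : Fr V v₁ v₂ J q ρ Z) (a b : C4) : dot (J a) b = -dot a (J b) := by
  rw [← S.Jiso (J a) b, S.Jsq, dot_neg_left]

theorem Fr.J_self (S : Fr V v₁ v₂ J q ρ Z) (a : C4) : dot (J a) a = 0 := by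
  have h := S.J_skew a a
  rw [dot_comm a (J a)] at h
  linear_combination (1/2) * h

theorem Fr.J_self' (S : Fr V v₁ v₂ J q ρ Z) (a : C4) : dot a (J a) = 0 := by
  rw [dot_comm]; exact S.J_self a

/-- All products of the frame vectors. -/
theorem Fr.cc (S : Fr V v₁ v₂ J q ρ Z) (hp : p ∈ V) : dot (cv (Z p)) (cv (Z p)) = 0 := by
  rw [dot_cv, S.zz p hp, map_zero]

theorem Fr.zc' (S : Fr V v₁ v₂ J q ρ Z) (hp : p ∈ V) : dot (Z p) (cv (Z p)) = 2 / q p := by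
  rw [eq_div_iff (S.q0 p hp), mul_comm]; exact S.zc p hp

theorem Fr.cz' (S : Fr V v₁ v₂ J q ρ Z) (hp : p ∈ V) : dot (cv (Z p)) (Z p) = 2 / q p := by
  rw [dot_comm]; exact S.zc' hp

theorem Fr.zJc (S : Fr V v₁ v₂ J q ρ Z) (hp : p ∈ V) : dot (Z p) (J (cv (Z p))) = 0 := S.lag p hp

theorem Fr.cJz (S : Fr V v₁ v₂ J q ρ Z) (hp : p ∈ V) : dot (cv (Z p)) (J (Z p)) = 0 := by
  have h := S.J_skew (cv (Z p)) (Z p)
  rw [dot_comm (J (cv (Z p))) (Z p), S.zJc hp] at h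
  linear_combination h

theorem Fr.dZ (S : Fr V v₁ v₂ J q ρ Z) (hp : p ∈ V) : HDv v₁ v₂ Z p (DDv v₁ v₂ Z p) :=
  HDv.of fun j => diffAt S.op (S.sZ j) hp

theorem Fr.bZ (S : Fr V v₁ v₂ J q ρ Z) (hp : p ∈ V) :
    HBv v₁ v₂ Z p (ρ p • Z p + (1/2 : ℂ) • J (Z p + cv (Z p))) :=
  (HBv.of fun j => diffAt S.op (S.sZ j) hp).congr_val (S.st p hp)

/-- The derivative of the conjugate frame. -/
theorem Fr.dc (S : Fr V v₁ v₂ J q ρ Z) (hp : p ∈ V) :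
    HDv v₁ v₂ (fun y => cv (Z y)) p
      (conj (ρ p) • cv (Z p) + (1/2 : ℂ) • J (Z p + cv (Z p))) := by
  refine (S.bZ hp).cv.congr_val ?_
  have h2 : conj (1 / 2 : ℂ) = 1 / 2 := by rw [map_div₀, map_one, map_ofNat]
  rw [cv_add, cv_smul, cv_smul, ← S.Jcv, cv_add, cv_cv, add_comm (cv (Z p)) (Z p), h2]

theorem Fr.dz_z (S : Fr V v₁ v₂ J q ρ Z) (hp : p ∈ V) : dot (DDv v₁ v₂ Z p) (Z p) = 0 := by
  have h := HD.unique S.op hp (fun y hy => S.zz y hy) ((S.dZ hp).dot (S.dZ hp)) (HD.const 0)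
  rw [dot_comm (Z p) (DDv v₁ v₂ Z p)] at h
  linear_combination (1/2) * h

theorem Fr.dz_c (S : Fr V v₁ v₂ J q ρ Z) (hp : p ∈ V) :
    dot (DDv v₁ v₂ Z p) (cv (Z p)) = -(2 / q p) * fw v₁ v₂ q Z p := by
  unfold fw
  have := S.q0 p hp
  field_simp

theorem Fr.dz_Jz (S : Fr V v₁ v₂ J q ρ Z) (hp : p ∈ V) :
    dot (DDv v₁ v₂ Z p) (J (Z p)) = (2 / q p) * fx v₁ v₂ J q Z p := by
  unfold fx
  have := S.q0 p hp
  field_simp

theorem Fr.dz_Jc (S : Fr V v₁ v₂ J q ρ Z) (hp : p ∈ V) :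
    dot (DDv v₁ v₂ Z p) (J (cv (Z p))) = 1 / q p := by
  have h := HD.unique S.op hp (fun y hy => S.lag y hy) ((S.dZ hp).dot ((S.dc hp).lin J))
    (HD.const 0)
  rw [map_add, map_smul, map_smul, S.Jsq, dot_add_right, dot_smul_right, dot_smul_right,
    dot_neg_right, dot_add_right, S.zJc hp, S.zz p hp, S.zc' hp] at h
  linear_combination h

/-- The expansion of the derivative of the frame. -/
theorem Fr.dZ_eq (S : Fr V v₁ v₂ J q ρ Z) (hp : p ∈ V) :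
    DDv v₁ v₂ Z p = -(fw v₁ v₂ q Z p) • Z p + (1/2 : ℂ) • J (Z p) +
      fx v₁ v₂ J q Z p • J (cv (Z p)) := by
  have hq := S.q0 p hp
  rw [← sub_eq_zero]
  refine S.ind p hp _ ?_ ?_ ?_ ?_
  · simp only [dot_sub_left, dot_add_left, dot_smul_left]
    rw [S.dz_z hp, S.zz p hp, S.J_self, S.J_skew, dot_comm (cv (Z p)) (J (Z p)), S.J_skew,
      S.zJc hp]
    ring
  · simp only [dot_sub_left, dot_add_left, dot_smul_left]
    rw [S.dz_c hp, S.zc' hp, S.J_self, S.J_skew, S.zJc hp]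
    ring
  · simp only [dot_sub_left, dot_add_left, dot_smul_left]
    rw [S.dz_Jz hp, S.Jiso, S.Jiso, S.zz p hp, S.cz' hp, S.J_self']
    ring
  · simp only [dot_sub_left, dot_add_left, dot_smul_left]
    rw [S.dz_Jc hp, S.Jiso, S.Jiso, S.zc' hp, S.cc hp, S.zJc hp]
    ring

end Pool.Agent.Lib.MP_3248c9_gt.Lag
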