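import Pool.Agent.Lib.MP_3248c9_gt.Lag.Assemble

/-!
# Biharmonic Lagrangian surfaces are minimal
-/

set_option autoImplicit false

namespace Pool.Agent.Lib.MP_3248c9_gt.Lag

open Set Filter Topology Complex
open scoped ContDiff ComplexConjugate
open Pool.Agent.Helix (pd inducedMetric laplaceBeltrami gE gF gG gW)

variable {J : E4 →L[ℝ] E4} {U : Set E2} {f : E2 → E4} {x : E2}

/-- The complex frame. -/
noncomputable def vZ (J : E4 →L[ℝ] E4) (f : E2 → E4) (y : E2) : C4 :=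
  cx (x1 J f y) + (-I) • cx (x2 J f y)

theorem cv_vZ (J : E4 →L[ℝ] E4) (f : E2 → E4) (y : E2) :
    cv (vZ J f y) = cx (x1 J f y) + I • cx (x2 J f y) := by
  unfold vZ
  rw [cv_add, cv_smul, cv_cx, cv_cx, map_neg, conj_I, neg_neg]

theorem LagS.x11' (h : LagS J U f) (hx : x ∈ vV U f) :
    (fq f x : ℂ) * ((inner ℝ (x1 J f x) (x1 J f x) : ℝ) : ℂ) = 1 := by
  exact_mod_cast h.x11 hx.1 hx.2

theorem LagS.x22' (h : LagS J U f) (hx : x ∈ vV U f) :
    (fq f x : ℂ) * ((inner ℝ (x2 J f x) (x2 J f x) : ℝ) : ℂ) = 1 := by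
  exact_mod_cast h.x22 hx.1 hx.2

theorem LagS.q_ne (hx : x ∈ vV U f) : (fq f x : ℂ) ≠ 0 := by
  exact_mod_cast (fq_pos hx.2).ne'

theorem LagS.Z_DD (h : LagS J U f) (hx : x ∈ U) (j : Fin 4) :
    vZ J f x j = DD (w1 J f) (w2 J f) (fun y => pr j (f y)) x := by
  have df : DifferentiableAt ℝ f x := (h.im.at hx).differentiableAt (by simp)
  unfold DD
  rw [dv_pr _ df, dv_pr _ df]
  simp only [vZ, Lag.cx, Pi.add_apply, Pi.smul_apply, smul_eq_mul, pr_apply]
  unfold x1 x2 w1 w2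
  ring

theorem LagS.eta_eq (h : LagS J U f) (hx : x ∈ vV U f) :
    Lag.cx (eta f x) = (fq f x : ℂ) • Jc J (Lag.cx (x1 J f x)) := by
  have h1 := congrArg J (h.x1_eq hx.1 hx.2)
  unfold fX at h1
  rw [map_smul, map_neg, h.cx.sq, neg_neg] at h1
  rw [Jc_cx, ← cx_smul, h1]

theorem LagS.qZ_eq (h : LagS J U f) (hx : x ∈ vV U f) :
    (fq f x : ℂ) • (vZ J f x + cv (vZ J f x)) = (-2 : ℂ) • Jc J (Lag.cx (eta f x)) := by
  have h1 := h.x1_eq hx.1 hx.2
  have h2 : Lag.cx (fX J f x) = -(Jc J (Lag.cx (eta f x))) := by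
    unfold fX
    rw [cx_neg, Jc_cx]
  rw [cv_vZ]
  have h3 : (fq f x : ℂ) • Lag.cx (x1 J f x) = Lag.cx (fX J f x) := by rw [← cx_smul, h1]
  have h4 : (fq f x : ℂ) • (vZ J f x + (Lag.cx (x1 J f x) + I • Lag.cx (x2 J f x))) =
      (2 : ℂ) • ((fq f x : ℂ) • Lag.cx (x1 J f x)) := by
    unfold vZ
    module
  rw [h4, h3, h2]
  module

theorem DB_congr {V : Set E2} {v₁ v₂ : E2 → E2} {u u' : E2 → ℂ} (hV : IsOpen V) (hp : x ∈ V)
    (e : ∀ y ∈ V, u y = u' y) : DB v₁ v₂ u x = DB v₁ v₂ u' x := by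
  have h1 : u =ᶠ[𝓝 x] u' := by
    filter_upwards [hV.mem_nhds hp] with y hy
    exact e y hy
  simp only [DB, dv, h1.fderiv_eq]

/-- The structure equation. -/
theorem LagS.struct (h : LagS J U f) (hx : x ∈ vV U f) :
    DBv (w1 J f) (w2 J f) (vZ J f) x =
      rh J f x • vZ J f x + (1/2 : ℂ) • Jc J (vZ J f x + cv (vZ J f x)) := by
  have hq : (fq f x : ℂ) ≠ 0 := LagS.q_ne hx
  have hZ : vZ J f x + cv (vZ J f x) = (2 : ℂ) • Lag.cx (x1 J f x) := by
    rw [cv_vZ]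
    unfold vZ
    module
  have hη := h.eta_eq hx
  rw [hZ, map_smul]
  ext j
  have hj : ContDiffAt ℝ ∞ (fun y => pr j (f y)) x :=
    (pr j).contDiff.contDiffAt.comp x (h.im.at hx.1)
  have h1 : DBv (w1 J f) (w2 J f) (vZ J f) x j =
      DB (w1 J f) (w2 J f) (DD (w1 J f) (w2 J f) (fun y => pr j (f y))) x :=
    DB_congr h.vV_open hx (fun y hy => h.Z_DD hy.1 j)
  have h2 := h.comm hx hj
  have h3 := h.lap_frame hx (h.im.at hx.1) j
  have h4 := congrFun hη j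
  have h5 : pr j (laplaceBeltrami (inducedMetric f) f x) = Lag.cx (eta f x) j := rfl
  rw [h5, h4] at h3
  have h6 := h.Z_DD hx.1 j
  rw [h1]
  simp only [Pi.add_apply, Pi.smul_apply, smul_eq_mul] at h3 ⊢
  refine mul_left_cancel₀ hq ?_
  rw [h6]
  linear_combination (-(fq f x : ℂ)) * h2 - h3

/-- The biharmonic equation in the frame. -/
theorem LagS.bihar (h : LagS J U f)
    (hbi : ∀ y ∈ U, laplaceBeltrami (inducedMetric f) (eta f) y = 0) (hx : x ∈ vV U f) :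
    DDv (w1 J f) (w2 J f) (DBv (w1 J f) (w2 J f)
      (fun y => (fq f y : ℂ) • (vZ J f y + cv (vZ J f y)))) x -
    conj (rh J f x) • DBv (w1 J f) (w2 J f)
      (fun y => (fq f y : ℂ) • (vZ J f y + cv (vZ J f y))) x = 0 := by
  have sv1 : ContDiffOn ℝ ∞ (w1 J f) (vV U f) :=
    Imm.smoothOn_of_at fun y hy => h.w1_at hy.1 hy.2
  have sv2 : ContDiffOn ℝ ∞ (w2 J f) (vV U f) :=
    Imm.smoothOn_of_at fun y hy => h.w2_at hy.1 hy.2
  have sE : ∀ j, ContDiffOn ℝ ∞ (fun y => Lag.cx (eta f y) j) (vV U f) := fun j =>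
    Imm.smoothOn_of_at fun y hy => (pr j).contDiff.contDiffAt.comp y (h.im.eta_at hy.1)
  have sB : ∀ j, ContDiffOn ℝ ∞ (fun y => DBv (w1 J f) (w2 J f) (fun y => Lag.cx (eta f y)) y j)
      (vV U f) := fun j => DB_smooth h.vV_open sv1 sv2 (sE j)
  have k1 : ∀ y ∈ vV U f, DBv (w1 J f) (w2 J f)
      (fun y => (fq f y : ℂ) • (vZ J f y + cv (vZ J f y))) y =
      (-2 : ℂ) • Jc J (DBv (w1 J f) (w2 J f) (fun y => Lag.cx (eta f y)) y) := by
    intro y hy
    have hE : HBv (w1 J f) (w2 J f) (fun y => Lag.cx (eta f y)) y _ :=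
      HBv.of fun j => diffAt h.vV_open (sE j) hy
    exact (HBv.congr h.vV_open hy (fun z hz => (h.qZ_eq hz).symm)
      (HBv.csmul (-2) (hE.lin (Jc J)))).val
  have k2 : DDv (w1 J f) (w2 J f) (DBv (w1 J f) (w2 J f)
      (fun y => (fq f y : ℂ) • (vZ J f y + cv (vZ J f y)))) x =
      (-2 : ℂ) • Jc J (DDv (w1 J f) (w2 J f)
        (DBv (w1 J f) (w2 J f) (fun y => Lag.cx (eta f y))) x) := by
    have hE : HDv (w1 J f) (w2 J f) (DBv (w1 J f) (w2 J f) (fun y => Lag.cx (eta f y))) x _ :=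
      HDv.of fun j => diffAt h.vV_open (sB j) hx
    exact (HDv.congr h.vV_open hx (fun z hz => (k1 z hz).symm)
      (HDv.csmul (-2) (hE.lin (Jc J)))).val
  have k3 : DDv (w1 J f) (w2 J f) (DBv (w1 J f) (w2 J f) (fun y => Lag.cx (eta f y))) x =
      conj (rh J f x) • DBv (w1 J f) (w2 J f) (fun y => Lag.cx (eta f y)) x := by
    ext j
    have h3 := h.lap_frame hx (h.im.eta_at hx.1) j
    rw [hbi x hx.1, map_zero] at h3
    have h4 := (mul_eq_zero.1 h3.symm).resolve_left (LagS.q_ne hx)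
    exact sub_eq_zero.1 h4
  rw [k2, k1 x hx, k3, map_smul]
  module

theorem LagS.fr (h : LagS J U f)
    (hbi : ∀ y ∈ U, laplaceBeltrami (inducedMetric f) (eta f) y = 0) :
    Fr (vV U f) (w1 J f) (w2 J f) (Jc J) (fun y => (fq f y : ℂ)) (rh J f) (vZ J f) where
  op := h.vV_open
  sv₁ := Imm.smoothOn_of_at fun y hy => h.w1_at hy.1 hy.2
  sv₂ := Imm.smoothOn_of_at fun y hy => h.w2_at hy.1 hy.2
  sq := Imm.smoothOn_of_at fun y hy => ofRealCLM.contDiff.contDiffAt.comp y (h.fq_at hy.1)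
  sρ := Imm.smoothOn_of_at fun y hy => h.rh_at hy.1 hy.2
  sZ j := Imm.smoothOn_of_at fun y hy =>
    ((pr j).contDiff.contDiffAt.comp y (h.x1_at hy.1 hy.2)).add
      (contDiffAt_const.mul ((pr j).contDiff.contDiffAt.comp y (h.x2_at hy.1 hy.2)))
  q0 p hp := LagS.q_ne hp
  qre p hp := conj_ofReal _
  comm p hp u hu := h.comm hp hu
  zz p hp := by
    have hq := LagS.q_ne hp
    refine (mul_eq_zero.1 ?_).resolve_left hq
    unfold vZ
    simp only [dot_add_left, dot_add_right, dot_smul_left, dot_smul_right, dot_cx]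
    rw [real_inner_comm (x1 J f p) (x2 J f p), h.x12 hp.1 hp.2]
    push_cast
    linear_combination h.x11' hp - h.x22' hp +
      (fq f p : ℂ) * ((inner ℝ (x2 J f p) (x2 J f p) : ℝ) : ℂ) * I_mul_I
  zc p hp := by
    rw [cv_vZ]
    unfold vZ
    simp only [dot_add_left, dot_add_right, dot_smul_left, dot_smul_right, dot_cx]
    rw [real_inner_comm (x1 J f p) (x2 J f p), h.x12 hp.1 hp.2]
    push_cast
    linear_combination h.x11' hp + h.x22' hp -
      (fq f p : ℂ) * ((inner ℝ (x2 J f p) (x2 J f p) : ℝ) : ℂ) * I_mul_I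
  lag p hp := by
    rw [cv_vZ]
    unfold vZ
    have e1 : inner ℝ (x1 J f p) (J (x2 J f p)) = 0 := by
      have := h.cx.skew (x1 J f p) (x2 J f p)
      rw [h.xJ hp.1] at this
      linarith
    have e2 : inner ℝ (x2 J f p) (J (x1 J f p)) = 0 := by
      rw [real_inner_comm]; exact h.xJ hp.1
    simp only [map_add, map_smul, Jc_cx, dot_add_left, dot_add_right, dot_smul_left,
      dot_smul_right, dot_cx, h.cx.self', e1, e2]
    push_cast
    ring
  Jcv := Jc_cv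
  Jiso := h.cx.Jc_iso
  Jsq := h.cx.Jc_sq
  ind p hp a h1 h2 h3 h4 := by
    refine h.cx.Jc_ind (y1 := x1 J f p) (y2 := x2 J f p) ?_ (h.xJ hp.1) rfl a h1 h2 h3 h4
    rw [h.x12 hp.1 hp.2]
    have hq := fq_pos hp.2
    have e1 := h.x11 hp.1 hp.2
    have e2 := h.x22 hp.1 hp.2
    have p1 : 0 < inner ℝ (x1 J f p) (x1 J f p) := by
      by_contra hc
      push Not at hc
      nlinarith
    have p2 : 0 < inner ℝ (x2 J f p) (x2 J f p) := by
      by_contra hc
      push Not at hc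
      nlinarith
    have := mul_pos p1 p2
    linarith
  st p hp := h.struct hp
  bih p hp := h.bihar hbi hp

/-- Biharmonic Lagrangian surfaces are minimal. -/
theorem LagS.minimal (h : LagS J U f)
    (hbi : ∀ y ∈ U, laplaceBeltrami (inducedMetric f) (eta f) y = 0) :
    ∀ y ∈ U, eta f y = 0 := by
  intro y hy
  by_contra hne
  exact (h.fr hbi).false ⟨y, hy, hne⟩

end Pool.Agent.Lib.MP_3248c9_gt.Lag
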