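import Pool.Agent.Lib.MP_3248c9_gt.Lag.Coord
import Pool.Agent.Helix.GeoDefs

/-!
# The metric and the Laplace-Beltrami operator of an immersed surface
-/

set_option autoImplicit false

namespace Pool.Agent.Lib.MP_3248c9_gt.Lag

open Set Filter Topology
open scoped ContDiff
open Pool.Agent.Helix (pd inducedMetric laplaceBeltrami gE gF gG gW)

variable {m k : ℕ}

/-- A smooth immersed surface. -/
structure Imm (U : Set E2) (f : E2 → EuclideanSpace ℝ (Fin m)) : Prop where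
  isOpen : IsOpen U
  smooth : ContDiffOn ℝ ∞ f U
  imm : ∀ x ∈ U, Function.Injective (fderiv ℝ f x)

variable {U : Set E2} {f : E2 → EuclideanSpace ℝ (Fin m)} {x : E2}

theorem Imm.at (h : Imm U f) (hx : x ∈ U) : ContDiffAt ℝ ∞ f x :=
  h.smooth.contDiffAt (h.isOpen.mem_nhds hx)

theorem Imm.pe_at (h : Imm U f) (hx : x ∈ U) (i : Fin 2) : ContDiffAt ℝ ∞ (pe i f) x :=
  pe_contDiffAt (h.at hx) i

theorem Imm.G_pos (h : Imm U f) (hx : x ∈ U) : 0 < gG f x := by
  have h1 : pd 1 f x ≠ 0 := by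
    intro h0
    have h2 : fderiv ℝ f x (EuclideanSpace.single 1 (1 : ℝ)) = fderiv ℝ f x 0 := by
      rw [map_zero]; exact h0
    have h3 := h.imm x hx h2
    have h4 := congrArg (fun v : E2 => v 1) h3
    simp at h4
  exact real_inner_self_pos.mpr h1

theorem Imm.det_pos (h : Imm U f) (hx : x ∈ U) : 0 < gE f x * gG f x - gF f x ^ 2 := by
  have hG := h.G_pos hx
  have h1 : gG f x • pd 0 f x - gF f x • pd 1 f x ≠ 0 := by
    intro h0
    have h2 : fderiv ℝ f x (gG f x • EuclideanSpace.single 0 (1 : ℝ) -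
        gF f x • EuclideanSpace.single 1 (1 : ℝ)) = fderiv ℝ f x 0 := by
      rw [map_zero, map_sub, map_smul, map_smul]; exact h0
    have h3 := h.imm x hx h2
    have h4 := congrArg (fun v : E2 => v 0) h3
    simp at h4
    exact hG.ne' h4
  have h2 := real_inner_self_pos.mpr h1
  have h3 : inner ℝ (gG f x • pd 0 f x - gF f x • pd 1 f x)
      (gG f x • pd 0 f x - gF f x • pd 1 f x) = gG f x * (gE f x * gG f x - gF f x ^ 2) := by
    simp only [inner_sub_left, inner_sub_right, inner_smul_left, inner_smul_right,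
      conj_trivial]
    have e1 : inner ℝ (pd 0 f x) (pd 0 f x) = gE f x := rfl
    have e2 : inner ℝ (pd 0 f x) (pd 1 f x) = gF f x := rfl
    have e3 : inner ℝ (pd 1 f x) (pd 0 f x) = gF f x := by rw [real_inner_comm]; rfl
    have e4 : inner ℝ (pd 1 f x) (pd 1 f x) = gG f x := rfl
    rw [e1, e2, e3, e4]
    ring
  rw [h3] at h2
  exact (mul_pos_iff_of_pos_left hG).mp h2

theorem Imm.W_pos (h : Imm U f) (hx : x ∈ U) : 0 < gW f x := Real.sqrt_pos.mpr (h.det_pos hx)

theorem Imm.W_sq (h : Imm U f) (hx : x ∈ U) :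
    gW f x ^ 2 = gE f x * gG f x - gF f x ^ 2 := Real.sq_sqrt (h.det_pos hx).le

theorem Imm.E_at (h : Imm U f) (hx : x ∈ U) : ContDiffAt ℝ ∞ (gE f) x :=
  (h.pe_at hx 0).inner ℝ (h.pe_at hx 0)

theorem Imm.F_at (h : Imm U f) (hx : x ∈ U) : ContDiffAt ℝ ∞ (gF f) x :=
  (h.pe_at hx 0).inner ℝ (h.pe_at hx 1)

theorem Imm.G_at (h : Imm U f) (hx : x ∈ U) : ContDiffAt ℝ ∞ (gG f) x :=
  (h.pe_at hx 1).inner ℝ (h.pe_at hx 1)

theorem Imm.W_at (h : Imm U f) (hx : x ∈ U) : ContDiffAt ℝ ∞ (gW f) x := by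
  have h1 : ContDiffAt ℝ ∞ (fun x => gE f x * gG f x - gF f x ^ 2) x :=
    ((h.E_at hx).mul (h.G_at hx)).sub ((h.F_at hx).pow 2)
  exact h1.sqrt (h.det_pos hx).ne'

private theorem geoCoord_matrix (f : E2 → EuclideanSpace ℝ (Fin m)) (y : E2) :
    inducedMetric f y = !![gE f y, gF f y; gF f y, gG f y] := by
  ext i j
  fin_cases i <;> fin_cases j
  · rfl
  · rfl
  · exact real_inner_comm (pd 0 f y) (pd 1 f y)
  · rfl

private theorem geoCoord_det (f : E2 → EuclideanSpace ℝ (Fin m)) (y : E2) :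
    (inducedMetric f y).det = gE f y * gG f y - gF f y ^ 2 := by
  rw [geoCoord_matrix, Matrix.det_fin_two_of]
  ring

private theorem geoCoord_inv (f : E2 → EuclideanSpace ℝ (Fin m)) (y : E2) :
    (inducedMetric f y)⁻¹ = (gE f y * gG f y - gF f y ^ 2)⁻¹ •
      !![gG f y, -gF f y; -gF f y, gE f y] := by
  rw [Matrix.inv_def, geoCoord_det, geoCoord_matrix, Matrix.adjugate_fin_two_of,
    Ring.inverse_eq_inv']

/-- The coefficients of the divergence form. -/
noncomputable def cA (f : E2 → EuclideanSpace ℝ (Fin m)) (y : E2) : ℝ := gG f y / gW f y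
/-- The coefficients of the divergence form. -/
noncomputable def cB (f : E2 → EuclideanSpace ℝ (Fin m)) (y : E2) : ℝ := -(gF f y / gW f y)
/-- The coefficients of the divergence form. -/
noncomputable def cC (f : E2 → EuclideanSpace ℝ (Fin m)) (y : E2) : ℝ := gE f y / gW f y

theorem Imm.A_at (h : Imm U f) (hx : x ∈ U) : ContDiffAt ℝ ∞ (cA f) x :=
  (h.G_at hx).div (h.W_at hx) (h.W_pos hx).ne'
theorem Imm.B_at (h : Imm U f) (hx : x ∈ U) : ContDiffAt ℝ ∞ (cB f) x :=
  ((h.F_at hx).div (h.W_at hx) (h.W_pos hx).ne').neg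
theorem Imm.C_at (h : Imm U f) (hx : x ∈ U) : ContDiffAt ℝ ∞ (cC f) x :=
  (h.E_at hx).div (h.W_at hx) (h.W_pos hx).ne'

/-- The operator in divergence form. -/
theorem Imm.lap_coord (h : Imm U f) (u : E2 → EuclideanSpace ℝ (Fin k)) (hx : x ∈ U) :
    laplaceBeltrami (inducedMetric f) u x = (gW f x)⁻¹ •
      (pe 0 (fun y => cA f y • pe 0 u y + cB f y • pe 1 u y) x +
        pe 1 (fun y => cB f y • pe 0 u y + cC f y • pe 1 u y) x) := by
  have hsqrt : ∀ y, Real.sqrt (inducedMetric f y).det = gW f y := by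
    intro y
    rw [geoCoord_det]; rfl
  have hq : ∀ y ∈ U, gW f y * (gE f y * gG f y - gF f y ^ 2)⁻¹ = (gW f y)⁻¹ := by
    intro y hy
    rw [← h.W_sq hy]
    have := h.W_pos hy
    field_simp
  have hpe : ∀ (i : Fin 2) (v : E2 → EuclideanSpace ℝ (Fin k)) (y : E2), pd i v y = pe i v y :=
    fun i v y => rfl
  have h0 : ∀ y ∈ U, (Real.sqrt (inducedMetric f y).det •
      ∑ j, (inducedMetric f y)⁻¹ 0 j • pd j u y) = cA f y • pe 0 u y + cB f y • pe 1 u y := by
    intro y hy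
    rw [hsqrt, geoCoord_inv, Fin.sum_univ_two, cA, cB, div_eq_mul_inv, div_eq_mul_inv, ← hq y hy]
    simp only [Matrix.smul_apply, Matrix.of_apply, Matrix.cons_val_zero, Matrix.cons_val_one,
      smul_eq_mul, hpe]
    module
  have h1 : ∀ y ∈ U, (Real.sqrt (inducedMetric f y).det •
      ∑ j, (inducedMetric f y)⁻¹ 1 j • pd j u y) = cB f y • pe 0 u y + cC f y • pe 1 u y := by
    intro y hy
    rw [hsqrt, geoCoord_inv, Fin.sum_univ_two, cB, cC, div_eq_mul_inv, div_eq_mul_inv, ← hq y hy]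
    simp only [Matrix.smul_apply, Matrix.of_apply, Matrix.cons_val_zero, Matrix.cons_val_one,
      smul_eq_mul, hpe]
    module
  have e0 := pe_congr (Filter.eventuallyEq_of_mem (h.isOpen.mem_nhds hx) h0) 0
  have e1 := pe_congr (Filter.eventuallyEq_of_mem (h.isOpen.mem_nhds hx) h1) 1
  rw [← e0, ← e1]
  unfold laplaceBeltrami
  rw [hsqrt, Fin.sum_univ_two]
  rfl

theorem pe_inner {u v : E2 → EuclideanSpace ℝ (Fin m)} {p : E2} (hu : DifferentiableAt ℝ u p)
    (hv : DifferentiableAt ℝ v p) (i : Fin 2) : pe i (fun z => inner ℝ (u z) (v z)) p =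
      inner ℝ (u p) (pe i v p) + inner ℝ (pe i u p) (v p) :=
  fderiv_inner_apply ℝ hu hv (ee i)

end Pool.Agent.Lib.MP_3248c9_gt.Lag
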