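import Pool.Agent.Lib.MP_3248c9_gt.Lag.Metric

/-!
# The mean curvature vector is normal
-/

set_option autoImplicit false

namespace Pool.Agent.Lib.MP_3248c9_gt.Lag

open Set Filter Topology
open scoped ContDiff
open Pool.Agent.Helix (pd inducedMetric laplaceBeltrami gE gF gG gW)

variable {m k : ℕ} {U : Set E2} {f : E2 → EuclideanSpace ℝ (Fin m)} {x : E2}

/-- The Laplacian of `f`. -/
noncomputable def eta (f : E2 → EuclideanSpace ℝ (Fin m)) : E2 → EuclideanSpace ℝ (Fin m) :=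
  laplaceBeltrami (inducedMetric f) f

theorem Imm.eta_at (h : Imm U f) (hx : x ∈ U) : ContDiffAt ℝ ∞ (eta f) x := by
  have hW : ContDiffAt ℝ ∞ (fun y => (gW f y)⁻¹) x := (h.W_at hx).inv (h.W_pos hx).ne'
  have h1 : ContDiffAt ℝ ∞ (fun y => cA f y • pe 0 f y + cB f y • pe 1 f y) x :=
    ((h.A_at hx).smul (h.pe_at hx 0)).add ((h.B_at hx).smul (h.pe_at hx 1))
  have h2 : ContDiffAt ℝ ∞ (fun y => cB f y • pe 0 f y + cC f y • pe 1 f y) x :=
    ((h.B_at hx).smul (h.pe_at hx 0)).add ((h.C_at hx).smul (h.pe_at hx 1))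
  have h3 := hW.smul ((pe_contDiffAt h1 0).add (pe_contDiffAt h2 1))
  refine h3.congr_of_eventuallyEq ?_
  filter_upwards [h.isOpen.mem_nhds hx] with y hy
  exact h.lap_coord f hy

theorem Imm.smoothOn_of_at {F : Type*} [NormedAddCommGroup F] [NormedSpace ℝ F] {u : E2 → F}
    {V : Set E2} (hu : ∀ x ∈ V, ContDiffAt ℝ ∞ u x) : ContDiffOn ℝ ∞ u V :=
  fun x hx => (hu x hx).contDiffWithinAt

private theorem inner_alg (h : Imm U f) (hx : x ∈ U) :
    cA f x * gE f x + cB f x * gF f x = gW f x ∧ cA f x * gF f x + cB f x * gG f x = 0 ∧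
    cB f x * gE f x + cC f x * gF f x = 0 ∧ cB f x * gF f x + cC f x * gG f x = gW f x := by
  have hW := (h.W_pos hx).ne'
  have hWs := h.W_sq hx
  unfold cA cB cC
  refine ⟨?_, ?_, ?_, ?_⟩
  · field_simp; linear_combination -hWs
  · field_simp; ring
  · field_simp; ring
  · field_simp; linear_combination -hWs

/-- The Laplacian of `f` is normal to the surface. -/
theorem Imm.eta_normal (h : Imm U f) (hx : x ∈ U) (i : Fin 2) :
    inner ℝ (eta f x) (pe i f x) = 0 := by
  have d0 : DifferentiableAt ℝ (pe 0 f) x := (h.pe_at hx 0).differentiableAt (by simp)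
  have d1 : DifferentiableAt ℝ (pe 1 f) x := (h.pe_at hx 1).differentiableAt (by simp)
  have dE : DifferentiableAt ℝ (gE f) x := (h.E_at hx).differentiableAt (by simp)
  have dF : DifferentiableAt ℝ (gF f) x := (h.F_at hx).differentiableAt (by simp)
  have dG : DifferentiableAt ℝ (gG f) x := (h.G_at hx).differentiableAt (by simp)
  have dW : DifferentiableAt ℝ (gW f) x := (h.W_at hx).differentiableAt (by simp)
  have hW := (h.W_pos hx).ne'
  have hc := pe_comm (h.at hx)
  -- derivatives of the metric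
  have eE : ∀ j, pe j (gE f) x = inner ℝ (pe 0 f x) (pe j (pe 0 f) x) +
      inner ℝ (pe j (pe 0 f) x) (pe 0 f x) := fun j => pe_inner d0 d0 j
  have eF : ∀ j, pe j (gF f) x = inner ℝ (pe 0 f x) (pe j (pe 1 f) x) +
      inner ℝ (pe j (pe 0 f) x) (pe 1 f x) := fun j => pe_inner d0 d1 j
  have eG : ∀ j, pe j (gG f) x = inner ℝ (pe 1 f x) (pe j (pe 1 f) x) +
      inner ℝ (pe j (pe 1 f) x) (pe 1 f x) := fun j => pe_inner d1 d1 j
  have eW : ∀ j, 2 * gW f x * pe j (gW f) x = gE f x * pe j (gG f) x + pe j (gE f) x * gG f x -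
      2 * gF f x * pe j (gF f) x := by
    intro j
    have h1 : (fun y => gW f y * gW f y + gF f y * gF f y) =ᶠ[𝓝 x]
        fun y => gE f y * gG f y := by
      filter_upwards [h.isOpen.mem_nhds hx] with y hy
      linear_combination h.W_sq hy
    have h2 := pe_congr h1 j
    have g1 : DifferentiableAt ℝ (fun y => gW f y * gW f y) x := dW.mul dW
    have g2 : DifferentiableAt ℝ (fun y => gF f y * gF f y) x := dF.mul dF
    rw [pe_add g1 g2, pe_mul dW dW, pe_mul dF dF, pe_mul dE dG] at h2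
    linear_combination h2
  -- the two vector fields
  obtain ⟨P, hP⟩ : ∃ P : E2 → EuclideanSpace ℝ (Fin m), P = fun y =>
      cA f y • pe 0 f y + cB f y • pe 1 f y := ⟨_, rfl⟩
  obtain ⟨R, hR⟩ : ∃ R : E2 → EuclideanSpace ℝ (Fin m), R = fun y =>
      cB f y • pe 0 f y + cC f y • pe 1 f y := ⟨_, rfl⟩
  have dP : DifferentiableAt ℝ P x := by
    rw [hP]
    exact (((h.A_at hx).smul (h.pe_at hx 0)).add
      ((h.B_at hx).smul (h.pe_at hx 1))).differentiableAt (by simp)
  have dR : DifferentiableAt ℝ R x := by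
    rw [hR]
    exact (((h.B_at hx).smul (h.pe_at hx 0)).add
      ((h.C_at hx).smul (h.pe_at hx 1))).differentiableAt (by simp)
  have hη : gW f x • eta f x = pe 0 P x + pe 1 R x := by
    unfold eta
    rw [h.lap_coord f hx, smul_smul, mul_inv_cancel₀ hW, one_smul, hP, hR]
  have iP0 : ∀ y ∈ U, inner ℝ (P y) (pe 0 f y) = gW f y := by
    intro y hy
    rw [hP]
    simp only [inner_add_left, inner_smul_left, conj_trivial]
    rw [real_inner_comm (pe 0 f y) (pe 1 f y)]
    exact (inner_alg h hy).1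
  have iP1 : ∀ y ∈ U, inner ℝ (P y) (pe 1 f y) = 0 := by
    intro y hy
    rw [hP]
    simp only [inner_add_left, inner_smul_left, conj_trivial]
    exact (inner_alg h hy).2.1
  have iR0 : ∀ y ∈ U, inner ℝ (R y) (pe 0 f y) = 0 := by
    intro y hy
    rw [hR]
    simp only [inner_add_left, inner_smul_left, conj_trivial]
    rw [real_inner_comm (pe 0 f y) (pe 1 f y)]
    exact (inner_alg h hy).2.2.1
  have iR1 : ∀ y ∈ U, inner ℝ (R y) (pe 1 f y) = gW f y := by
    intro y hy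
    rw [hR]
    simp only [inner_add_left, inner_smul_left, conj_trivial]
    exact (inner_alg h hy).2.2.2
  have jP0 : inner ℝ (P x) (pe 0 (pe 0 f) x) + inner ℝ (pe 0 P x) (pe 0 f x) = pe 0 (gW f) x := by
    rw [← pe_inner dP d0]
    exact pe_congr (Filter.eventuallyEq_of_mem (h.isOpen.mem_nhds hx) iP0) 0
  have jP1 : inner ℝ (P x) (pe 0 (pe 1 f) x) + inner ℝ (pe 0 P x) (pe 1 f x) = 0 := by
    rw [← pe_inner dP d1, pe_congr (u' := fun _ => (0 : ℝ))
      (Filter.eventuallyEq_of_mem (h.isOpen.mem_nhds hx) iP1) 0]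
    simp [pe]
  have jR0 : inner ℝ (R x) (pe 1 (pe 0 f) x) + inner ℝ (pe 1 R x) (pe 0 f x) = 0 := by
    rw [← pe_inner dR d0, pe_congr (u' := fun _ => (0 : ℝ))
      (Filter.eventuallyEq_of_mem (h.isOpen.mem_nhds hx) iR0) 1]
    simp [pe]
  have jR1 : inner ℝ (R x) (pe 1 (pe 1 f) x) + inner ℝ (pe 1 R x) (pe 1 f x) = pe 1 (gW f) x := by
    rw [← pe_inner dR d1]
    exact pe_congr (Filter.eventuallyEq_of_mem (h.isOpen.mem_nhds hx) iR1) 1
  have hPx : ∀ v, inner ℝ (P x) v = cA f x * inner ℝ (pe 0 f x) v + cB f x * inner ℝ (pe 1 f x) v := by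
    intro v
    rw [hP]
    simp only [inner_add_left, inner_smul_left, conj_trivial]
  have hRx : ∀ v, inner ℝ (R x) v = cB f x * inner ℝ (pe 0 f x) v + cC f x * inner ℝ (pe 1 f x) v := by
    intro v
    rw [hR]
    simp only [inner_add_left, inner_smul_left, conj_trivial]
  have hA : gW f x * cA f x = gG f x := by unfold cA; field_simp
  have hB : gW f x * cB f x = -gF f x := by unfold cB; field_simp
  have hC : gW f x * cC f x = gE f x := by unfold cC; field_simp
  rw [hPx] at jP0 jP1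
  rw [hRx] at jR0 jR1
  rw [hc] at jR0
  have w0 := eW 0
  have w1 := eW 1
  rw [eE, eF, eG] at w0 w1
  rw [real_inner_comm (pe 0 f x) (pe 0 (pe 0 f) x), real_inner_comm (pe 1 f x) (pe 0 (pe 0 f) x),
    real_inner_comm (pe 1 f x) (pe 0 (pe 1 f) x)] at w0
  rw [hc, real_inner_comm (pe 0 f x) (pe 0 (pe 1 f) x), real_inner_comm (pe 1 f x) (pe 0 (pe 1 f) x),
    real_inner_comm (pe 1 f x) (pe 1 (pe 1 f) x)] at w1
  have hη' : ∀ v, gW f x * inner ℝ (eta f x) v = inner ℝ (pe 0 P x) v + inner ℝ (pe 1 R x) v := by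
    intro v
    rw [← inner_add_left, ← hη, inner_smul_left]
    rfl
  have hW2 : gW f x * gW f x ≠ 0 := mul_ne_zero hW hW
  fin_cases i
  · show inner ℝ (eta f x) (pe 0 f x) = 0
    refine (mul_eq_zero.1 ?_).resolve_left hW2
    have := hη' (pe 0 f x)
    linear_combination gW f x * this + gW f x * jP0 + gW f x * jR0 + (1/2) * w0
      - inner ℝ (pe 0 f x) (pe 0 (pe 0 f) x) * hA - inner ℝ (pe 1 f x) (pe 0 (pe 0 f) x) * hB
      - inner ℝ (pe 0 f x) (pe 0 (pe 1 f) x) * hB - inner ℝ (pe 1 f x) (pe 0 (pe 1 f) x) * hC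
  · show inner ℝ (eta f x) (pe 1 f x) = 0
    refine (mul_eq_zero.1 ?_).resolve_left hW2
    have := hη' (pe 1 f x)
    linear_combination gW f x * this + gW f x * jP1 + gW f x * jR1 + (1/2) * w1
      - inner ℝ (pe 0 f x) (pe 0 (pe 1 f) x) * hA - inner ℝ (pe 1 f x) (pe 0 (pe 1 f) x) * hB
      - inner ℝ (pe 0 f x) (pe 1 (pe 1 f) x) * hB - inner ℝ (pe 1 f x) (pe 1 (pe 1 f) x) * hC

end Pool.Agent.Lib.MP_3248c9_gt.Lag
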