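import Mathlib

/-!
# The operators `v₁ - i v₂` and `v₁ + i v₂`
-/

set_option autoImplicit false

namespace Pool.Agent.Lib.MP_3248c9_gt.Lag

open Set Filter Topology Complex
open scoped ContDiff ComplexConjugate

/-- The coordinate plane. -/
abbrev E2 := EuclideanSpace ℝ (Fin 2)

/-- The derivative of `u` along the vector field `v`. -/
noncomputable def dv {F : Type*} [NormedAddCommGroup F] [NormedSpace ℝ F] (v : E2 → E2)
    (u : E2 → F) (p : E2) : F := fderiv ℝ u p (v p)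

/-- The operator `v₁ - i v₂` on complex-valued functions. -/
noncomputable def DD (v₁ v₂ : E2 → E2) (u : E2 → ℂ) (p : E2) : ℂ := dv v₁ u p - I * dv v₂ u p

/-- The operator `v₁ + i v₂` on complex-valued functions. -/
noncomputable def DB (v₁ v₂ : E2 → E2) (u : E2 → ℂ) (p : E2) : ℂ := dv v₁ u p + I * dv v₂ u p

/-- `u` is differentiable at `p` with `(v₁ - i v₂) u = d` at `p`. -/
def HD (v₁ v₂ : E2 → E2) (u : E2 → ℂ) (p : E2) (d : ℂ) : Prop :=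
  DifferentiableAt ℝ u p ∧ DD v₁ v₂ u p = d

/-- `u` is differentiable at `p` with `(v₁ + i v₂) u = d` at `p`. -/
def HB (v₁ v₂ : E2 → E2) (u : E2 → ℂ) (p : E2) (d : ℂ) : Prop :=
  DifferentiableAt ℝ u p ∧ DB v₁ v₂ u p = d

variable {v₁ v₂ : E2 → E2} {u u' : E2 → ℂ} {p : E2} {d d' : ℂ} {V : Set E2}

theorem DB_eq_DD : DB v₁ v₂ u p = DD v₁ (fun y => -v₂ y) u p := by
  simp [DB, DD, dv]

theorem HB_iff : HB v₁ v₂ u p d ↔ HD v₁ (fun y => -v₂ y) u p d := by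
  unfold HB HD; rw [DB_eq_DD]

theorem HD.of (hu : DifferentiableAt ℝ u p) : HD v₁ v₂ u p (DD v₁ v₂ u p) := ⟨hu, rfl⟩

theorem HB.of (hu : DifferentiableAt ℝ u p) : HB v₁ v₂ u p (DB v₁ v₂ u p) := ⟨hu, rfl⟩

theorem HD.congr_val (h : HD v₁ v₂ u p d) (e : d = d') : HD v₁ v₂ u p d' := e ▸ h

theorem HB.congr_val (h : HB v₁ v₂ u p d) (e : d = d') : HB v₁ v₂ u p d' := e ▸ h

theorem HD.const (c : ℂ) : HD v₁ v₂ (fun _ => c) p 0 := by
  refine ⟨differentiableAt_const c, ?_⟩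
  simp [DD, dv]

theorem HD.add (h : HD v₁ v₂ u p d) (h' : HD v₁ v₂ u' p d') :
    HD v₁ v₂ (fun y => u y + u' y) p (d + d') := by
  refine ⟨h.1.add h'.1, ?_⟩
  rw [← h.2, ← h'.2]
  have : HasFDerivAt (fun y => u y + u' y) _ p := h.1.hasFDerivAt.add h'.1.hasFDerivAt
  simp only [DD, dv, this.fderiv, add_apply]
  ring

theorem HD.neg (h : HD v₁ v₂ u p d) : HD v₁ v₂ (fun y => -u y) p (-d) := by
  refine ⟨h.1.neg, ?_⟩
  rw [← h.2]
  have : HasFDerivAt (fun y => -u y) _ p := h.1.hasFDerivAt.neg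
  simp only [DD, dv, this.fderiv, neg_apply]
  ring

theorem HD.sub (h : HD v₁ v₂ u p d) (h' : HD v₁ v₂ u' p d') :
    HD v₁ v₂ (fun y => u y - u' y) p (d - d') := by
  have := h.add h'.neg
  simpa only [sub_eq_add_neg] using this

theorem HD.mul (h : HD v₁ v₂ u p d) (h' : HD v₁ v₂ u' p d') :
    HD v₁ v₂ (fun y => u y * u' y) p (d * u' p + u p * d') := by
  refine ⟨h.1.mul h'.1, ?_⟩
  rw [← h.2, ← h'.2]
  have : HasFDerivAt (fun y => u y * u' y) _ p := h.1.hasFDerivAt.mul h'.1.hasFDerivAt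
  simp only [DD, dv, this.fderiv, add_apply, smul_apply, smul_eq_mul]
  ring

theorem HD.cmul (c : ℂ) (h : HD v₁ v₂ u p d) : HD v₁ v₂ (fun y => c * u y) p (c * d) := by
  have := (HD.const (v₁ := v₁) (v₂ := v₂) (p := p) c).mul h
  simpa using this

theorem HD.sum {ι : Type*} (s : Finset ι) {u : ι → E2 → ℂ} {d : ι → ℂ}
    (h : ∀ i ∈ s, HD v₁ v₂ (u i) p (d i)) :
    HD v₁ v₂ (fun y => ∑ i ∈ s, u i y) p (∑ i ∈ s, d i) := by
  classical
  induction s using Finset.induction_on with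
  | empty => simpa using HD.const (v₁ := v₁) (v₂ := v₂) (p := p) 0
  | insert a s ha ih =>
    simp only [Finset.sum_insert ha]
    exact (h a (Finset.mem_insert_self a s)).add
      (ih fun i hi => h i (Finset.mem_insert_of_mem hi))

theorem HB.const (c : ℂ) : HB v₁ v₂ (fun _ => c) p 0 := HB_iff.2 (HD.const c)

theorem HB.add (h : HB v₁ v₂ u p d) (h' : HB v₁ v₂ u' p d') :
    HB v₁ v₂ (fun y => u y + u' y) p (d + d') := HB_iff.2 ((HB_iff.1 h).add (HB_iff.1 h'))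

theorem HB.neg (h : HB v₁ v₂ u p d) : HB v₁ v₂ (fun y => -u y) p (-d) :=
  HB_iff.2 (HB_iff.1 h).neg

theorem HB.sub (h : HB v₁ v₂ u p d) (h' : HB v₁ v₂ u' p d') :
    HB v₁ v₂ (fun y => u y - u' y) p (d - d') := HB_iff.2 ((HB_iff.1 h).sub (HB_iff.1 h'))

theorem HB.mul (h : HB v₁ v₂ u p d) (h' : HB v₁ v₂ u' p d') :
    HB v₁ v₂ (fun y => u y * u' y) p (d * u' p + u p * d') :=
  HB_iff.2 ((HB_iff.1 h).mul (HB_iff.1 h'))

theorem HB.cmul (c : ℂ) (h : HB v₁ v₂ u p d) : HB v₁ v₂ (fun y => c * u y) p (c * d) :=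
  HB_iff.2 ((HB_iff.1 h).cmul c)

theorem HB.sum {ι : Type*} (s : Finset ι) {u : ι → E2 → ℂ} {d : ι → ℂ}
    (h : ∀ i ∈ s, HB v₁ v₂ (u i) p (d i)) :
    HB v₁ v₂ (fun y => ∑ i ∈ s, u i y) p (∑ i ∈ s, d i) :=
  HB_iff.2 (HD.sum s fun i hi => HB_iff.1 (h i hi))

/-- Complex conjugation exchanges the two operators. -/
theorem HD.conj (h : HD v₁ v₂ u p d) : HB v₁ v₂ (fun y => conj (u y)) p (conj d) := by
  have h1 : HasFDerivAt (fun y => conj (u y)) (conjCLE.toContinuousLinearMap.comp (fderiv ℝ u p)) p :=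
    conjCLE.toContinuousLinearMap.hasFDerivAt.comp p h.1.hasFDerivAt
  refine ⟨h1.differentiableAt, ?_⟩
  rw [← h.2]
  simp only [DD, DB, dv, h1.fderiv]
  simp

theorem HB.conj (h : HB v₁ v₂ u p d) : HD v₁ v₂ (fun y => conj (u y)) p (conj d) := by
  have h1 : HasFDerivAt (fun y => conj (u y)) (conjCLE.toContinuousLinearMap.comp (fderiv ℝ u p)) p :=
    conjCLE.toContinuousLinearMap.hasFDerivAt.comp p h.1.hasFDerivAt
  refine ⟨h1.differentiableAt, ?_⟩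
  rw [← h.2]
  simp only [DD, DB, dv, h1.fderiv]
  simp [sub_eq_add_neg]

theorem HD.congr (hV : IsOpen V) (hp : p ∈ V) (e : ∀ y ∈ V, u y = u' y) (h : HD v₁ v₂ u p d) :
    HD v₁ v₂ u' p d := by
  have h1 : u' =ᶠ[𝓝 p] u := by
    filter_upwards [hV.mem_nhds hp] with y hy
    exact (e y hy).symm
  refine ⟨h.1.congr_of_eventuallyEq h1, ?_⟩
  rw [← h.2]
  simp only [DD, dv, h1.fderiv_eq]

theorem HB.congr (hV : IsOpen V) (hp : p ∈ V) (e : ∀ y ∈ V, u y = u' y) (h : HB v₁ v₂ u p d) :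
    HB v₁ v₂ u' p d := HB_iff.2 ((HB_iff.1 h).congr hV hp e)

/-- Differentiating an identity. -/
theorem HD.unique (hV : IsOpen V) (hp : p ∈ V) (e : ∀ y ∈ V, u y = u' y) (h : HD v₁ v₂ u p d)
    (h' : HD v₁ v₂ u' p d') : d = d' := (h.congr hV hp e).2.symm.trans h'.2

theorem HB.unique (hV : IsOpen V) (hp : p ∈ V) (e : ∀ y ∈ V, u y = u' y) (h : HB v₁ v₂ u p d)
    (h' : HB v₁ v₂ u' p d') : d = d' := (h.congr hV hp e).2.symm.trans h'.2

theorem diffAt {F : Type*} [NormedAddCommGroup F] [NormedSpace ℝ F] {u : E2 → F}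
    (hV : IsOpen V) (hu : ContDiffOn ℝ ∞ u V) (hp : p ∈ V) : DifferentiableAt ℝ u p :=
  (hu.differentiableOn (by simp)).differentiableAt (hV.mem_nhds hp)

theorem dv_smooth {F : Type*} [NormedAddCommGroup F] [NormedSpace ℝ F] {u : E2 → F} {v : E2 → E2}
    (hV : IsOpen V) (hv : ContDiffOn ℝ ∞ v V) (hu : ContDiffOn ℝ ∞ u V) :
    ContDiffOn ℝ ∞ (dv v u) V :=
  (hu.fderiv_of_isOpen hV (by simp)).clm_apply hv

theorem DD_smooth (hV : IsOpen V) (h1 : ContDiffOn ℝ ∞ v₁ V) (h2 : ContDiffOn ℝ ∞ v₂ V)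
    (hu : ContDiffOn ℝ ∞ u V) : ContDiffOn ℝ ∞ (DD v₁ v₂ u) V :=
  (dv_smooth hV h1 hu).sub (contDiffOn_const.mul (dv_smooth hV h2 hu))

theorem DB_smooth (hV : IsOpen V) (h1 : ContDiffOn ℝ ∞ v₁ V) (h2 : ContDiffOn ℝ ∞ v₂ V)
    (hu : ContDiffOn ℝ ∞ u V) : ContDiffOn ℝ ∞ (DB v₁ v₂ u) V :=
  (dv_smooth hV h1 hu).add (contDiffOn_const.mul (dv_smooth hV h2 hu))

theorem conj_smooth (hu : ContDiffOn ℝ ∞ u V) : ContDiffOn ℝ ∞ (fun y => conj (u y)) V :=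
  conjCLE.toContinuousLinearMap.contDiff.comp_contDiffOn hu

/-- The first-order system satisfied by the invariants `h`, `w`, `x` of a biharmonic Lagrangian
surface with respect to the frame `v₁`, `v₂`, and the commutator of the two operators. -/
structure Sys (V : Set E2) (v₁ v₂ : E2 → E2) (h w x : E2 → ℂ) : Prop where
  op : IsOpen V
  sv₁ : ContDiffOn ℝ ∞ v₁ V
  sv₂ : ContDiffOn ℝ ∞ v₂ V
  sh : ContDiffOn ℝ ∞ h V
  sw : ContDiffOn ℝ ∞ w V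
  sx : ContDiffOn ℝ ∞ x V
  hre : ∀ p ∈ V, conj (h p) = h p
  e0 : ∀ p ∈ V, w p + x p * conj (w p) = -(3 / 4) * h p
  e1 : ∀ p ∈ V, DB v₁ v₂ w p = 3 / 4 + x p / 2 - h p * w p
  e2 : ∀ p ∈ V, DD v₁ v₂ h p = 1 + x p + 2 * x p * conj (x p) - h p * w p - h p ^ 2 / 2
  e3 : ∀ p ∈ V, DB v₁ v₂ x p = -(w p) / 2 - (3 / 4) * h p - h p * x p
  e4 : ∀ p ∈ V, ∀ u : E2 → ℂ, ContDiffAt ℝ ∞ u p →
    DD v₁ v₂ (DB v₁ v₂ u) p - DB v₁ v₂ (DD v₁ v₂ u) p = h p / 2 * (DD v₁ v₂ u p - DB v₁ v₂ u p)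

theorem Sys.mono {h w x : E2 → ℂ} {V' : Set E2} (S : Sys V v₁ v₂ h w x) (hV' : IsOpen V')
    (hs : V' ⊆ V) : Sys V' v₁ v₂ h w x where
  op := hV'
  sv₁ := S.sv₁.mono hs
  sv₂ := S.sv₂.mono hs
  sh := S.sh.mono hs
  sw := S.sw.mono hs
  sx := S.sx.mono hs
  hre p hp := S.hre p (hs hp)
  e0 p hp := S.e0 p (hs hp)
  e1 p hp := S.e1 p (hs hp)
  e2 p hp := S.e2 p (hs hp)
  e3 p hp := S.e3 p (hs hp)
  e4 p hp := S.e4 p (hs hp)

end Pool.Agent.Lib.MP_3248c9_gt.Lag
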