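import Pool.Agent.Lib.MP_3248c9_gt.Lag.First

/-!
# Derivatives of the polynomials
-/

set_option autoImplicit false

namespace Pool.Agent.Lib.MP_3248c9_gt.Lag

open Set Filter Topology Complex
open scoped ContDiff ComplexConjugate

/-- The integrability condition. -/
noncomputable def pQ (h w b : ℂ) : ℂ :=
  (7 * (w * b) - 6) * h ^ 2 - 11 * h * (w + b) + 12 * (w * b) ^ 2 - 4 * (w + b) ^ 2

noncomputable def pCh (h w b : ℂ) : ℂ := -h * w * b + 9/4 * h - w ^ 2 * b + 3/4 * w + 3/2 * b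
noncomputable def pCw (h w b : ℂ) : ℂ := -1/2 * h ^ 2 * b - 2 * h * w * b + 3/4 * h - 2 * w + 3 * b
noncomputable def pCb (h w _b : ℂ) : ℂ := -1/2 * h ^ 2 * w - h * w ^ 2 + 3/2 * h + 3 * w

noncomputable def pBh (_h w b : ℂ) : ℂ := -3/8 - w * b
noncomputable def pBw (h _w b : ℂ) : ℂ := -1/2 - h * b
noncomputable def pBb (h w _b : ℂ) : ℂ := 3/4 - h * w

noncomputable def pGh (h w b : ℂ) : ℂ :=
  3/4 * h * w * b + 27/16 * h - 3/2 * w ^ 2 * b + 9/16 * w + 3/4 * b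
noncomputable def pGw (h w b : ℂ) : ℂ :=
  3/8 * h ^ 2 * b - 3 * h * w * b + 9/16 * h - w * b ^ 2 - 3/2 * w + 3 * b
noncomputable def pGb (h w b : ℂ) : ℂ :=
  3/8 * h ^ 2 * w - 3/2 * h * w ^ 2 + 3/4 * h - w ^ 2 * b + 3 * w - b

noncomputable def pQh (h w b : ℂ) : ℂ := 2 * (7 * (w * b) - 6) * h - 11 * (w + b)
noncomputable def pQw (h w b : ℂ) : ℂ := 7 * b * h ^ 2 - 11 * h + 24 * w * b ^ 2 - 8 * (w + b)

variable {v₁ v₂ : E2 → E2} {h w b : E2 → ℂ} {p : E2} {dh dw db : ℂ}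

theorem HD.pC (Hh : HD v₁ v₂ h p dh) (Hw : HD v₁ v₂ w p dw) (Hb : HD v₁ v₂ b p db) :
    HD v₁ v₂ (fun y => pC (h y) (w y) (b y)) p
      (pCh (h p) (w p) (b p) * dh + pCw (h p) (w p) (b p) * dw + pCb (h p) (w p) (b p) * db) := by
  have e : (fun y => Lag.pC (h y) (w y) (b y)) = fun y => (-1/2) * (h y * h y * (w y * b y)) +
      (9/8) * (h y * h y) + (-1) * (h y * (w y * w y * b y)) + (3/4) * (h y * w y) +
      (3/2) * (h y * b y) + (-1) * (w y * w y) + 3 * (w y * b y) := by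
    funext y; unfold Lag.pC; ring
  rw [e]
  refine HD.congr_val (
    ((((((((Hh.mul Hh).mul (Hw.mul Hb)).cmul (-1/2)).add ((Hh.mul Hh).cmul (9/8))).add ((Hh.mul
    ((Hw.mul Hw).mul Hb)).cmul (-1))).add ((Hh.mul Hw).cmul (3/4))).add ((Hh.mul Hb).cmul
    (3/2))).add ((Hw.mul Hw).cmul (-1))).add ((Hw.mul Hb).cmul 3)) ?_
  unfold pCh pCw pCb
  ring

theorem HD.pB (Hh : HD v₁ v₂ h p dh) (Hw : HD v₁ v₂ w p dw) (Hb : HD v₁ v₂ b p db) :
    HD v₁ v₂ (fun y => pB (h y) (w y) (b y)) p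
      (pBh (h p) (w p) (b p) * dh + pBw (h p) (w p) (b p) * dw + pBb (h p) (w p) (b p) * db) := by
  have e : (fun y => Lag.pB (h y) (w y) (b y)) = fun y => (3/4) * b y + (-3/8) * h y +
      (-1/2) * w y + (-1) * (h y * (w y * b y)) := by
    funext y; unfold Lag.pB; ring
  rw [e]
  refine HD.congr_val (
    (((Hb.cmul (3/4)).add (Hh.cmul (-3/8))).add (Hw.cmul (-1/2))).add ((Hh.mul (Hw.mul
    Hb)).cmul (-1))) ?_
  unfold pBh pBw pBb
  ring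

theorem HD.pG (Hh : HD v₁ v₂ h p dh) (Hw : HD v₁ v₂ w p dw) (Hb : HD v₁ v₂ b p db) :
    HD v₁ v₂ (fun y => pG (h y) (w y) (b y)) p
      (pGh (h p) (w p) (b p) * dh + pGw (h p) (w p) (b p) * dw + pGb (h p) (w p) (b p) * db) := by
  have e : (fun y => Lag.pG (h y) (w y) (b y)) = fun y => (3/8) * (h y * h y * (w y * b y)) +
      (27/32) * (h y * h y) + (-3/2) * (h y * (w y * w y * b y)) + (9/16) * (h y * w y) +
      (3/4) * (h y * b y) + (-1/2) * ((w y * w y) * (b y * b y)) + (-3/4) * (w y * w y) +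
      3 * (w y * b y) + (-1/2) * (b y * b y) := by
    funext y; unfold Lag.pG; ring
  rw [e]
  refine HD.congr_val (
    ((((((((((Hh.mul Hh).mul (Hw.mul Hb)).cmul (3/8)).add ((Hh.mul Hh).cmul (27/32))).add
    ((Hh.mul ((Hw.mul Hw).mul Hb)).cmul (-3/2))).add ((Hh.mul Hw).cmul (9/16))).add ((Hh.mul
    Hb).cmul (3/4))).add (((Hw.mul Hw).mul (Hb.mul Hb)).cmul (-1/2))).add ((Hw.mul Hw).cmul
    (-3/4))).add ((Hw.mul Hb).cmul 3)).add ((Hb.mul Hb).cmul (-1/2))) ?_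
  unfold pGh pGw pGb
  ring

theorem HD.pQ (Hh : HD v₁ v₂ h p dh) (Hw : HD v₁ v₂ w p dw) (Hb : HD v₁ v₂ b p db) :
    HD v₁ v₂ (fun y => pQ (h y) (w y) (b y)) p
      (pQh (h p) (w p) (b p) * dh + pQw (h p) (w p) (b p) * dw + pQw (h p) (b p) (w p) * db) := by
  have e : (fun y => Lag.pQ (h y) (w y) (b y)) = fun y => 7 * (h y * h y * (w y * b y)) +
      (-6) * (h y * h y) + (-11) * (h y * w y) + (-11) * (h y * b y) +
      12 * ((w y * b y) * (w y * b y)) + (-4) * (w y * w y) + (-8) * (w y * b y) +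
      (-4) * (b y * b y) := by
    funext y; unfold Lag.pQ; ring
  rw [e]
  refine HD.congr_val (
    (((((((((Hh.mul Hh).mul (Hw.mul Hb)).cmul 7).add ((Hh.mul Hh).cmul (-6))).add ((Hh.mul
    Hw).cmul (-11))).add ((Hh.mul Hb).cmul (-11))).add (((Hw.mul Hb).mul (Hw.mul Hb)).cmul
    12)).add ((Hw.mul Hw).cmul (-4))).add ((Hw.mul Hb).cmul (-8))).add ((Hb.mul Hb).cmul (-4))) ?_
  unfold pQh pQw
  ring

theorem HB.pC (Hh : HB v₁ v₂ h p dh) (Hw : HB v₁ v₂ w p dw) (Hb : HB v₁ v₂ b p db) :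
    HB v₁ v₂ (fun y => pC (h y) (w y) (b y)) p
      (pCh (h p) (w p) (b p) * dh + pCw (h p) (w p) (b p) * dw + pCb (h p) (w p) (b p) * db) :=
  HB_iff.2 (HD.pC (HB_iff.1 Hh) (HB_iff.1 Hw) (HB_iff.1 Hb))

theorem HB.pB (Hh : HB v₁ v₂ h p dh) (Hw : HB v₁ v₂ w p dw) (Hb : HB v₁ v₂ b p db) :
    HB v₁ v₂ (fun y => pB (h y) (w y) (b y)) p
      (pBh (h p) (w p) (b p) * dh + pBw (h p) (w p) (b p) * dw + pBb (h p) (w p) (b p) * db) :=
  HB_iff.2 (HD.pB (HB_iff.1 Hh) (HB_iff.1 Hw) (HB_iff.1 Hb))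

theorem HB.pG (Hh : HB v₁ v₂ h p dh) (Hw : HB v₁ v₂ w p dw) (Hb : HB v₁ v₂ b p db) :
    HB v₁ v₂ (fun y => pG (h y) (w y) (b y)) p
      (pGh (h p) (w p) (b p) * dh + pGw (h p) (w p) (b p) * dw + pGb (h p) (w p) (b p) * db) :=
  HB_iff.2 (HD.pG (HB_iff.1 Hh) (HB_iff.1 Hw) (HB_iff.1 Hb))

end Pool.Agent.Lib.MP_3248c9_gt.Lag
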