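import Pool.Agent.Lib.MP_3248c9_gt.Lag.Frame

/-!
# The derivative of `q` and the closedness of the Maslov form
-/

set_option autoImplicit false

namespace Pool.Agent.Lib.MP_3248c9_gt.Lag

open Set Filter Topology Complex
open scoped ContDiff ComplexConjugate

variable {V : Set E2} {v₁ v₂ : E2 → E2} {J : C4 →ₗ[ℂ] C4} {q ρ : E2 → ℂ} {Z : E2 → C4} {p : E2}

theorem dot_smooth {Z W : E2 → C4} (hZ : ∀ j, ContDiffOn ℝ ∞ (fun y => Z y j) V)
    (hW : ∀ j, ContDiffOn ℝ ∞ (fun y => W y j) V) :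
    ContDiffOn ℝ ∞ (fun y => dot (Z y) (W y)) V := by
  unfold dot
  exact ContDiffOn.sum fun j _ => (hZ j).mul (hW j)

theorem lin_smooth {Z : E2 → C4} (J : C4 →ₗ[ℂ] C4) (hZ : ∀ j, ContDiffOn ℝ ∞ (fun y => Z y j) V)
    (i : Fin 4) : ContDiffOn ℝ ∞ (fun y => J (Z y) i) V := by
  have h1 : (fun y => J (Z y) i) = fun y => ∑ j, J (Pi.single j 1) i * Z y j := by
    funext y; exact lin_apply J (Z y) i
  rw [h1]
  exact ContDiffOn.sum fun j _ => contDiffOn_const.mul (hZ j)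

theorem Fr.sdZ (S : Fr V v₁ v₂ J q ρ Z) (j : Fin 4) :
    ContDiffOn ℝ ∞ (fun y => DDv v₁ v₂ Z y j) V := DD_smooth S.op S.sv₁ S.sv₂ (S.sZ j)

theorem Fr.scZ (S : Fr V v₁ v₂ J q ρ Z) (j : Fin 4) :
    ContDiffOn ℝ ∞ (fun y => cv (Z y) j) V := conj_smooth (S.sZ j)

theorem Fr.sfw (S : Fr V v₁ v₂ J q ρ Z) : ContDiffOn ℝ ∞ (fw v₁ v₂ q Z) V := by
  unfold fw
  exact ((S.sq.div_const 2).neg).mul (dot_smooth S.sdZ S.scZ)

theorem Fr.sfx (S : Fr V v₁ v₂ J q ρ Z) : ContDiffOn ℝ ∞ (fx v₁ v₂ J q Z) V := by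
  unfold fx
  exact (S.sq.div_const 2).mul (dot_smooth S.sdZ (lin_smooth J S.sZ))

/-- The derivative of `q`. -/
theorem Fr.dq (S : Fr V v₁ v₂ J q ρ Z) (hp : p ∈ V) :
    HD v₁ v₂ q p (q p * (fw v₁ v₂ q Z p - conj (ρ p))) := by
  have hd : DifferentiableAt ℝ q p := diffAt S.op S.sq hp
  refine ⟨hd, ?_⟩
  have hq := S.q0 p hp
  have h := HD.unique S.op hp (fun y hy => S.zc y hy)
    ((HD.of (v₁ := v₁) (v₂ := v₂) hd).mul ((S.dZ hp).dot (S.dc hp))) (HD.const 2)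
  rw [S.dz_c hp, dot_add_right, dot_smul_right, dot_smul_right, map_add, dot_add_right, S.zJc hp,
    S.J_self', S.zc' hp] at h
  field_simp at h
  linear_combination (1/4) * h

theorem Fr.bq (S : Fr V v₁ v₂ J q ρ Z) (hp : p ∈ V) :
    HB v₁ v₂ q p (q p * (conj (fw v₁ v₂ q Z p) - ρ p)) := by
  have h := ((S.dq hp).conj).congr S.op hp S.qre
  refine h.congr_val ?_
  rw [map_mul, map_sub, S.qre p hp, conj_conj]

/-- The derivative of the conjugate frame, second operator. -/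
theorem Fr.bc (S : Fr V v₁ v₂ J q ρ Z) (hp : p ∈ V) :
    HBv v₁ v₂ (fun y => cv (Z y)) p
      (-(conj (fw v₁ v₂ q Z p)) • cv (Z p) + (1/2 : ℂ) • J (cv (Z p)) +
        conj (fx v₁ v₂ J q Z p) • J (Z p)) := by
  refine (S.dZ hp).cv.congr_val ?_
  have h2 : conj (1 / 2 : ℂ) = 1 / 2 := by rw [map_div₀, map_one, map_ofNat]
  rw [S.dZ_eq hp, cv_add, cv_add, cv_smul, cv_smul, cv_smul, ← S.Jcv, ← S.Jcv, cv_cv, h2, map_neg]

/-- The Maslov form is closed: `ρ` is real. -/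
theorem Fr.rho_real (S : Fr V v₁ v₂ J q ρ Z) (hp : p ∈ V) : conj (ρ p) = ρ p := by
  have hq := S.q0 p hp
  have dρ := HD.of (v₁ := v₁) (v₂ := v₂) (diffAt S.op S.sρ hp)
  have bw := HB.of (v₁ := v₁) (v₂ := v₂) (diffAt S.op S.sfw hp)
  have bx := HB.of (v₁ := v₁) (v₂ := v₂) (diffAt S.op S.sfx hp)
  -- derivative of `DBv Z`
  have hA : HDv v₁ v₂ (DBv v₁ v₂ Z) p _ :=
    HDv.congr S.op hp (fun y hy => (S.st y hy).symm)
      ((HDv.smul dρ (S.dZ hp)).add (HDv.csmul (1/2) (((S.dZ hp).add (S.dc hp)).lin J)))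
  have hB : HBv v₁ v₂ (DDv v₁ v₂ Z) p _ :=
    HBv.congr S.op hp (fun y hy => (S.dZ_eq hy).symm)
      (((HBv.smul bw.neg (S.bZ hp)).add (HBv.csmul (1/2) ((S.bZ hp).lin J))).add
        (HBv.smul bx ((S.bc hp).lin J)))
  have hC : DDv v₁ v₂ (DBv v₁ v₂ Z) p - DBv v₁ v₂ (DDv v₁ v₂ Z) p =
      -ρ p • DDv v₁ v₂ Z p + conj (ρ p) • DBv v₁ v₂ Z p := by
    ext j
    have hc : ContDiffAt ℝ ∞ (fun y => Z y j) p := (S.sZ j).contDiffAt (S.op.mem_nhds hp)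
    exact S.comm p hp _ hc
  rw [hA.val, hB.val] at hC
  have hD := congrArg (fun a => dot a (J (cv (Z p)))) hC
  rw [S.st p hp] at hD
  simp only [map_add, map_smul, S.Jsq, dot_sub_left, dot_add_left, dot_smul_left, dot_neg_left,
    S.Jiso] at hD
  rw [S.zJc hp, S.dz_Jc hp, S.dz_c hp, S.cc hp, S.J_self' (cv (Z p)), S.zc' hp] at hD
  have h1 : (1 / q p) * (conj (ρ p) - ρ p) = 0 := by linear_combination -hD
  exact sub_eq_zero.1 ((mul_eq_zero.1 h1).resolve_left (one_div_ne_zero hq))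

end Pool.Agent.Lib.MP_3248c9_gt.Lag
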