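import Pool.Agent.Lib.MP_3248c9_gt.Lag.Tangent

/-!
# The frame of a Lagrangian surface
-/

set_option autoImplicit false

namespace Pool.Agent.Lib.MP_3248c9_gt.Lag

open Set Filter Topology
open scoped ContDiff
open Pool.Agent.Helix (pd inducedMetric laplaceBeltrami gE gF gG gW)

/-- A Lagrangian surface. -/
structure LagS (J : E4 →L[ℝ] E4) (U : Set E2) (f : E2 → E4) : Prop where
  im : Imm U f
  cx : Cx J
  lag : ∀ x ∈ U, inner ℝ (J (pe 0 f x)) (pe 1 f x) = 0

variable {J : E4 →L[ℝ] E4} {U : Set E2} {f : E2 → E4} {x : E2}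

/-- The tangent field `-J η`. -/
noncomputable def fX (J : E4 →L[ℝ] E4) (f : E2 → E4) (x : E2) : E4 := -(J (eta f x))
/-- The squared norm of `η`. -/
noncomputable def fq (f : E2 → E4) (x : E2) : ℝ := inner ℝ (eta f x) (eta f x)
/-- The component of `-J η` along `∂_i f`. -/
noncomputable def fc (J : E4 →L[ℝ] E4) (f : E2 → E4) (i : Fin 2) (x : E2) : ℝ :=
  inner ℝ (fX J f x) (pe i f x)
noncomputable def va (J : E4 →L[ℝ] E4) (f : E2 → E4) (x : E2) : ℝ :=
  (gG f x * fc J f 0 x - gF f x * fc J f 1 x) / (fq f x * gW f x ^ 2)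
noncomputable def vb (J : E4 →L[ℝ] E4) (f : E2 → E4) (x : E2) : ℝ :=
  (gE f x * fc J f 1 x - gF f x * fc J f 0 x) / (fq f x * gW f x ^ 2)
noncomputable def vc (J : E4 →L[ℝ] E4) (f : E2 → E4) (x : E2) : ℝ :=
  -fc J f 1 x / (fq f x * gW f x)
noncomputable def vd (J : E4 →L[ℝ] E4) (f : E2 → E4) (x : E2) : ℝ :=
  fc J f 0 x / (fq f x * gW f x)
noncomputable def vK (f : E2 → E4) (x : E2) : ℝ := fq f x * gW f x

theorem LagS.lag' (h : LagS J U f) (hx : x ∈ U) : inner ℝ (pe 0 f x) (J (pe 1 f x)) = 0 := by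
  have := h.cx.skew (pe 0 f x) (pe 1 f x)
  rw [h.lag x hx] at this
  linarith

theorem LagS.fX_J (h : LagS J U f) (hx : x ∈ U) (i : Fin 2) :
    inner ℝ (fX J f x) (J (pe i f x)) = 0 := by
  unfold fX
  rw [inner_neg_left, h.cx.iso, h.im.eta_normal hx, neg_zero]

theorem LagS.fX_norm (h : LagS J U f) (x : E2) : inner ℝ (fX J f x) (fX J f x) = fq f x := by
  unfold fX fq
  rw [inner_neg_left, inner_neg_right, h.cx.iso, neg_neg]

/-- `-J η` is tangent. -/
theorem LagS.tangent (h : LagS J U f) (hx : x ∈ U) :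
    gW f x ^ 2 • fX J f x = (gG f x * fc J f 0 x - gF f x * fc J f 1 x) • pe 0 f x +
      (gE f x * fc J f 1 x - gF f x * fc J f 0 x) • pe 1 f x := by
  have hWs := h.im.W_sq hx
  have e00 : inner ℝ (pe 0 f x) (pe 0 f x) = gE f x := rfl
  have e01 : inner ℝ (pe 0 f x) (pe 1 f x) = gF f x := rfl
  have e10 : inner ℝ (pe 1 f x) (pe 0 f x) = gF f x := by rw [real_inner_comm]; rfl
  have e11 : inner ℝ (pe 1 f x) (pe 1 f x) = gG f x := rfl
  have c0 : inner ℝ (fX J f x) (pe 0 f x) = fc J f 0 x := rfl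
  have c1 : inner ℝ (fX J f x) (pe 1 f x) = fc J f 1 x := rfl
  have l10 : inner ℝ (pe 1 f x) (J (pe 0 f x)) = 0 := by rw [real_inner_comm]; exact h.lag x hx
  rw [← sub_eq_zero]
  refine h.cx.perp (p1 := pe 0 f x) (p2 := pe 1 f x) (h.im.det_pos hx) (h.lag x hx) ?_ ?_ ?_ ?_
  · rw [inner_sub_left, inner_add_left, real_inner_smul_left, real_inner_smul_left,
      real_inner_smul_left, c0, e00, e10, hWs]
    ring
  · rw [inner_sub_left, inner_add_left, real_inner_smul_left, real_inner_smul_left,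
      real_inner_smul_left, c1, e01, e11, hWs]
    ring
  · rw [inner_sub_left, inner_add_left, real_inner_smul_left, real_inner_smul_left,
      real_inner_smul_left, h.fX_J hx, h.cx.self', l10]
    ring
  · rw [inner_sub_left, inner_add_left, real_inner_smul_left, real_inner_smul_left,
      real_inner_smul_left, h.fX_J hx, h.cx.self', h.lag' hx]
    ring

/-- The norm of `-J η` in terms of its components. -/
theorem LagS.norm_eq (h : LagS J U f) (hx : x ∈ U) :
    gW f x ^ 2 * fq f x = gG f x * fc J f 0 x ^ 2 - 2 * gF f x * fc J f 0 x * fc J f 1 x +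
      gE f x * fc J f 1 x ^ 2 := by
  have h1 := congrArg (fun z => inner ℝ (fX J f x) z) (h.tangent hx)
  simp only [inner_add_right, inner_smul_right, h.fX_norm] at h1
  have c0 : inner ℝ (fX J f x) (pe 0 f x) = fc J f 0 x := rfl
  have c1 : inner ℝ (fX J f x) (pe 1 f x) = fc J f 1 x := rfl
  rw [c0, c1] at h1
  linear_combination h1

theorem fq_pos (hη : eta f x ≠ 0) : 0 < fq f x := real_inner_self_pos.mpr hη

theorem LagS.K_pos (h : LagS J U f) (hx : x ∈ U) (hη : eta f x ≠ 0) : 0 < vK f x :=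
  mul_pos (fq_pos hη) (h.im.W_pos hx)

theorem LagS.K_det (h : LagS J U f) (hx : x ∈ U) (hη : eta f x ≠ 0) :
    vK f x * (va J f x * vd J f x - vb J f x * vc J f x) = 1 := by
  have hq := (fq_pos hη).ne'
  have hW := (h.im.W_pos hx).ne'
  have hn := h.norm_eq hx
  unfold vK va vb vc vd
  field_simp
  linear_combination -hn

theorem LagS.K_A (h : LagS J U f) (hx : x ∈ U) (hη : eta f x ≠ 0) :
    cA f x = vK f x * (va J f x * va J f x + vc J f x * vc J f x) := by
  have hq := (fq_pos hη).ne'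
  have hW := (h.im.W_pos hx).ne'
  have hn := h.norm_eq hx
  have hWs := h.im.W_sq hx
  unfold cA vK va vc
  field_simp
  linear_combination (gG f x) * hn - (fc J f 1 x)^2 * hWs

theorem LagS.K_B (h : LagS J U f) (hx : x ∈ U) (hη : eta f x ≠ 0) :
    cB f x = vK f x * (va J f x * vb J f x + vc J f x * vd J f x) := by
  have hq := (fq_pos hη).ne'
  have hW := (h.im.W_pos hx).ne'
  have hn := h.norm_eq hx
  have hWs := h.im.W_sq hx
  unfold cB vK va vb vc vd
  field_simp
  linear_combination -(gF f x) * hn + (fc J f 0 x) * (fc J f 1 x) * hWs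

theorem LagS.K_C (h : LagS J U f) (hx : x ∈ U) (hη : eta f x ≠ 0) :
    cC f x = vK f x * (vb J f x * vb J f x + vd J f x * vd J f x) := by
  have hq := (fq_pos hη).ne'
  have hW := (h.im.W_pos hx).ne'
  have hn := h.norm_eq hx
  have hWs := h.im.W_sq hx
  unfold cC vK vb vd
  field_simp
  linear_combination (gE f x) * hn - (fc J f 0 x)^2 * hWs

/-- The first frame vector. -/
noncomputable def x1 (J : E4 →L[ℝ] E4) (f : E2 → E4) : E2 → E4 := dv (vf (va J f) (vb J f)) f
/-- The second frame vector. -/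
noncomputable def x2 (J : E4 →L[ℝ] E4) (f : E2 → E4) : E2 → E4 := dv (vf (vc J f) (vd J f)) f

theorem LagS.x1_eq (h : LagS J U f) (hx : x ∈ U) (hη : eta f x ≠ 0) :
    fq f x • x1 J f x = fX J f x := by
  have hq := (fq_pos hη).ne'
  have hW := (h.im.W_pos hx).ne'
  have ht := h.tangent hx
  have hW2 : gW f x ^ 2 ≠ 0 := pow_ne_zero 2 hW
  have e : fX J f x = (gW f x ^ 2)⁻¹ • (gW f x ^ 2 • fX J f x) := by
    rw [smul_smul, inv_mul_cancel₀ hW2, one_smul]
  rw [e, ht]
  unfold x1
  rw [dv_vf, smul_add, smul_add, smul_smul, smul_smul, smul_smul, smul_smul]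
  congr 2
  · unfold va; field_simp
  · unfold vb; field_simp

theorem LagS.x11 (h : LagS J U f) (hx : x ∈ U) (hη : eta f x ≠ 0) :
    fq f x * inner ℝ (x1 J f x) (x1 J f x) = 1 := by
  have hq := (fq_pos hη).ne'
  have h1 := h.fX_norm x
  rw [← h.x1_eq hx hη, real_inner_smul_left, real_inner_smul_right] at h1
  refine mul_left_cancel₀ hq ?_
  linear_combination h1

theorem LagS.x1_pe (h : LagS J U f) (hx : x ∈ U) (hη : eta f x ≠ 0) (i : Fin 2) :
    fq f x * inner ℝ (x1 J f x) (pe i f x) = fc J f i x := by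
  have h1 : inner ℝ (fX J f x) (pe i f x) = fc J f i x := rfl
  rw [← h.x1_eq hx hη, real_inner_smul_left] at h1
  exact h1

theorem LagS.x12 (h : LagS J U f) (hx : x ∈ U) (hη : eta f x ≠ 0) :
    inner ℝ (x1 J f x) (x2 J f x) = 0 := by
  have hq := (fq_pos hη).ne'
  have hW := (h.im.W_pos hx).ne'
  have h0 := h.x1_pe hx hη 0
  have h1 := h.x1_pe hx hη 1
  have e : inner ℝ (x1 J f x) (x2 J f x) = vc J f x * inner ℝ (x1 J f x) (pe 0 f x) +
      vd J f x * inner ℝ (x1 J f x) (pe 1 f x) := by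
    rw [show x2 J f x = vc J f x • pe 0 f x + vd J f x • pe 1 f x from dv_vf _ _ _ _,
      inner_add_right, real_inner_smul_right, real_inner_smul_right]
  rw [e]
  refine mul_left_cancel₀ hq ?_
  rw [mul_zero, mul_add, mul_left_comm, h0, mul_left_comm, h1]
  unfold vc vd
  ring

theorem LagS.x22 (h : LagS J U f) (hx : x ∈ U) (hη : eta f x ≠ 0) :
    fq f x * inner ℝ (x2 J f x) (x2 J f x) = 1 := by
  have hq := (fq_pos hη).ne'
  have hW := (h.im.W_pos hx).ne'
  have hn := h.norm_eq hx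
  have e00 : inner ℝ (pe 0 f x) (pe 0 f x) = gE f x := rfl
  have e01 : inner ℝ (pe 0 f x) (pe 1 f x) = gF f x := rfl
  have e10 : inner ℝ (pe 1 f x) (pe 0 f x) = gF f x := by rw [real_inner_comm]; rfl
  have e11 : inner ℝ (pe 1 f x) (pe 1 f x) = gG f x := rfl
  rw [show x2 J f x = vc J f x • pe 0 f x + vd J f x • pe 1 f x from dv_vf _ _ _ _]
  simp only [inner_add_left, inner_add_right, real_inner_smul_left, real_inner_smul_right, e00,
    e01, e10, e11]
  unfold vc vd
  field_simp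
  linear_combination -hn

theorem LagS.xJ (h : LagS J U f) (hx : x ∈ U) : inner ℝ (J (x1 J f x)) (x2 J f x) = 0 := by
  have l10 : inner ℝ (J (pe 1 f x)) (pe 0 f x) = 0 := by
    rw [real_inner_comm]; exact h.lag' hx
  rw [show x1 J f x = va J f x • pe 0 f x + vb J f x • pe 1 f x from dv_vf _ _ _ _,
    show x2 J f x = vc J f x • pe 0 f x + vd J f x • pe 1 f x from dv_vf _ _ _ _]
  simp only [map_add, map_smul, inner_add_left, inner_add_right, real_inner_smul_left,
    real_inner_smul_right, h.cx.self, h.lag x hx, l10]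
  ring

end Pool.Agent.Lib.MP_3248c9_gt.Lag
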