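import Pool.Agent.Lib.MP_3248c9_gt.Lag.Ops

/-!
# Vector-valued functions
-/

set_option autoImplicit false

namespace Pool.Agent.Lib.MP_3248c9_gt.Lag

open Set Filter Topology Complex
open scoped ContDiff ComplexConjugate

/-- Complex vectors. -/
abbrev C4 := Fin 4 → ℂ

/-- The complex bilinear form. -/
noncomputable def dot (a b : C4) : ℂ := ∑ j, a j * b j

/-- Complex conjugation of vectors. -/
noncomputable def cv (a : C4) : C4 := fun j => conj (a j)

@[simp] theorem cv_cv (a : C4) : cv (cv a) = a := by ext j; simp [cv]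
theorem cv_add (a b : C4) : cv (a + b) = cv a + cv b := by ext j; simp [cv]
theorem cv_sub (a b : C4) : cv (a - b) = cv a - cv b := by ext j; simp [cv]
theorem cv_neg (a : C4) : cv (-a) = -cv a := by ext j; simp [cv]
theorem cv_smul (c : ℂ) (a : C4) : cv (c • a) = conj c • cv a := by ext j; simp [cv]
theorem cv_apply (a : C4) (j : Fin 4) : cv a j = conj (a j) := rfl

theorem dot_comm (a b : C4) : dot a b = dot b a := by
  unfold dot; exact Finset.sum_congr rfl fun j _ => mul_comm _ _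
theorem dot_add_left (a b c : C4) : dot (a + b) c = dot a c + dot b c := by
  simp [dot, add_mul, Finset.sum_add_distrib]
theorem dot_add_right (a b c : C4) : dot a (b + c) = dot a b + dot a c := by
  simp [dot, mul_add, Finset.sum_add_distrib]
theorem dot_neg_left (a b : C4) : dot (-a) b = -dot a b := by
  simp [dot, Finset.sum_neg_distrib]
theorem dot_neg_right (a b : C4) : dot a (-b) = -dot a b := by
  simp [dot, Finset.sum_neg_distrib]
theorem dot_sub_left (a b c : C4) : dot (a - b) c = dot a c - dot b c := by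
  simp [dot, sub_mul, Finset.sum_sub_distrib]
theorem dot_sub_right (a b c : C4) : dot a (b - c) = dot a b - dot a c := by
  simp [dot, mul_sub, Finset.sum_sub_distrib]
theorem dot_smul_left (c : ℂ) (a b : C4) : dot (c • a) b = c * dot a b := by
  simp [dot, Finset.mul_sum, mul_assoc]
theorem dot_smul_right (c : ℂ) (a b : C4) : dot a (c • b) = c * dot a b := by
  simp [dot, Finset.mul_sum, mul_left_comm]
theorem dot_zero_left (b : C4) : dot 0 b = 0 := by simp [dot]
theorem dot_cv (a b : C4) : dot (cv a) (cv b) = conj (dot a b) := by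
  simp [dot, cv, map_sum]

/-- Vector version of `HD`. -/
def HDv (v₁ v₂ : E2 → E2) (Z : E2 → C4) (p : E2) (d : C4) : Prop :=
  ∀ j, HD v₁ v₂ (fun y => Z y j) p (d j)

/-- Vector version of `HB`. -/
def HBv (v₁ v₂ : E2 → E2) (Z : E2 → C4) (p : E2) (d : C4) : Prop :=
  ∀ j, HB v₁ v₂ (fun y => Z y j) p (d j)

/-- Vector version of `DD`. -/
noncomputable def DDv (v₁ v₂ : E2 → E2) (Z : E2 → C4) (p : E2) : C4 :=
  fun j => DD v₁ v₂ (fun y => Z y j) p

/-- Vector version of `DB`. -/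
noncomputable def DBv (v₁ v₂ : E2 → E2) (Z : E2 → C4) (p : E2) : C4 :=
  fun j => DB v₁ v₂ (fun y => Z y j) p

variable {v₁ v₂ : E2 → E2} {u : E2 → ℂ} {Z W : E2 → C4} {p : E2} {c : ℂ} {d e : C4} {V : Set E2}

theorem HDv.val (h : HDv v₁ v₂ Z p d) : DDv v₁ v₂ Z p = d := by ext j; exact (h j).2
theorem HBv.val (h : HBv v₁ v₂ Z p d) : DBv v₁ v₂ Z p = d := by ext j; exact (h j).2

theorem HDv.of (h : ∀ j, DifferentiableAt ℝ (fun y => Z y j) p) :
    HDv v₁ v₂ Z p (DDv v₁ v₂ Z p) := fun j => HD.of (h j)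
theorem HBv.of (h : ∀ j, DifferentiableAt ℝ (fun y => Z y j) p) :
    HBv v₁ v₂ Z p (DBv v₁ v₂ Z p) := fun j => HB.of (h j)

theorem HDv.congr_val {d' : C4} (h : HDv v₁ v₂ Z p d) (e : d = d') : HDv v₁ v₂ Z p d' := e ▸ h
theorem HBv.congr_val {d' : C4} (h : HBv v₁ v₂ Z p d) (e : d = d') : HBv v₁ v₂ Z p d' := e ▸ h

theorem HDv.add (h : HDv v₁ v₂ Z p d) (h' : HDv v₁ v₂ W p e) :
    HDv v₁ v₂ (fun y => Z y + W y) p (d + e) := fun j => (h j).add (h' j)
theorem HBv.add (h : HBv v₁ v₂ Z p d) (h' : HBv v₁ v₂ W p e) :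
    HBv v₁ v₂ (fun y => Z y + W y) p (d + e) := fun j => (h j).add (h' j)

theorem HDv.smul (hu : HD v₁ v₂ u p c) (h : HDv v₁ v₂ Z p d) :
    HDv v₁ v₂ (fun y => u y • Z y) p (c • Z p + u p • d) := fun j => hu.mul (h j)
theorem HBv.smul (hu : HB v₁ v₂ u p c) (h : HBv v₁ v₂ Z p d) :
    HBv v₁ v₂ (fun y => u y • Z y) p (c • Z p + u p • d) := fun j => hu.mul (h j)

theorem HDv.csmul (c : ℂ) (h : HDv v₁ v₂ Z p d) :
    HDv v₁ v₂ (fun y => c • Z y) p (c • d) := fun j => (h j).cmul c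
theorem HBv.csmul (c : ℂ) (h : HBv v₁ v₂ Z p d) :
    HBv v₁ v₂ (fun y => c • Z y) p (c • d) := fun j => (h j).cmul c

theorem HDv.dot (h : HDv v₁ v₂ Z p d) (h' : HDv v₁ v₂ W p e) :
    HD v₁ v₂ (fun y => dot (Z y) (W y)) p (dot d (W p) + Lag.dot (Z p) e) := by
  have := HD.sum Finset.univ (fun j _ => (h j).mul (h' j))
  refine HD.congr_val this ?_
  simp [Lag.dot, Finset.sum_add_distrib]
theorem HBv.dot (h : HBv v₁ v₂ Z p d) (h' : HBv v₁ v₂ W p e) :
    HB v₁ v₂ (fun y => dot (Z y) (W y)) p (dot d (W p) + Lag.dot (Z p) e) := by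
  have := HB.sum Finset.univ (fun j _ => (h j).mul (h' j))
  refine HB.congr_val this ?_
  simp [Lag.dot, Finset.sum_add_distrib]

theorem HDv.cv (h : HDv v₁ v₂ Z p d) : HBv v₁ v₂ (fun y => cv (Z y)) p (cv d) :=
  fun j => (h j).conj
theorem HBv.cv (h : HBv v₁ v₂ Z p d) : HDv v₁ v₂ (fun y => cv (Z y)) p (cv d) :=
  fun j => (h j).conj

theorem lin_apply (J : C4 →ₗ[ℂ] C4) (a : C4) (i : Fin 4) :
    J a i = ∑ j, J (Pi.single j 1) i * a j := by
  have h := LinearMap.pi_apply_eq_sum_univ J a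
  have h1 : ∀ j : Fin 4, (fun k : Fin 4 => if j = k then (1 : ℂ) else 0) = Pi.single j 1 := by
    intro j
    ext k
    simp [Pi.single_apply, eq_comm]
  rw [h, Finset.sum_apply]
  refine Finset.sum_congr rfl fun j _ => ?_
  rw [Pi.smul_apply, smul_eq_mul, mul_comm, h1]

theorem HDv.lin (J : C4 →ₗ[ℂ] C4) (h : HDv v₁ v₂ Z p d) :
    HDv v₁ v₂ (fun y => J (Z y)) p (J d) := by
  intro i
  have h1 : (fun y => J (Z y) i) = fun y => ∑ j, J (Pi.single j 1) i * Z y j := by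
    funext y; exact lin_apply J (Z y) i
  rw [h1, lin_apply J d i]
  exact HD.sum Finset.univ fun j _ => (h j).cmul _
theorem HBv.lin (J : C4 →ₗ[ℂ] C4) (h : HBv v₁ v₂ Z p d) :
    HBv v₁ v₂ (fun y => J (Z y)) p (J d) := by
  intro i
  have h1 : (fun y => J (Z y) i) = fun y => ∑ j, J (Pi.single j 1) i * Z y j := by
    funext y; exact lin_apply J (Z y) i
  rw [h1, lin_apply J d i]
  exact HB.sum Finset.univ fun j _ => (h j).cmul _

theorem HDv.congr (hV : IsOpen V) (hp : p ∈ V) (e : ∀ y ∈ V, Z y = W y)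
    (h : HDv v₁ v₂ Z p d) : HDv v₁ v₂ W p d :=
  fun j => (h j).congr hV hp (fun y hy => by rw [e y hy])
theorem HBv.congr (hV : IsOpen V) (hp : p ∈ V) (e : ∀ y ∈ V, Z y = W y)
    (h : HBv v₁ v₂ Z p d) : HBv v₁ v₂ W p d :=
  fun j => (h j).congr hV hp (fun y hy => by rw [e y hy])

end Pool.Agent.Lib.MP_3248c9_gt.Lag
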